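import Pool.Agent.LibHB92.MKb
import Pool.Agent.LibHB92.Gid
import Pool.Agent.LibHB92.PK

/-
LibHC92: MP_b1abd3_lc without hypothesis on the residue field. R is a commutative ring, theta in R such that 1 + theta R
consists of units, phi a homomorphism of 1 + theta R to a finite group, M an invariant mean on R.
HH theta h: h is in 1 + theta R. DD sigma h h': the distance of the functions y -> phi (h - theta sigma y) and
y -> phi (h' - theta sigma y).
-/

set_option autoImplicit false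

noncomputable section

namespace Pool.LibHC92

open Pool.LibHB92

universe u

/-- h is congruent to 1 modulo θ -/
def HH {R : Type u} [CommRing R] (θ h : R) : Prop := ∃ x, h = 1 + θ * x

/-- the distance of the functions φ(h - θ σ y) and φ(h' - θ σ y) of y -/
def DD {R : Type u} [CommRing R] {F : Type u} (θ : R) (φ : R → F) (M : Mean R) (σ h h' : R) : ℝ :=
  M.pr (fun y => φ (h - θ * σ * y) ≠ φ (h' - θ * σ * y))

section

variable {R : Type u} [CommRing R] {F : Type u} [CommGroup F] {θ : R} {φ : R → F} {N : ℕ}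

theorem HH.one : HH θ (1 : R) := ⟨0, by ring⟩

theorem HH.mul {a b : R} (ha : HH θ a) (hb : HH θ b) : HH θ (a * b) := by
  obtain ⟨x, rfl⟩ := ha
  obtain ⟨y, rfl⟩ := hb
  exact ⟨x + y + θ * x * y, by ring⟩

theorem HH.sub {a : R} (ha : HH θ a) (b : R) : HH θ (a - θ * b) := by
  obtain ⟨x, rfl⟩ := ha
  exact ⟨x - b, by ring⟩

theorem HH.add {a : R} (ha : HH θ a) (b : R) : HH θ (a + θ * b) := by
  obtain ⟨x, rfl⟩ := ha
  exact ⟨x + b, by ring⟩

theorem HH.inv {u : Rˣ} (hu : HH θ (u : R)) : HH θ ((u⁻¹ : Rˣ) : R) := by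
  obtain ⟨x, hx⟩ := hu
  refine ⟨-(x * ((u⁻¹ : Rˣ) : R)), ?_⟩
  have h1 : (u : R) * ((u⁻¹ : Rˣ) : R) = 1 := Units.mul_inv u
  rw [hx] at h1
  linear_combination h1

theorem HH.unit (hD : Dat θ φ N) {a : R} (ha : HH θ a) : ∃ u : Rˣ, (u : R) = a := by
  obtain ⟨x, rfl⟩ := ha
  exact hD.un x

theorem HH.phi (hD : Dat θ φ N) {a b : R} (ha : HH θ a) (hb : HH θ b) :
    φ (a * b) = φ a * φ b := by
  obtain ⟨x, rfl⟩ := ha
  obtain ⟨y, rfl⟩ := hb
  exact hD.mul x y

theorem HH.phi_inv (hD : Dat θ φ N) {u : Rˣ} (hu : HH θ (u : R)) :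
    φ ((u⁻¹ : Rˣ) : R) = (φ (u : R))⁻¹ := by
  have h1 := HH.phi hD hu hu.inv
  rw [Units.mul_inv, hD.one] at h1
  exact (inv_eq_of_mul_eq_one_right h1.symm).symm

omit [CommGroup F] in
theorem pr_sc {M : Mean R} (hM : AffInv M) (w : Rˣ) (P : R → Prop) :
    M.pr (fun y => P (w * y)) = M.pr P :=
  hM.sc w (fun y => ind (P y)) (bd_ind P)

omit [CommGroup F] in
theorem pr_tr {M : Mean R} (hM : AffInv M) (r : R) (P : R → Prop) :
    M.pr (fun y => P (y + r)) = M.pr P :=
  hM.tr r (fun y => ind (P y)) (bd_ind P)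

omit [CommGroup F] in
theorem DD.nn (M : Mean R) (σ h h' : R) : 0 ≤ DD θ φ M σ h h' := M.pr_nonneg _

omit [CommGroup F] in
theorem DD.self (M : Mean R) (σ h : R) : DD θ φ M σ h h = 0 :=
  M.pr_false fun _ hy => hy rfl

omit [CommGroup F] in
theorem DD.symm (M : Mean R) (σ h h' : R) : DD θ φ M σ h h' = DD θ φ M σ h' h :=
  M.pr_ne_symm _ _

omit [CommGroup F] in
theorem DD.tri (M : Mean R) (σ h h' h'' : R) :
    DD θ φ M σ h h'' ≤ DD θ φ M σ h h' + DD θ φ M σ h' h'' :=
  M.pr_ne_tri _ _ _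

omit [CommGroup F] in
/-- the scale σ may be multiplied by a unit -/
theorem DD.sc {M : Mean R} (hM : AffInv M) (w : Rˣ) (σ h h' : R) :
    DD θ φ M (σ * w) h h' = DD θ φ M σ h h' := by
  unfold DD
  rw [← pr_sc hM w (fun y => φ (h - θ * σ * y) ≠ φ (h' - θ * σ * y))]
  refine M.pr_congr fun y => ?_
  have e : θ * (σ * (w : R)) * y = θ * σ * (w * y) := by ring
  rw [e]

/-- invariance under multiplication by u in 1 + θ R -/
theorem DD.mul (hD : Dat θ φ N) {M : Mean R} (hM : AffInv M) {u : Rˣ} (hu : HH θ (u : R)) (σ : R)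
    {h h' : R} (hh : HH θ h) (hh' : HH θ h') :
    DD θ φ M σ (u * h) (u * h') = DD θ φ M σ h h' := by
  have key : ∀ {a : R}, HH θ a → ∀ y : R,
      φ (u * a - θ * σ * (u * y)) = φ (u : R) * φ (a - θ * σ * y) := by
    intro a ha y
    rw [← HH.phi hD hu (by
      have e : θ * σ * y = θ * (σ * y) := by ring
      rw [e]
      exact ha.sub _)]
    congr 1
    ring
  have h1 : DD θ φ M σ (u * h) (u * h') =
      M.pr (fun y => φ (u * h - θ * σ * (u * y)) ≠ φ (u * h' - θ * σ * (u * y))) := by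
    unfold DD
    exact (pr_sc hM u (fun y => φ (u * h - θ * σ * y) ≠ φ (u * h' - θ * σ * y))).symm
  rw [h1]
  unfold DD
  refine M.pr_congr fun y => ?_
  rw [key hh, key hh']
  exact (mul_right_injective _).ne_iff

end

end Pool.LibHC92
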