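import Pool.Agent.LibHC92.Defs

/-
Definitions of the chain of states.
-/

set_option autoImplicit false

noncomputable section

namespace Pool.LibHC92

open Pool.LibHB92

universe u

/-- almost invariance under the translations by θ^B r, for all scales σ and all invariant means -/
def Tr {R : Type u} [CommRing R] {F : Type u} (θ : R) (φ : R → F) (B : ℕ) (ε : ℝ) : Prop :=
  ∀ M : Mean R, AffInv M → ∀ σ r : R, DD θ φ M σ (1 - θ * σ * (θ ^ B * r)) 1 ≤ ε

/-- at the scale θ^n the base point may be changed by θ^(t + B) r if n + 1 ≤ 2 t -/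
def Nr {R : Type u} [CommRing R] {F : Type u} (θ : R) (φ : R → F) (M : Mean R) (B : ℕ) (ε : ℝ) :
    Prop :=
  ∀ n t : ℕ, 1 ≤ t → t ≤ n + 1 → n + 1 ≤ 2 * t → ∀ (w : Rˣ) (h : R), HH θ h → ∀ r : R,
    DD θ φ M (θ ^ n * w) (h + θ ^ (t + B) * r) h ≤ ε

/-- the small scale μ = θ^(10 B + 7) -/
def mu {R : Type u} [CommRing R] (θ : R) (B : ℕ) : R := θ ^ (10 * B + 7)

/-- the test scale s = θ^(6 B + 4) -/
def ss {R : Type u} [CommRing R] (θ : R) (B : ℕ) : R := θ ^ (6 * B + 4)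

/-- b' is the state after b and x: b' = μ b + 1/x -/
def Nx {R : Type u} [CommRing R] (μ : R) (b x b' : Rˣ) : Prop :=
  (b' : R) = μ * b + ((x⁻¹ : Rˣ) : R)

/-- the value of the state b at t: the class of 1 - t / b -/
def Vl {R : Type u} [CommRing R] {F : Type u} (φ : R → F) (b : Rˣ) (t : R) : F :=
  φ (1 - t * ((b⁻¹ : Rˣ) : R))

/-- the ratio function of x0 at x = 1 + θ y -/
def Ra {R : Type u} [CommRing R] {F : Type u} [CommGroup F] (θ : R) (φ : R → F) (B : ℕ) (x0 : Rˣ)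
    (y : R) : F :=
  φ (1 - ss θ B * (1 + θ * y)) * (φ (1 + mu θ B * ((x0⁻¹ : Rˣ) : R) * (1 + θ * y)))⁻¹

/-- x0 is bad: the ratio function is not almost constant -/
def Bad {R : Type u} [CommRing R] {F : Type u} [CommGroup F] (θ : R) (φ : R → F) (M : Mean R)
    (B : ℕ) (α : ℝ) (x0 : Rˣ) : Prop :=
  ∀ c : F, α < M.pr (fun y => Ra θ φ B x0 y ≠ c)

section

variable {R : Type u} [CommRing R] {F : Type u} [CommGroup F] {θ : R} {φ : R → F} {N : ℕ}

theorem mu_eq (θ : R) (B : ℕ) : mu θ B = ss θ B * θ ^ (4 * B + 3) := by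
  unfold mu ss
  rw [← pow_add]
  congr 1
  omega

theorem mu_th (θ : R) (B : ℕ) : mu θ B = θ * θ ^ (10 * B + 6) := by
  unfold mu
  rw [← pow_succ']

theorem ss_th (θ : R) (B : ℕ) : ss θ B = θ * θ ^ (6 * B + 3) := by
  unfold ss
  rw [← pow_succ']

/-- every y gives a unit a (1 + θ y) -/
theorem ex_x (hD : Dat θ φ N) (a : Rˣ) (y : R) : ∃ x : Rˣ, (x : R) = a * (1 + θ * y) := by
  obtain ⟨u, hu⟩ := hD.un y
  exact ⟨a * u, by rw [Units.val_mul, hu]⟩

/-- the next state exists -/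
theorem ex_nx (hD : Dat θ φ N) (B : ℕ) (b x : Rˣ) : ∃ b' : Rˣ, Nx (mu θ B) b x b' := by
  obtain ⟨u, hu⟩ := hD.un (θ ^ (10 * B + 6) * b * x)
  refine ⟨x⁻¹ * u, ?_⟩
  unfold Nx
  rw [Units.val_mul, hu, mu_th]
  have h1 : ((x⁻¹ : Rˣ) : R) * (x : R) = 1 := Units.inv_mul x
  linear_combination (θ * θ ^ (10 * B + 6) * b) * h1

end

end Pool.LibHC92
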