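import Pool.Agent.LibHC92.Defs2

/-
The final step: q iterations of a triangle inequality.
-/

set_option autoImplicit false

noncomputable section

namespace Pool.LibHC92

open Pool.LibHB92

universe u

private def nu {R : Type u} [CommRing R] (θ : R) (B : ℕ) (x0 z : Rˣ) (i : ℕ) : R :=
  mu θ B * ((x0⁻¹ : Rˣ) : R) * (((z⁻¹) ^ i : Rˣ) : R)

private theorem nu_hh {R : Type u} [CommRing R] {θ : R} (B : ℕ) (x0 z : Rˣ) (i : ℕ) {a : R}
    (ha : HH θ a) : HH θ (a + nu θ B x0 z i) := by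
  have e : nu θ B x0 z i = θ * (θ ^ (10 * B + 6) * ((x0⁻¹ : Rˣ) : R) * (((z⁻¹) ^ i : Rˣ) : R)) := by
    unfold nu
    rw [mu_th]
    ring
  rw [e]
  exact ha.add _

/-- the base point may be changed at the scale nu i -/
private theorem nu_ch {R : Type u} [CommRing R] {F : Type u} [CommGroup F] {θ : R} {φ : R → F}
    {M : Mean R} {B : ℕ} {ε : ℝ} (hN : Nr θ φ M B ε) (x0 z : Rˣ) (i : ℕ) {h h' : R} (hh : HH θ h)
    (r : R) (hr : h' = h + θ ^ (6 * B + 4) * r) :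
    M.pr (fun y => φ (h' + θ * nu θ B x0 z i * y) ≠ φ (h + θ * nu θ B x0 z i * y)) ≤ ε := by
  have h1 := hN (10 * B + 7) (5 * B + 4) (by omega) (by omega) (by omega)
    (-(x0⁻¹ * z⁻¹ ^ i)) h hh r
  unfold DD at h1
  refine le_of_eq_of_le (M.pr_congr fun y => ?_) h1
  have e1 : h + θ ^ (5 * B + 4 + B) * r - θ * (θ ^ (10 * B + 7) * ((-(x0⁻¹ * z⁻¹ ^ i) : Rˣ) : R)) * y
      = h' + θ * nu θ B x0 z i * y := by
    rw [hr]
    unfold nu mu
    have e0 : 5 * B + 4 + B = 6 * B + 4 := by omega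
    rw [e0, Units.val_neg, Units.val_mul]
    ring
  have e2 : h - θ * (θ ^ (10 * B + 7) * ((-(x0⁻¹ * z⁻¹ ^ i) : Rˣ) : R)) * y
      = h + θ * nu θ B x0 z i * y := by
    unfold nu mu
    rw [Units.val_neg, Units.val_mul]
    ring
  rw [e1, e2]

theorem final {R : Type u} [CommRing R] {F : Type u} [CommGroup F] {θ : R} {φ : R → F} {N : ℕ}
    (hD : Dat θ φ N) {M : Mean R} (hM : AffInv M) {B q : ℕ} {ε α : ℝ} (hN : Nr θ φ M B ε)
    (hexp : ∀ s : F, s ^ q = 1) (z x0 : Rˣ) (hx0 : HH θ (x0 : R)) (h1 : ¬ Bad θ φ M B α x0)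
    (h2 : ¬ Bad θ φ M B α (z * x0)) (x : R) (hz : (z : R) ^ q = 1 + θ ^ (6 * B + 4) * x)
    (hs : q * (2 * α + 2 * ε) + ε < 1) : φ ((z : R) ^ q) = 1 := by
  have _ := hx0
  obtain ⟨c1, hc1⟩ : ∃ c, M.pr (fun y => Ra θ φ B x0 y ≠ c) ≤ α := by
    unfold Bad at h1
    push Not at h1
    exact h1
  obtain ⟨c2, hc2⟩ : ∃ c, M.pr (fun y => Ra θ φ B (z * x0) y ≠ c) ≤ α := by
    unfold Bad at h2
    push Not at h2
    exact h2
  -- the functions P i
  let P : ℕ → R → F := fun i y => φ (1 + nu θ B x0 z i + θ * nu θ B x0 z i * y)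
  let c : F := c1⁻¹ * c2
  have hn0 : nu θ B x0 z 0 = mu θ B * ((x0⁻¹ : Rˣ) : R) := by
    unfold nu
    rw [pow_zero, Units.val_one, mul_one]
  have hn1 : nu θ B x0 z 1 = mu θ B * (((z * x0)⁻¹ : Rˣ) : R) := by
    unfold nu
    rw [pow_one, mul_inv, mul_comm z⁻¹ x0⁻¹, Units.val_mul, mul_assoc]
  have hR0 : ∀ y, Ra θ φ B x0 y = φ (1 - ss θ B * (1 + θ * y)) * (P 0 y)⁻¹ := by
    intro y
    unfold Ra
    congr 3
    rw [hn0]
    ring
  have hR1 : ∀ y, Ra θ φ B (z * x0) y = φ (1 - ss θ B * (1 + θ * y)) * (P 1 y)⁻¹ := by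
    intro y
    unfold Ra
    congr 3
    rw [hn1]
    ring
  have hs0 : M.pr (fun y => P 0 y ≠ c * P 1 y) ≤ 2 * α := by
    have h3 : M.pr (fun y => P 0 y ≠ c * P 1 y) ≤ M.pr (fun y => Ra θ φ B x0 y ≠ c1) +
        M.pr (fun y => Ra θ φ B (z * x0) y ≠ c2) := by
      refine M.pr_le_or fun y hy => ?_
      by_contra hn
      push Not at hn
      obtain ⟨ha, hb⟩ := hn
      apply hy
      rw [hR0] at ha
      rw [hR1] at hb
      have ha' : φ (1 - ss θ B * (1 + θ * y)) = c1 * P 0 y := by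
        rw [← ha, inv_mul_cancel_right]
      have hb' : φ (1 - ss θ B * (1 + θ * y)) = c2 * P 1 y := by
        rw [← hb, inv_mul_cancel_right]
      have h4 : c1 * P 0 y = c2 * P 1 y := ha'.symm.trans hb'
      calc P 0 y = c1⁻¹ * (c1 * P 0 y) := (inv_mul_cancel_left _ _).symm
        _ = c1⁻¹ * (c2 * P 1 y) := by rw [h4]
        _ = c * P 1 y := (mul_assoc _ _ _).symm
    linarith
  -- one step
  have hstep : ∀ i, M.pr (fun y => P i y ≠ c * P (i + 1) y) ≤ 2 * α + 2 * ε := by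
    intro i
    have hA : M.pr (fun y => φ (1 + nu θ B x0 z 0 + θ * nu θ B x0 z i * y) ≠
        c * φ (1 + nu θ B x0 z 1 + θ * nu θ B x0 z (i + 1) * y)) ≤ 2 * α := by
      rw [← pr_sc hM (z⁻¹ ^ i) (fun y => P 0 y ≠ c * P 1 y)] at hs0
      refine le_of_eq_of_le (M.pr_congr fun y => ?_) hs0
      have e1 : θ * nu θ B x0 z i * y = θ * nu θ B x0 z 0 * (((z⁻¹ ^ i : Rˣ) : R) * y) := by
        unfold nu
        rw [pow_zero, Units.val_one]
        ring
      have e2 : θ * nu θ B x0 z (i + 1) * y = θ * nu θ B x0 z 1 * (((z⁻¹ ^ i : Rˣ) : R) * y) := by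
        unfold nu
        rw [pow_succ, pow_one, Units.val_mul]
        ring
      rw [e1, e2]
    have hB : M.pr (fun y => P i y ≠ φ (1 + nu θ B x0 z 0 + θ * nu θ B x0 z i * y)) ≤ ε := by
      refine nu_ch hN x0 z i (nu_hh B x0 z 0 HH.one)
        (θ ^ (4 * B + 3) * ((x0⁻¹ : Rˣ) : R) * ((((z⁻¹) ^ i : Rˣ) : R) - 1)) ?_
      unfold nu
      have e0 : mu θ B = θ ^ (6 * B + 4) * θ ^ (4 * B + 3) := by
        unfold mu
        rw [← pow_add]
        congr 1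
        omega
      rw [pow_zero, Units.val_one, e0]
      ring
    have hC : M.pr (fun y => P (i + 1) y ≠
        φ (1 + nu θ B x0 z 1 + θ * nu θ B x0 z (i + 1) * y)) ≤ ε := by
      refine nu_ch hN x0 z (i + 1) (nu_hh B x0 z 1 HH.one)
        (θ ^ (4 * B + 3) * ((x0⁻¹ : Rˣ) : R) *
          ((((z⁻¹) ^ (i + 1) : Rˣ) : R) - (((z⁻¹) ^ 1 : Rˣ) : R))) ?_
      unfold nu
      have e0 : mu θ B = θ ^ (6 * B + 4) * θ ^ (4 * B + 3) := by
        unfold mu
        rw [← pow_add]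
        congr 1
        omega
      rw [e0]
      ring
    have h3 : M.pr (fun y => P i y ≠ c * P (i + 1) y) ≤
        M.pr (fun y => P i y ≠ φ (1 + nu θ B x0 z 0 + θ * nu θ B x0 z i * y)) +
        M.pr (fun y => φ (1 + nu θ B x0 z 0 + θ * nu θ B x0 z i * y) ≠
          c * P (i + 1) y) := M.pr_ne_tri _ _ _
    have h4 : M.pr (fun y => φ (1 + nu θ B x0 z 0 + θ * nu θ B x0 z i * y) ≠
          c * P (i + 1) y) ≤
        M.pr (fun y => φ (1 + nu θ B x0 z 0 + θ * nu θ B x0 z i * y) ≠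
          c * φ (1 + nu θ B x0 z 1 + θ * nu θ B x0 z (i + 1) * y)) +
        M.pr (fun y => c * φ (1 + nu θ B x0 z 1 + θ * nu θ B x0 z (i + 1) * y) ≠
          c * P (i + 1) y) := M.pr_ne_tri _ _ _
    have h5 : M.pr (fun y => c * φ (1 + nu θ B x0 z 1 + θ * nu θ B x0 z (i + 1) * y) ≠
          c * P (i + 1) y) ≤ ε := by
      refine (M.pr_mono fun y hy => ?_).trans hC
      intro he
      exact hy (by rw [he])
    linarith
  -- q steps
  have hit : ∀ k : ℕ, M.pr (fun y => P 0 y ≠ c ^ k * P k y) ≤ k * (2 * α + 2 * ε) := by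
    intro k
    induction k with
    | zero =>
      rw [M.pr_false (fun y hy => hy (by rw [pow_zero, one_mul]))]
      simp
    | succ k ih =>
      have h3 : M.pr (fun y => P 0 y ≠ c ^ (k + 1) * P (k + 1) y) ≤
          M.pr (fun y => P 0 y ≠ c ^ k * P k y) +
          M.pr (fun y => c ^ k * P k y ≠ c ^ (k + 1) * P (k + 1) y) := M.pr_ne_tri _ _ _
      have h4 : M.pr (fun y => c ^ k * P k y ≠ c ^ (k + 1) * P (k + 1) y) ≤ 2 * α + 2 * ε := by
        refine (M.pr_mono fun y hy => ?_).trans (hstep k)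
        intro he
        exact hy (by rw [he, pow_succ, mul_assoc (c ^ k) c _])
      push_cast
      linarith
  -- the last comparison
  let uq : Rˣ := z ^ q
  have huq : (uq : R) = 1 + θ ^ (6 * B + 4) * x := by
    rw [← hz]
    exact Units.val_pow_eq_pow_val z q
  have huH : HH θ (uq : R) := by
    rw [huq]
    refine ⟨θ ^ (6 * B + 3) * x, ?_⟩
    rw [← mul_assoc, ← pow_succ']
  have hlast : M.pr (fun y => P q y ≠ φ ((uq⁻¹ : Rˣ) : R) * P 0 y) ≤ ε := by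
    have h3 := nu_ch hN x0 z 0 (h := 1 + nu θ B x0 z 0) (h' := (uq : R) + nu θ B x0 z 0)
      (nu_hh B x0 z 0 HH.one) x (by rw [huq]; ring)
    refine (M.pr_mono fun y hy => ?_).trans h3
    intro he
    apply hy
    have e1 : 1 + nu θ B x0 z q + θ * nu θ B x0 z q * y =
        ((uq⁻¹ : Rˣ) : R) * ((uq : R) + nu θ B x0 z 0 + θ * nu θ B x0 z 0 * y) := by
      have e2 : nu θ B x0 z q = ((uq⁻¹ : Rˣ) : R) * nu θ B x0 z 0 := by
        unfold nu
        rw [pow_zero, Units.val_one, inv_pow]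
        ring
      have e3 : ((uq⁻¹ : Rˣ) : R) * (uq : R) = 1 := Units.inv_mul uq
      rw [e2]
      linear_combination -e3
    have e4 : HH θ ((uq : R) + nu θ B x0 z 0 + θ * nu θ B x0 z 0 * y) := by
      have := (nu_hh B x0 z 0 huH).add (nu θ B x0 z 0 * y)
      rwa [← mul_assoc] at this
    change φ (1 + nu θ B x0 z q + θ * nu θ B x0 z q * y) = _
    rw [e1, HH.phi hD huH.inv e4, he]
  have htot : M.pr (fun y => P 0 y ≠ c ^ q * P q y ∨ P q y ≠ φ ((uq⁻¹ : Rˣ) : R) * P 0 y) < 1 := by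
    have := M.pr_or (fun y => P 0 y ≠ c ^ q * P q y) (fun y => P q y ≠ φ ((uq⁻¹ : Rˣ) : R) * P 0 y)
    have := hit q
    linarith
  obtain ⟨y, hy⟩ := M.exists_of_pr_pos (P := fun y => ¬ (P 0 y ≠ c ^ q * P q y ∨
    P q y ≠ φ ((uq⁻¹ : Rˣ) : R) * P 0 y)) (by rw [M.pr_not]; linarith)
  push Not at hy
  obtain ⟨ha, hb⟩ := hy
  rw [hexp, one_mul] at ha
  have h3 : φ ((uq⁻¹ : Rˣ) : R) = 1 := by
    have h4 : 1 * P 0 y = φ ((uq⁻¹ : Rˣ) : R) * P 0 y := by rw [one_mul, ← hb, ← ha]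
    exact (mul_right_cancel h4).symm
  have h4 := HH.phi_inv hD huH
  rw [h3] at h4
  have h5 : φ (uq : R) = 1 := by
    rw [← inv_inv (φ (uq : R)), ← h4, inv_one]
  have h6 : (uq : R) = (z : R) ^ q := Units.val_pow_eq_pow_val z q
  rwa [h6] at h5

end Pool.LibHC92
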