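import Pool.Agent.LibHC92.HG
import Pool.Agent.LibHB92.PKb

/-
PLAN (HK, SHORT/MEDIUM): see the header of HG.lean (no_tree, numb). exists_good: if there is no such x, the hypothesis hbad of tree holds (push Not), so no_tree gives a contradiction.
-/

set_option autoImplicit false

noncomputable section

namespace Pool.LibHC92

open Pool.LibHB92

universe u

theorem numb (N f : ℕ) : ∃ n : ℕ, ((2 * n + 1) ^ N) ^ f < 2 ^ n := by
  have h1 := tendsto_pow_const_div_const_pow_of_one_lt (N * f) (by norm_num : (1 : ℝ) < 2)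
  have h2 : ∀ᶠ n : ℕ in Filter.atTop, (n : ℝ) ^ (N * f) / 2 ^ n < 1 / 3 ^ (N * f) :=
    h1.eventually_lt_const (by positivity)
  obtain ⟨m0, hm0⟩ := Filter.eventually_atTop.1 h2
  refine ⟨m0 + 1, ?_⟩
  have h3 := hm0 (m0 + 1) (by omega)
  rw [div_lt_div_iff₀ (by positivity) (by positivity), one_mul] at h3
  have h4 : ((2 * (m0 + 1) + 1 : ℕ) : ℝ) ≤ 3 * ((m0 + 1 : ℕ) : ℝ) := by
    push_cast
    have : (0 : ℝ) ≤ m0 := Nat.cast_nonneg m0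
    linarith
  have h5 : (((2 * (m0 + 1) + 1 : ℕ) : ℝ)) ^ (N * f) < 2 ^ (m0 + 1) := by
    calc (((2 * (m0 + 1) + 1 : ℕ) : ℝ)) ^ (N * f) ≤ (3 * ((m0 + 1 : ℕ) : ℝ)) ^ (N * f) :=
          pow_le_pow_left₀ (by positivity) h4 _
      _ = ((m0 + 1 : ℕ) : ℝ) ^ (N * f) * 3 ^ (N * f) := by rw [mul_pow, mul_comm]
      _ < 2 ^ (m0 + 1) := h3
  rw [← pow_mul]
  exact_mod_cast h5

theorem no_tree {R : Type u} [CommRing R] {F : Type u} [CommGroup F] [Fintype F] {θ : R}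
    {φ : R → F} {N f n : ℕ} (hD : Dat θ φ N) (hf : Fintype.card F ≤ f)
    (hn : ((2 * n + 1) ^ N) ^ f < 2 ^ n) (B : ℕ) (S : Fin (2 ^ n) → Rˣ)
    (hS : ∀ i j, i ≠ j → ∃ l < 2 * n,
      Vl φ (S i) (ss θ B * mu θ B ^ l) ≠ Vl φ (S j) (ss θ B * mu θ B ^ l)) : False := by
  have hpt : ∀ (b : Rˣ) (l : ℕ), 1 - θ * (θ ^ (6 * B + 3) * mu θ B ^ l + 0) * ((b⁻¹ : Rˣ) : R) =
      1 - ss θ B * mu θ B ^ l * ((b⁻¹ : Rˣ) : R) := by
    intro b l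
    rw [ss_th]
    ring
  have h1 := count (N := N) (fun l : Fin (2 * n) => θ ^ (6 * B + 3) * mu θ B ^ (l : ℕ))
    (fun (i : Fin (2 ^ n)) (c : F) (y : R) =>
      φ (1 - θ * (y + 0) * (((S i)⁻¹ : Rˣ) : R)) = c)
    (fun c => by
      rintro ⟨y, b, hb⟩
      exact hD.V1 c ⟨y, fun J => (0, (((S (b J))⁻¹ : Rˣ) : R)), hb⟩)
    (fun i j hij => by
      obtain ⟨l, hl, hne⟩ := hS i j hij
      refine ⟨⟨l, hl⟩, Vl φ (S i) (ss θ B * mu θ B ^ l), fun hiff => hne ?_⟩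
      simp only [hpt] at hiff
      exact (hiff.1 rfl).symm)
  have h2 : ((2 * n + 1) ^ N) ^ Fintype.card F ≤ ((2 * n + 1) ^ N) ^ f :=
    Nat.pow_le_pow_right (Nat.pow_pos (Nat.succ_pos _)) hf
  omega

theorem exists_good {R : Type u} [CommRing R] {F : Type u} [CommGroup F] [Fintype F] {θ : R}
    {φ : R → F} {N f n : ℕ} (hD : Dat θ φ N) (hf : Fintype.card F ≤ f)
    (hn : ((2 * n + 1) ^ N) ^ f < 2 ^ n) {M : Mean R} {B : ℕ} {ε α : ℝ} (hε : 0 ≤ ε)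
    (hN : Nr θ φ M B ε) (z : Rˣ) (hα : α < 1) (hnε : (4 * n + 4) * ε ≤ α) :
    ∃ x : Rˣ, HH θ (x : R) ∧ ¬ Bad θ φ M B α x ∧ ¬ Bad θ φ M B α (z * x) := by
  by_contra hcon
  have hbad : ∀ (y : R) (x : Rˣ), (x : R) = 1 + θ * y →
      Bad θ φ M B α x ∨ Bad θ φ M B α (z * x) := by
    intro y x hx
    by_contra hno
    rw [not_or] at hno
    exact hcon ⟨x, ⟨y, hx⟩, hno.1, hno.2⟩
  obtain ⟨S, hS⟩ := tree hD hε hN z hα hnε hbad
  exact no_tree hD hf hn B S hS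

end Pool.LibHC92
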