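import Pool.Agent.LibHC92.Defs2

/-
PLAN (HS, MEDIUM). Mit M ρ: the iterated mean f ↦ M_y M_x f (y + ρ x); fields add, smul, mono, one as in Mean.trip (LibHB92/Defs.lean), bounded functions stay bounded (Mean.abs_le, le_const). Mit_aff: translation: outer mean (hM.tr); scaling by w: f (w (y + ρ x)) = f (w y + ρ (w x)): inner hM.sc, outer hM.sc.
step: η1, ρ, κ with θ η1 = ρ κ. For u_y := the unit 1 - θ η1 y: (1) Tr for Mit M ρ at the scale η1 says M_y [DD (η1 ρ) (u_y - θ η1 (θ^B r)) u_y] ≤ ε (unfold: (Mit M ρ).pr P = M.m (fun y => M.pr (fun x => P (y + ρ x))), 1 - θ η1 (θ^B r) - θ η1 (y + ρ x) = u_y - θ η1 (θ^B r) - θ (η1 ρ) x). (2) DD.mul with u_y: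
DD (η1 ρ) (u_y - θ η1 (θ^B r)) u_y = DD (η1 ρ) (1 - θ η1 (θ^B r) u_y⁻¹) 1. (3) h' := 1 - θ η1 (θ^B r) u_y⁻¹ (a unit of 1 + θ R): 1 - θ η1 (θ^B r) = h' + θ η1 θ^B r (u_y⁻¹ - 1), u_y⁻¹ - 1 = θ η1 y u_y⁻¹, θ η1 = ρ κ, so it is h' (1 - θ (η1 ρ) (θ^B r'')) with r'' := - r κ y u_y⁻¹ h'⁻¹; DD.mul and Tr for M at
the scale η1 ρ: DD (η1 ρ) (1 - θ η1 (θ^B r)) h' ≤ ε. (4) triangle: for every y the constant DD (η1 ρ) (1 - θ η1 (θ^B r)) 1 ≤ ε + DD (η1 ρ) (u_y - ..) u_y; take M.m over y (mono, add, const): ≤ 2 ε. near: η1 := θ^(t-1), ρ := θ^(n+1-t) w, κ := θ^(2t-n-1) w⁻¹, η1 ρ = θ^n w, θ η1 = θ^t;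
h + θ^(t+B) r = h (1 - θ^t θ^B (-r h⁻¹)), DD.mul with the unit h.
-/

set_option autoImplicit false

noncomputable section

namespace Pool.LibHC92

open Pool.LibHB92

universe u

private theorem HS_bd {R : Type u} [CommRing R] (M : Mean R) (ρ : R) {f : R → ℝ} {C : ℝ} (hC : ∀ y, |f y| ≤ C) :
    Bd (fun y => M.m (fun x => f (y + ρ * x))) := by
  refine ⟨C, fun y => ?_⟩
  refine (M.abs_le ⟨C, fun x => hC _⟩).trans ?_
  exact M.le_const (Bd.abs ⟨C, fun x => hC _⟩) fun x => hC _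

/-- the iterated mean f ↦ M_y M_x f (y + ρ x) -/
def Mit {R : Type u} [CommRing R] (M : Mean R) (ρ : R) : Mean R where
  m := fun f => M.m (fun y => M.m (fun x => f (y + ρ * x)))
  add := by
    rintro f g ⟨C, hC⟩ ⟨D, hD⟩
    rw [← M.add _ _ (HS_bd M ρ hC) (HS_bd M ρ hD)]
    congr 1
    funext y
    exact M.add _ _ ⟨C, fun x => hC _⟩ ⟨D, fun x => hD _⟩
  smul := by
    rintro c f ⟨C, hC⟩
    rw [← M.smul c _ (HS_bd M ρ hC)]
    congr 1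
    funext y
    exact M.smul c _ ⟨C, fun x => hC _⟩
  mono := by
    rintro f g ⟨C, hC⟩ ⟨D, hD⟩ h
    exact M.mono _ _ (HS_bd M ρ hC) (HS_bd M ρ hD) fun y =>
      M.mono _ _ ⟨C, fun x => hC _⟩ ⟨D, fun x => hD _⟩ fun x => h _
  one := by
    rw [M.const, M.const]

theorem Mit_aff {R : Type u} [CommRing R] {M : Mean R} (hM : AffInv M) (ρ : R) :
    AffInv (Mit M ρ) := by
  constructor
  · rintro r f ⟨C, hC⟩
    have h1 := hM.tr r (fun y => M.m (fun x => f (y + ρ * x))) (HS_bd M ρ hC)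
    have h2 : (Mit M ρ).m (fun y => f (y + r)) = M.m (fun y => M.m (fun x => f (y + r + ρ * x))) := by
      have h3 : (fun y => M.m (fun x => f (y + ρ * x + r))) = fun y => M.m (fun x => f (y + r + ρ * x)) := by
        funext y
        congr 1
        funext x
        congr 1
        ring
      exact congrArg M.m h3
    rw [h2]
    exact h1
  · rintro w f ⟨C, hC⟩
    have h1 := hM.sc w (fun y => M.m (fun x => f (y + ρ * x))) (HS_bd M ρ hC)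
    have h2 : (Mit M ρ).m (fun y => f (w * y)) = M.m (fun y => M.m (fun x => f (w * y + ρ * x))) := by
      have h3 : (fun y => M.m (fun x => f (w * (y + ρ * x)))) = fun y => M.m (fun x => f (w * y + ρ * x)) := by
        funext y
        have h4 := hM.sc w (fun x => f (w * y + ρ * x)) ⟨C, fun x => hC _⟩
        rw [← h4]
        congr 1
        funext x
        congr 1
        ring
      exact congrArg M.m h3
    rw [h2]
    exact h1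

private theorem HS_pt {R : Type u} [CommRing R] {F : Type u} [CommGroup F] {θ : R} {φ : R → F} {N : ℕ}
    (hD : Dat θ φ N) {B : ℕ} {ε : ℝ} (hT : Tr θ φ B ε) {M : Mean R} (hM : AffInv M) {η1 ρ κ : R}
    (hk : θ * η1 = ρ * κ) (r y : R) :
    DD θ φ M (η1 * ρ) (1 - θ * η1 * (θ ^ B * r)) 1 ≤
      ε + DD θ φ M (η1 * ρ) (1 - θ * η1 * y - θ * η1 * (θ ^ B * r)) (1 - θ * η1 * y) := by
  have hH1 : HH θ (1 - θ * η1 * y) := ⟨-(η1 * y), by ring⟩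
  obtain ⟨u, hu⟩ := HH.unit hD hH1
  have hHu : HH θ (u : R) := by rw [hu]; exact hH1
  have hH2 : HH θ (1 - θ * η1 * (θ ^ B * r) * ((u⁻¹ : Rˣ) : R)) :=
    ⟨-(η1 * (θ ^ B * r) * ((u⁻¹ : Rˣ) : R)), by ring⟩
  obtain ⟨v, hv⟩ := HH.unit hD hH2
  have hHv : HH θ (v : R) := by rw [hv]; exact hH2
  have hui : (u : R) * ((u⁻¹ : Rˣ) : R) = 1 := Units.mul_inv u
  have hvi : (v : R) * ((v⁻¹ : Rˣ) : R) = 1 := Units.mul_inv v
  -- first part
  have h1 : DD θ φ M (η1 * ρ) (v : R) 1 =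
      DD θ φ M (η1 * ρ) (1 - θ * η1 * y - θ * η1 * (θ ^ B * r)) (1 - θ * η1 * y) := by
    rw [← DD.mul hD hM hHu (η1 * ρ) hHv HH.one, mul_one]
    have e : (u : R) * v = 1 - θ * η1 * y - θ * η1 * (θ ^ B * r) := by
      rw [hv, ← hu]
      linear_combination (-(θ * η1 * (θ ^ B * r))) * hui
    rw [e, hu]
  -- second part
  have h2 : DD θ φ M (η1 * ρ) (1 - θ * η1 * (θ ^ B * r)) (v : R) ≤ ε := by
    have hH3 : HH θ (1 - θ * (η1 * ρ) * (θ ^ B * (-(r * κ * y * ((u⁻¹ : Rˣ) : R) * ((v⁻¹ : Rˣ) : R))))) :=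
      ⟨-((η1 * ρ) * (θ ^ B * (-(r * κ * y * ((u⁻¹ : Rˣ) : R) * ((v⁻¹ : Rˣ) : R))))), by ring⟩
    have h3 := hT M hM (η1 * ρ) (-(r * κ * y * ((u⁻¹ : Rˣ) : R) * ((v⁻¹ : Rˣ) : R)))
    rw [← DD.mul hD hM hHv (η1 * ρ) hH3 HH.one, mul_one] at h3
    have e : (v : R) * (1 - θ * (η1 * ρ) * (θ ^ B * (-(r * κ * y * ((u⁻¹ : Rˣ) : R) * ((v⁻¹ : Rˣ) : R))))) =
        1 - θ * η1 * (θ ^ B * r) := by
      have e1 : (v : R) * (1 - θ * (η1 * ρ) * (θ ^ B * (-(r * κ * y * ((u⁻¹ : Rˣ) : R) * ((v⁻¹ : Rˣ) : R))))) =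
          v + θ * η1 * (θ ^ B * r) * (ρ * κ) * y * ((u⁻¹ : Rˣ) : R) := by
        linear_combination (θ * (η1 * ρ) * θ ^ B * (r * κ * y * ((u⁻¹ : Rˣ) : R))) * hvi
      rw [e1, ← hk, hv]
      have e2 : (θ * η1 * y) * ((u⁻¹ : Rˣ) : R) = ((u⁻¹ : Rˣ) : R) - 1 := by
        have e3 : θ * η1 * y = 1 - (u : R) := by rw [hu]; ring
        rw [e3]
        linear_combination (-1 : R) * hui
      linear_combination (θ * η1 * (θ ^ B * r)) * e2
    rw [e] at h3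
    exact h3
  have h4 := DD.tri (θ := θ) (φ := φ) M (η1 * ρ) (1 - θ * η1 * (θ ^ B * r)) (v : R) 1
  rw [h1] at h4
  linarith

private theorem HS_step {R : Type u} [CommRing R] {F : Type u} [CommGroup F] {θ : R} {φ : R → F} {N : ℕ}
    (hD : Dat θ φ N) {B : ℕ} {ε : ℝ} (hT : Tr θ φ B ε) {M : Mean R} (hM : AffInv M) {η1 ρ κ : R}
    (hk : θ * η1 = ρ * κ) (r : R) :
    DD θ φ M (η1 * ρ) (1 - θ * η1 * (θ ^ B * r)) 1 ≤ 2 * ε := by
  have h1 := hT (Mit M ρ) (Mit_aff hM ρ) η1 r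
  have h2 : DD θ φ (Mit M ρ) η1 (1 - θ * η1 * (θ ^ B * r)) 1 =
      M.m (fun y => DD θ φ M (η1 * ρ) (1 - θ * η1 * y - θ * η1 * (θ ^ B * r)) (1 - θ * η1 * y)) := by
    have h3 : (fun y => M.m (fun x => ind (φ (1 - θ * η1 * (θ ^ B * r) - θ * η1 * (y + ρ * x)) ≠
        φ (1 - θ * η1 * (y + ρ * x))))) =
        fun y => DD θ φ M (η1 * ρ) (1 - θ * η1 * y - θ * η1 * (θ ^ B * r)) (1 - θ * η1 * y) := by
      funext y
      unfold DD Mean.pr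
      congr 1
      funext x
      have e1 : 1 - θ * η1 * (θ ^ B * r) - θ * η1 * (y + ρ * x) =
          1 - θ * η1 * y - θ * η1 * (θ ^ B * r) - θ * (η1 * ρ) * x := by ring
      have e2 : 1 - θ * η1 * (y + ρ * x) = 1 - θ * η1 * y - θ * (η1 * ρ) * x := by ring
      rw [e1, e2]
    exact congrArg M.m h3
  rw [h2] at h1
  have hb : Bd (fun y => DD θ φ M (η1 * ρ) (1 - θ * η1 * y - θ * η1 * (θ ^ B * r)) (1 - θ * η1 * y)) :=
    bd_of (fun y => M.pr_nonneg _) (fun y => M.pr_le_one _)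
  have h4 : DD θ φ M (η1 * ρ) (1 - θ * η1 * (θ ^ B * r)) 1 ≤
      M.m (fun y => ε + DD θ φ M (η1 * ρ) (1 - θ * η1 * y - θ * η1 * (θ ^ B * r)) (1 - θ * η1 * y)) := by
    rw [← M.const (DD θ φ M (η1 * ρ) (1 - θ * η1 * (θ ^ B * r)) 1)]
    exact M.mono _ _ (bd_const _) ((bd_const ε).add hb) fun y => HS_pt hD hT hM hk r y
  rw [M.add _ _ (bd_const ε) hb, M.const] at h4
  linarith

theorem near {R : Type u} [CommRing R] {F : Type u} [CommGroup F] {θ : R} {φ : R → F} {N : ℕ}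
    (hD : Dat θ φ N) {B : ℕ} {ε : ℝ} (hT : Tr θ φ B ε) {M : Mean R} (hM : AffInv M) :
    Nr θ φ M B (2 * ε) := by
  intro n t ht1 ht2 ht3 w h hh r
  obtain ⟨u, hu⟩ := HH.unit hD hh
  have hHu : HH θ (u : R) := by rw [hu]; exact hh
  have hui : (u : R) * ((u⁻¹ : Rˣ) : R) = 1 := Units.mul_inv u
  have hwi : (w : R) * ((w⁻¹ : Rˣ) : R) = 1 := Units.mul_inv w
  have e1 : θ * θ ^ (t - 1) = θ ^ t := by
    rw [← pow_succ']
    congr 1
    omega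
  have e2 : θ ^ (n + 1 - t) * θ ^ (2 * t - n - 1) = θ ^ t := by
    rw [← pow_add]
    congr 1
    omega
  have e3 : θ ^ (t - 1) * θ ^ (n + 1 - t) = θ ^ n := by
    rw [← pow_add]
    congr 1
    omega
  have hk : θ * θ ^ (t - 1) = (θ ^ (n + 1 - t) * (w : R)) * (θ ^ (2 * t - n - 1) * ((w⁻¹ : Rˣ) : R)) := by
    rw [e1, ← e2]
    linear_combination (-(θ ^ (n + 1 - t) * θ ^ (2 * t - n - 1))) * hwi
  have h1 := HS_step hD hT hM hk (-(r * ((u⁻¹ : Rˣ) : R)))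
  have hH : HH θ (1 - θ * θ ^ (t - 1) * (θ ^ B * (-(r * ((u⁻¹ : Rˣ) : R))))) :=
    ⟨-(θ ^ (t - 1) * (θ ^ B * (-(r * ((u⁻¹ : Rˣ) : R))))), by ring⟩
  have e4 : θ ^ (t - 1) * (θ ^ (n + 1 - t) * (w : R)) = θ ^ n * w := by
    rw [← mul_assoc, e3]
  rw [e4, ← DD.mul hD hM hHu (θ ^ n * w) hH HH.one, mul_one, e1] at h1
  have e5 : (u : R) * (1 - θ ^ t * (θ ^ B * (-(r * ((u⁻¹ : Rˣ) : R))))) = h + θ ^ (t + B) * r := by
    rw [pow_add, ← hu]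
    linear_combination (θ ^ t * θ ^ B * r) * hui
  rw [e5, hu] at h1
  exact h1

end Pool.LibHC92
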