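import Pool.Agent.LibHC92.HT
import Pool.Agent.LibHC92.HS
import Pool.Agent.LibHC92.HK
import Pool.Agent.LibHC92.HF

/-
HCore (helper92): the core. For given bounds N (no shattered sets), f (number of classes) and exponent q there is n0 such
that φ (z^q) = 1 for every unit z with z^q congruent to 1 modulo θ^n0.
-/

set_option autoImplicit false

noncomputable section

namespace Pool.LibHC92

open Pool.LibHB92

universe u

theorem core2 (N f q : ℕ) (hq : 0 < q) : ∃ n0 : ℕ, ∀ (R : Type u) [CommRing R] (F : Type u)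
    [CommGroup F] [Fintype F], Fintype.card F ≤ f → (∀ s : F, s ^ q = 1) → ∀ (θ : R) (φ : R → F),
    Dat θ φ N → ∀ (z : Rˣ) (x : R), (z : R) ^ q = 1 + θ ^ n0 * x → φ ((z : R) ^ q) = 1 := by
  obtain ⟨n, hn⟩ := numb N f
  have hq1 : (1 : ℝ) ≤ q := by exact_mod_cast hq
  obtain ⟨α, hα⟩ : ∃ α : ℝ, α = 1 / (8 * q) := ⟨_, rfl⟩
  have hα0 : 0 < α := by
    rw [hα]
    positivity
  have hα1 : q * α = 1 / 8 := by
    rw [hα]
    field_simp
  have hα2 : α < 1 := by nlinarith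
  have hn0 : (0 : ℝ) < 4 * n + 4 := by positivity
  obtain ⟨ε, hε⟩ : ∃ ε : ℝ, ε = α / (4 * n + 4) := ⟨_, rfl⟩
  have hε0 : 0 < ε := by
    rw [hε]
    positivity
  have hε1 : (4 * n + 4) * ε = α := by
    rw [hε]
    field_simp
  have hε2 : 4 * ε ≤ α := by
    rw [← hε1]
    have : (0 : ℝ) ≤ n := Nat.cast_nonneg n
    nlinarith
  have hs : (q : ℝ) * (2 * α + 2 * ε) + ε < 1 := by
    have h1 : (q : ℝ) * (4 * ε) ≤ q * α := mul_le_mul_of_nonneg_left hε2 (by linarith)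
    have h2 : ε ≤ q * ε := by nlinarith
    nlinarith
  obtain ⟨B, hB⟩ := trans.{u} N f (ε := ε / 2) (by linarith)
  refine ⟨6 * B + 4, ?_⟩
  intro R _ F _ _ hF hexp θ φ hD z x hz
  obtain ⟨M, hM⟩ := mean_exists R
  have hN : Nr θ φ M B ε := by
    have h1 := near hD (hB R F hF θ φ hD) hM
    have e : 2 * (ε / 2) = ε := by ring
    rwa [e] at h1
  obtain ⟨x0, hx0, h1, h2⟩ := exists_good hD hF hn hε0.le hN z hα2 hε1.le
  exact final hD hM hN hexp z x0 hx0 h1 h2 x hz hs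

/-- a multiplicative map with values in a subgroup -/
theorem dat_sub {R : Type u} [CommRing R] {F : Type u} [CommGroup F] {η : R} {φ : R → F} {N : ℕ}
    (hD : Dat η φ N) (G : Subgroup F) (hG : ∀ x : R, φ (1 + η * x) ∈ G) :
    ∃ φ' : R → G, Dat η φ' N ∧ ∀ x : R, ((φ' (1 + η * x) : G) : F) = φ (1 + η * x) := by
  classical
  obtain ⟨φ', hφ'⟩ : ∃ φ' : R → G, ∀ x, φ' x = if h : φ x ∈ G then ⟨φ x, h⟩ else 1 :=
    ⟨_, fun _ => rfl⟩
  have h1 : ∀ x : R, ((φ' (1 + η * x) : G) : F) = φ (1 + η * x) := by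
    intro x
    rw [hφ', dif_pos (hG x)]
  have h2 : ∀ x : R, φ' (1 + η * x) = ⟨φ (1 + η * x), hG x⟩ := fun x => Subtype.ext (h1 x)
  have h3 : ∀ (x : R) (s : G), φ' (1 + η * x) = s ↔ φ (1 + η * x) = (s : F) := by
    intro x s
    rw [h2 x, Subtype.ext_iff]
  refine ⟨φ', ⟨hD.un, ?_, ?_, ?_⟩, h1⟩
  · intro x y
    apply Subtype.ext
    have e : (1 + η * x) * (1 + η * y) = 1 + η * (x + y + η * x * y) := by ring
    rw [Subgroup.coe_mul, h1, h1, e, h1, ← e]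
    exact hD.mul x y
  · intro s hsh
    obtain ⟨y, b, hb⟩ := hsh
    refine hD.V1 (s : F) ⟨y, b, fun i J => ?_⟩
    rw [← hb i J]
    have e : 1 - η * (y i + (b J).1) * (b J).2 = 1 + η * (-((y i + (b J).1) * (b J).2)) := by ring
    simp only [e]
    exact (h3 _ s).symm
  · obtain ⟨T, hT1, hT2⟩ := hD.V2
    refine ⟨fun s => T (s : F), fun s => hT1 s, fun s t y hy => (hT2 (s : F) t y hy).trans ?_⟩
    constructor
    · rintro ⟨x, hx, hx'⟩
      exact ⟨x, (h3 x s).2 hx, hx'⟩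
    · rintro ⟨x, hx, hx'⟩
      exact ⟨x, (h3 x s).1 hx, hx'⟩

end Pool.LibHC92
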