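import Pool.Agent.LibHB92.X1
import Pool.Agent.LibHB92.VH

/-
HDef: the classes modulo q-th powers at a scale b, and the smallness condition.
-/

set_option autoImplicit false

noncomputable section

namespace Pool.LibHC92

universe u

/-- the classes of Lˣ modulo q-th powers that contain an element congruent to 1 modulo b at all valuation rings of L
over O -/
def CB {K : Type u} [Field K] (O : ValuationSubring K) (q : ℕ) (L : Type u) [Field L]
    [Algebra K L] (b : L) : Set (Lˣ ⧸ (powMonoidHom q : Lˣ →* Lˣ).range) :=
  {c | ∃ u : Lˣ, (QuotientGroup.mk u : Lˣ ⧸ (powMonoidHom q : Lˣ →* Lˣ).range) = c ∧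
    ∀ A : ValuationSubring L, A.comap (algebraMap K L) = O →
      A.valuation ((u : L) - 1) ≤ A.valuation b}

/-- for every b in the maximal ideals of all valuation rings over O there is k such that only finitely many classes of
Lˣ modulo q-th powers contain an element congruent to 1 modulo b ^ k -/
def Small {K : Type u} [Field K] (O : ValuationSubring K) (q : ℕ) (L : Type u) [Field L]
    [Algebra K L] : Prop :=
  ∀ b : L, (∀ A : ValuationSubring L, A.comap (algebraMap K L) = O → A.valuation b < 1) →
    ∃ k : ℕ, (CB O q L (b ^ k)).Finite

theorem CB_mono {K : Type u} [Field K] (O : ValuationSubring K) (q : ℕ) (L : Type u) [Field L]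
    [Algebra K L] {b c : L} (h : ∀ A : ValuationSubring L, A.comap (algebraMap K L) = O →
      A.valuation b ≤ A.valuation c) : CB O q L b ⊆ CB O q L c := by
  rintro x ⟨u, hu, hA⟩
  exact ⟨u, hu, fun A hAO => (hA A hAO).trans (h A hAO)⟩

end Pool.LibHC92
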