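import Pool.Agent.LibHC92.HP

/-
The binary tree of states.
-/

set_option autoImplicit false

noncomputable section

namespace Pool.LibHC92

open Pool.LibHB92

universe u

variable {R : Type u} [CommRing R] {F : Type u} [CommGroup F] {θ : R} {φ : R → F} {N : ℕ}

/-- union bound over l < m -/
private theorem pr_ex {Y : Type u} (M : Mean Y) {ε : ℝ} (Q : ℕ → Y → Prop)
    (hQ : ∀ l, M.pr (Q l) ≤ ε) (m : ℕ) : M.pr (fun y => ∃ l < m, Q l y) ≤ m * ε := by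
  induction m with
  | zero =>
    rw [M.pr_false (fun y hy => by
      obtain ⟨l, hl, -⟩ := hy
      exact Nat.not_lt_zero l hl)]
    simp
  | succ m ih =>
    have h1 : M.pr (fun y => ∃ l < m + 1, Q l y) ≤ M.pr (fun y => ∃ l < m, Q l y) + M.pr (Q m) := by
      refine M.pr_le_or fun y hy => ?_
      obtain ⟨l, hl, h⟩ := hy
      rcases Nat.lt_succ_iff_lt_or_eq.1 hl with h2 | h2
      · exact Or.inl ⟨l, h2, h⟩
      · rw [h2] at h
        exact Or.inr h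
    have h2 := hQ m
    push_cast
    linarith

/-- one state has two children -/
theorem children (hD : Dat θ φ N) {M : Mean R} {B k : ℕ} {ε α : ℝ} (hε : 0 ≤ ε)
    (hN : Nr θ φ M B ε) (z : Rˣ) (hα : α < 1) (hk : (4 * k + 4) * ε ≤ α)
    (hbad : ∀ (y : R) (x : Rˣ), (x : R) = 1 + θ * y → Bad θ φ M B α x ∨ Bad θ φ M B α (z * x))
    (b : Rˣ) : ∃ c : Bool → Rˣ, (∀ i, ∀ l < 2 * k,
      Vl φ (c i) (ss θ B * mu θ B ^ (l + 2)) = Vl φ b (ss θ B * mu θ B ^ l)) ∧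
      Vl φ (c true) (ss θ B) ≠ Vl φ (c false) (ss θ B) := by
  have hkε : 0 ≤ (k : ℝ) * ε := mul_nonneg (Nat.cast_nonneg k) hε
  -- the first choice
  obtain ⟨x0, b1, hx0, hb1, hper⟩ : ∃ x0 b1 : Rˣ, Bad θ φ M B α x0 ∧ Nx (mu θ B) b x0 b1 ∧
      ∀ l < 2 * k, Vl φ b1 (mu θ B * (ss θ B * mu θ B ^ l)) = Vl φ b (ss θ B * mu θ B ^ l) := by
    have hA := pr_ex M (fun l y => ¬ ∀ x b' : Rˣ, (x : R) = ((1 : Rˣ) : R) * (1 + θ * y) →
      Nx (mu θ B) b x b' → Vl φ b' (mu θ B * (ss θ B * mu θ B ^ l)) =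
        Vl φ b (ss θ B * mu θ B ^ l)) (fun l => persist hD hN 1 b (mu θ B ^ l)) (2 * k)
    have hB := pr_ex M (fun l y => ¬ ∀ x b' : Rˣ, (x : R) = (z : R) * (1 + θ * y) →
      Nx (mu θ B) b x b' → Vl φ b' (mu θ B * (ss θ B * mu θ B ^ l)) =
        Vl φ b (ss θ B * mu θ B ^ l)) (fun l => persist hD hN z b (mu θ B ^ l)) (2 * k)
    push_cast at hA hB
    let E0 : R → Prop := fun y => (∃ l < 2 * k,
      ¬ ∀ x b' : Rˣ, (x : R) = ((1 : Rˣ) : R) * (1 + θ * y) →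
      Nx (mu θ B) b x b' → Vl φ b' (mu θ B * (ss θ B * mu θ B ^ l)) =
        Vl φ b (ss θ B * mu θ B ^ l)) ∨ (∃ l < 2 * k,
      ¬ ∀ x b' : Rˣ, (x : R) = (z : R) * (1 + θ * y) →
      Nx (mu θ B) b x b' → Vl φ b' (mu θ B * (ss θ B * mu θ B ^ l)) =
        Vl φ b (ss θ B * mu θ B ^ l))
    have hAB : M.pr E0 ≤ 2 * k * ε + 2 * k * ε := (M.pr_or _ _).trans (add_le_add hA hB)
    obtain ⟨y0, hy0⟩ := M.exists_of_pr_pos (P := fun y => ¬ E0 y) (by
        rw [M.pr_not]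
        linarith)
    have hy0' := not_or.1 hy0
    obtain ⟨h1, h2⟩ := hy0'
    obtain ⟨x1, hx1⟩ := ex_x hD 1 y0
    have hx1' : (x1 : R) = 1 + θ * y0 := by rw [hx1, Units.val_one, one_mul]
    rcases hbad y0 x1 hx1' with hb | hb
    · obtain ⟨b1, hb1⟩ := ex_nx hD B b x1
      refine ⟨x1, b1, hb, hb1, fun l hl => ?_⟩
      by_contra hne
      exact h1 ⟨l, hl, fun hall => hne (hall x1 b1 hx1 hb1)⟩
    · obtain ⟨b1, hb1⟩ := ex_nx hD B b (z * x1)
      refine ⟨z * x1, b1, hb, hb1, fun l hl => ?_⟩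
      by_contra hne
      exact h2 ⟨l, hl, fun hall => hne (hall (z * x1) b1 (by rw [Units.val_mul, hx1']) hb1)⟩
  -- the second choice
  obtain ⟨C, hC⟩ := newval hD hN b x0 b1 hb1
  have hA := pr_ex M (fun l y => ¬ ∀ x b' : Rˣ, (x : R) = ((1 : Rˣ) : R) * (1 + θ * y) →
      Nx (mu θ B) b1 x b' → Vl φ b' (mu θ B * (ss θ B * mu θ B ^ l)) =
        Vl φ b1 (ss θ B * mu θ B ^ l)) (fun l => persist hD hN 1 b1 (mu θ B ^ l)) (2 * k + 1)
  push_cast at hA
  let E : R → Prop := fun y => (∃ l < 2 * k + 1,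
      ¬ ∀ x b' : Rˣ, (x : R) = ((1 : Rˣ) : R) * (1 + θ * y) →
      Nx (mu θ B) b1 x b' → Vl φ b' (mu θ B * (ss θ B * mu θ B ^ l)) =
        Vl φ b1 (ss θ B * mu θ B ^ l)) ∨ ¬ ∀ x b' : Rˣ, (x : R) = 1 + θ * y →
      Nx (mu θ B) b1 x b' → Vl φ b' (ss θ B) = C * Ra θ φ B x0 y
  have hE : M.pr E ≤ α := by
    have h1 : M.pr E ≤ (2 * k + 1) * ε + 2 * ε := (M.pr_or _ _).trans (add_le_add hA hC)
    linarith
  -- a child for every good y
  have hch : ∀ y, ¬ E y → ∃ c : Rˣ, (∀ l < 2 * k,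
      Vl φ c (ss θ B * mu θ B ^ (l + 2)) = Vl φ b (ss θ B * mu θ B ^ l)) ∧
      Vl φ c (ss θ B) = C * Ra θ φ B x0 y := by
    intro y hy
    have hy' := not_or.1 hy
    obtain ⟨h1, h2⟩ := hy'
    obtain ⟨x, hx⟩ := ex_x hD 1 y
    obtain ⟨c, hc⟩ := ex_nx hD B b1 x
    refine ⟨c, fun l hl => ?_, ?_⟩
    · have h3 : Vl φ c (mu θ B * (ss θ B * mu θ B ^ (l + 1))) =
          Vl φ b1 (ss θ B * mu θ B ^ (l + 1)) := by
        by_contra hne
        exact h1 ⟨l + 1, by omega, fun hall => hne (hall x c hx hc)⟩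
      have h4 := hper l hl
      have e1 : ss θ B * mu θ B ^ (l + 2) = mu θ B * (ss θ B * mu θ B ^ (l + 1)) := by ring
      have e2 : ss θ B * mu θ B ^ (l + 1) = mu θ B * (ss θ B * mu θ B ^ l) := by ring
      rw [e1, h3, e2, h4]
    · by_contra hne
      exact h2 fun hall => hne (hall x c (by rw [hx, Units.val_one, one_mul]) hc)
  obtain ⟨y1, hy1⟩ := M.exists_of_pr_pos (P := fun y => ¬ E y) (by
    rw [M.pr_not]
    linarith)
  obtain ⟨y2, hy2, hy2'⟩ : ∃ y, ¬ E y ∧ Ra θ φ B x0 y ≠ Ra θ φ B x0 y1 := by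
    have h1 := hx0 (Ra θ φ B x0 y1)
    have h2 : M.pr (fun y => Ra θ φ B x0 y ≠ Ra θ φ B x0 y1) ≤ M.pr E +
        M.pr (fun y => ¬ E y ∧ Ra θ φ B x0 y ≠ Ra θ φ B x0 y1) :=
      M.pr_le_or fun y hy => by
        by_cases h : E y
        · exact Or.inl h
        · exact Or.inr ⟨h, hy⟩
    exact M.exists_of_pr_pos (P := fun y => ¬ E y ∧ Ra θ φ B x0 y ≠ Ra θ φ B x0 y1) (by linarith)
  obtain ⟨c1, h1, h1'⟩ := hch y1 hy1
  obtain ⟨c2, h2, h2'⟩ := hch y2 hy2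
  refine ⟨fun i => if i then c2 else c1, fun i l hl => ?_, ?_⟩
  · cases i
    · exact h1 l hl
    · exact h2 l hl
  · simp only [if_true, Bool.false_eq_true, if_false]
    rw [h1', h2']
    intro h
    exact hy2' (mul_left_cancel h)

/-- a tree of 2^n states with different patterns -/
theorem tree (hD : Dat θ φ N) {M : Mean R} {B n : ℕ} {ε α : ℝ} (hε : 0 ≤ ε)
    (hN : Nr θ φ M B ε) (z : Rˣ) (hα : α < 1) (hn : (4 * n + 4) * ε ≤ α)
    (hbad : ∀ (y : R) (x : Rˣ), (x : R) = 1 + θ * y → Bad θ φ M B α x ∨ Bad θ φ M B α (z * x)) :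
    ∃ S : Fin (2 ^ n) → Rˣ, ∀ i j, i ≠ j → ∃ l < 2 * n,
      Vl φ (S i) (ss θ B * mu θ B ^ l) ≠ Vl φ (S j) (ss θ B * mu θ B ^ l) := by
  have key : ∀ k : ℕ, k ≤ n → ∃ S : Fin (2 ^ k) → Rˣ, ∀ i j, i ≠ j → ∃ l < 2 * k,
      Vl φ (S i) (ss θ B * mu θ B ^ l) ≠ Vl φ (S j) (ss θ B * mu θ B ^ l) := by
    intro k
    induction k with
    | zero =>
      intro _
      refine ⟨fun _ => 1, fun i j hij => absurd ?_ hij⟩
      have h1 : (i : ℕ) < 1 := i.2
      have h2 : (j : ℕ) < 1 := j.2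
      exact Fin.ext (by omega)
    | succ k ih =>
      intro hk
      obtain ⟨S, hS⟩ := ih (by omega)
      have hkε : (4 * (k : ℝ) + 4) * ε ≤ α := by
        refine le_trans (mul_le_mul_of_nonneg_right ?_ hε) hn
        have : (k : ℝ) ≤ n := by exact_mod_cast (by omega : k ≤ n)
        linarith
      have hc := fun i => children hD hε hN z hα hkε hbad (S i)
      choose c hc1 hc2 using hc
      let e : Fin (2 ^ (k + 1)) ≃ Fin (2 ^ k) × Bool := Fintype.equivOfCardEq (by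
        rw [Fintype.card_prod, Fintype.card_fin, Fintype.card_fin, Fintype.card_bool, pow_succ])
      refine ⟨fun i => c (e i).1 (e i).2, fun i j hij => ?_⟩
      have hne : e i ≠ e j := fun h => hij (e.injective h)
      by_cases h1 : (e i).1 = (e j).1
      · have h2 : (e i).2 ≠ (e j).2 := fun h => hne (Prod.ext h1 h)
        refine ⟨0, by omega, ?_⟩
        rw [pow_zero, mul_one]
        change Vl φ (c (e i).1 (e i).2) (ss θ B) ≠ Vl φ (c (e j).1 (e j).2) (ss θ B)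
        rw [h1]
        have h3 := hc2 (e j).1
        cases h4 : (e i).2 <;> cases h5 : (e j).2
        · exact absurd (h4.trans h5.symm) h2
        · exact h3.symm
        · exact h3
        · exact absurd (h4.trans h5.symm) h2
      · obtain ⟨l, hl, h2⟩ := hS _ _ h1
        refine ⟨l + 2, by omega, ?_⟩
        change Vl φ (c (e i).1 (e i).2) (ss θ B * mu θ B ^ (l + 2)) ≠
          Vl φ (c (e j).1 (e j).2) (ss θ B * mu θ B ^ (l + 2))
        rw [hc1 _ _ l hl, hc1 _ _ l hl]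
        exact h2
  exact key n le_rfl

end Pool.LibHC92
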