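import Mathlib

/-
PLAN (HI, SHORT). Induction on n. n = 0: z := z0, v := 0, x := z0^q - 1 (θ^0 = 1). n = 1: z0, x = 1. n → n + 1 (n ≥ 1): z with z^q = 1 + θ^n x; z' := z (1 - θ^n x qi) (1 - θ^n x qi = 1 + θ (..) is a unit), (1 - θ^n x qi)^q = 1 - q qi θ^n x + θ^(2n) r = 1 - θ^n x + θ^(2n) r
(add_pow / Polynomial.evalSubFactor or binomial expansion: exists r, (1 + a)^q = 1 + q a + a^2 r), so z'^q = (1 + θ^n x) (1 - θ^n x + θ^(2n) r) = 1 + θ^(2n) (..) = 1 + θ^(n+1) (..).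
-/

set_option autoImplicit false

noncomputable section

namespace Pool.LibHC92

universe u

private theorem HI_binom {R : Type u} [CommRing R] (a : R) (q : ℕ) :
    ∃ r : R, (1 + a) ^ q = 1 + (q : R) * a + a ^ 2 * r := by
  induction q with
  | zero => exact ⟨0, by simp⟩
  | succ q ih =>
    obtain ⟨r, hr⟩ := ih
    refine ⟨(q : R) + r + a * r, ?_⟩
    rw [pow_succ, hr]
    push_cast
    ring

/-- better approximations of a root of unity -/
theorem newton {R : Type u} [CommRing R] {θ : R} (hun : ∀ x : R, IsUnit (1 + θ * x)) (q : ℕ)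
    (qi : R) (hqi : (q : R) * qi = 1) (z0 : Rˣ) (h0 : (z0 : R) ^ q = 1 + θ) (n : ℕ) :
    ∃ z : Rˣ, (∃ v : R, (z : R) = z0 * (1 + θ * v)) ∧ ∃ x : R, (z : R) ^ q = 1 + θ ^ n * x := by
  rcases Nat.eq_zero_or_pos n with rfl | hn
  · exact ⟨z0, ⟨0, by ring⟩, (z0 : R) ^ q - 1, by ring⟩
  · induction n, hn using Nat.le_induction with
    | base => exact ⟨z0, ⟨0, by ring⟩, 1, by rw [h0]; ring⟩
    | succ n hn ih =>
      obtain ⟨z, ⟨v, hv⟩, x, hx⟩ := ih
      obtain ⟨m, rfl⟩ : ∃ m, n = m + 1 := ⟨n - 1, by omega⟩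
      obtain ⟨w, hw⟩ := hun (-(θ ^ m * x * qi))
      obtain ⟨r, hr⟩ := HI_binom (θ * (-(θ ^ m * x * qi))) q
      refine ⟨z * w, ⟨v + -(θ ^ m * x * qi) + θ * v * (-(θ ^ m * x * qi)), ?_⟩,
        θ ^ m * (-x ^ 2 + x ^ 2 * qi ^ 2 * r * (1 + θ ^ (m + 1) * x)), ?_⟩
      · rw [Units.val_mul, hv, hw]; ring
      · rw [Units.val_mul, mul_pow, hx, hw, hr]
        have e1 : θ ^ (m + 1) = θ * θ ^ m := by ring
        have e2 : θ ^ (m + 1 + 1) = θ * (θ * θ ^ m) := by ring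
        rw [e1, e2]
        generalize θ ^ m = T
        linear_combination (-(θ * T * x) * (1 + θ * T * x)) * hqi

end Pool.LibHC92
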