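import Mathlib

/-
HM (helper92): the compositum of two finite extensions.
-/

set_option autoImplicit false

noncomputable section

namespace Pool.LibHC92

universe u

open scoped TensorProduct

/-- two finite extensions of K embed in a finite extension -/
theorem compos {K L L0 : Type u} [Field K] [Field L] [Field L0] [Algebra K L] [Algebra K L0]
    [FiniteDimensional K L] [FiniteDimensional K L0] :
    ∃ (L' : Type u) (_ : Field L') (_ : Algebra K L') (_ : Algebra L L') (_ : Algebra L0 L')
      (_ : IsScalarTower K L L') (_ : IsScalarTower K L0 L'), FiniteDimensional K L' := by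
  obtain ⟨m, hm⟩ := Ideal.exists_maximal (L ⊗[K] L0)
  let F : Field ((L ⊗[K] L0) ⧸ m) := Ideal.Quotient.field m
  let f0 : L0 →ₐ[K] ((L ⊗[K] L0) ⧸ m) :=
    (Ideal.Quotient.mkₐ K m).comp Algebra.TensorProduct.includeRight
  let a0 : Algebra L0 ((L ⊗[K] L0) ⧸ m) := f0.toRingHom.toAlgebra
  have h0 : IsScalarTower K L0 ((L ⊗[K] L0) ⧸ m) :=
    IsScalarTower.of_algebraMap_eq fun x => (f0.commutes x).symm
  exact ⟨(L ⊗[K] L0) ⧸ m, F, inferInstance, inferInstance, a0, inferInstance, h0, inferInstance⟩

end Pool.LibHC92
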