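import Pool.Agent.LibHC92.HV
import Pool.Agent.LibHC92.HDef
import Pool.Agent.LibHB92.QD2
import Pool.Agent.LibHB92.QF

/-
PLAN (HN1, MEDIUM). hens_one: G = Gal(L/K) cyclic with generator σ of order q (QD1.lean / QD2.lean). ext_exists: A over O. Suppose A ≠ B two extensions (or the uniqueness fails). First: if A.comap σ = A then A is the only extension: transitivity is not available, so argue directly as follows. LibHB92.family1 for A, B gives an injective family V : Fin s → .. of extensions of O containing A = V i0 and B. crt2 V .. i0 (residue 2-version: use crt2 with b := 1 and other places)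
is not exactly what is needed; we want t ∈ Rv V with t ≡ 1 at i0 and t ≡ 0 at all other places: take x from crt2 with b := 0 at i0 and 1 elsewhere, t := 1 - x. Case 1: A.comap (σ^k) = A for some 0 < k < q: then for all k (q prime). Case 2: the A.comap (σ^k), 0 ≤ k < q, are pairwise different. Use the family of ALL the A.comap (σ^k) together with B: W := a Fin-indexed injective
enumeration of the finite set {A.comap (σ^k)} ∪ {B} (all over O, incomparable by LibNP88.incomp). Case 2: t ≡ 1 at A, t ≡ 0 at the other A.comap (σ^k). y := Σ_{k<q} ζ^(-k) σ^k t, σ y = ζ y, y ≡ 1 at A (σ^k t at A is t at A.comap (σ^k)), so y ≠ 0, y^q ∈ K, y^q ≡ 1 (val_lt), y^q = w^q with w ∈ K (hpow), y = ξ w with ξ^q = 1, ξ ∈ K (nthRoots; all q-th roots of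
unity of L are powers of algebraMap ζ), so σ y = y, ζ y = y: contradiction. Case 1: A.comap τ = A for all τ and B ≠ A: t ∈ L with A.valuation (t - 1) < 1 and B.valuation t < 1 (and ≤ 1 at the others); consider the norm n := Π_k σ^k t ∈ K: at A: every σ^k t ≡ 1 (A.comap σ^k = A), so n ≡ 1 at A, O.valuation (n - 1) < 1 (val_lt); at B: B.valuation (σ^k t) ≤ 1 for all k if the
family contains the B.comap (σ^k) (add them to the family), and B.valuation t < 1, so B.valuation n < 1, O.valuation n < 1: contradiction. hens_up: M'/M Galois of degree q, z ∈ M, one-units of B are q-th powers, B' the unique extension: the same for B': u one-unit of B': N(u) is a one-unit of B (ou_norm), N(u) = c^q with c ∈ M, root_norm: c ≡ 1, u / c has norm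
N(u) / c^q = 1, h90_units (QD1.lean): u / c * σ y = y with y one-unit. So on the group A0 := one-units of B' modulo q-th powers of one-units, c is trivial (c is a q-th power of a one-unit of B by hypothesis and root_norm) and D a := σ a / a is surjective; D^[q] = 1 (QB_nil in QB.lean: copy it), so A0 is trivial.
-/

set_option autoImplicit false

noncomputable section

namespace Pool.LibHC92

universe u

open Pool.LibNP88 Pool.LibHB92

private theorem HN1_lt {L : Type u} [Field L] (A : ValuationSubring L) (x : L) :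
    A.valuation x < 1 ↔ x = 0 ∨ x⁻¹ ∉ A := by
  by_cases hx : x = 0
  · simp [hx]
  · rw [← A.valuation_le_one_iff, map_inv₀]
    have h0 : 0 < A.valuation x := zero_lt_iff.2 ((Valuation.ne_zero_iff _).2 hx)
    constructor
    · intro h
      right
      rw [not_le]
      exact (one_lt_inv₀ h0).2 h
    · rintro (h | h)
      · exact absurd h hx
      · rw [not_le] at h
        exact (one_lt_inv₀ h0).1 h

private theorem HN1_comap {L M : Type u} [Field L] [Field M] (A : ValuationSubring M) (f : L →+* M)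
    (x : L) : (A.comap f).valuation x < 1 ↔ A.valuation (f x) < 1 := by
  rw [HN1_lt, HN1_lt, ValuationSubring.mem_comap, map_inv₀, map_eq_zero]

private theorem HN1_comap_le {L M : Type u} [Field L] [Field M] (A : ValuationSubring M) (f : L →+* M)
    (x : L) : (A.comap f).valuation x ≤ 1 ↔ A.valuation (f x) ≤ 1 := by
  rw [ValuationSubring.valuation_le_one_iff, ValuationSubring.valuation_le_one_iff, ValuationSubring.mem_comap]

private theorem HN1_one {L : Type u} [Field L] (A : ValuationSubring L) {x : L}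
    (hx : A.valuation (x - 1) < 1) : A.valuation x = 1 := by
  have h1 : A.valuation (1 + (x - 1)) = 1 := Valuation.map_one_add_of_lt _ hx
  rwa [add_sub_cancel] at h1

private theorem HN1_prod {L : Type u} [Field L] (A : ValuationSubring L) {ι : Type*}
    (s : Finset ι) (f : ι → L) (hf : ∀ i ∈ s, A.valuation (f i - 1) < 1) :
    A.valuation (∏ i ∈ s, f i - 1) < 1 := by
  classical
  induction s using Finset.induction_on with
  | empty => simp
  | insert a s ha ih =>
    rw [Finset.prod_insert ha]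
    have hx := hf a (Finset.mem_insert_self a s)
    have hy := ih fun i hi => hf i (Finset.mem_insert_of_mem hi)
    have h : f a * ∏ i ∈ s, f i - 1 = (f a - 1) * ∏ i ∈ s, f i + (∏ i ∈ s, f i - 1) := by ring
    rw [h]
    refine Valuation.map_add_lt _ ?_ hy
    rw [map_mul, HN1_one A hy, mul_one]
    exact hx

/-- an element congruent to 1 at A and to 0 at the other members of a finite family -/
private theorem HN1_sep {K L : Type u} [Field K] [Field L] [Algebra K L] [FiniteDimensional K L]
    (O : ValuationSubring K) (VV : Finset (ValuationSubring L))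
    (hVV : ∀ W ∈ VV, W.comap (algebraMap K L) = O) (A : ValuationSubring L) (hA : A ∈ VV) :
    ∃ t : L, A.valuation (t - 1) < 1 ∧ ∀ W ∈ VV, W ≠ A → W.valuation t < 1 := by
  classical
  let V : Fin VV.card → ValuationSubring L := fun i => (VV.equivFin.symm i).1
  have hVO : ∀ i, (V i).comap (algebraMap K L) = O := fun i => hVV _ (VV.equivFin.symm i).2
  have hV : ∀ i j, V i ≤ V j → i = j := by
    intro i j h
    have h1 : V i = V j := incomp O _ _ (hVO i) (hVO j) h
    exact VV.equivFin.symm.injective (Subtype.ext h1)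
  obtain ⟨x, hx0, hx1⟩ := crt2 V hV (VV.equivFin ⟨A, hA⟩) 0
  have hVA : V (VV.equivFin ⟨A, hA⟩) = A := by
    simp [V]
  refine ⟨1 - (x : L), ?_, ?_⟩
  · have h1 := (rv_zero V _ x).1 hx0
    rw [hVA] at h1
    have e : 1 - (x : L) - 1 = -(x : L) := by ring
    rw [e, Valuation.map_neg]
    exact h1
  · intro W hW hWA
    have hVW : V (VV.equivFin ⟨W, hW⟩) = W := by
      simp [V]
    have hne : VV.equivFin ⟨W, hW⟩ ≠ VV.equivFin ⟨A, hA⟩ := by
      intro h
      apply hWA
      have h1 := VV.equivFin.injective h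
      exact congrArg Subtype.val h1
    have h1 := hx1 _ hne
    have h2 : rv V (VV.equivFin ⟨W, hW⟩) (1 - x) = 0 := by
      rw [map_sub, map_one, h1, sub_self]
    have h3 := (rv_zero V _ (1 - x)).1 h2
    rw [hVW] at h3
    exact h3

private theorem HN1_comapO {K L : Type u} [Field K] [Field L] [Algebra K L] (O : ValuationSubring K)
    (A : ValuationSubring L) (hA : A.comap (algebraMap K L) = O) (τ : L ≃ₐ[K] L) :
    (A.comap (τ : L →+* L)).comap (algebraMap K L) = O := by
  rw [← hA]
  ext z
  rw [ValuationSubring.mem_comap, ValuationSubring.mem_comap, ValuationSubring.mem_comap]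
  have h1 : (τ : L →+* L) (algebraMap K L z) = algebraMap K L z := τ.commutes z
  rw [h1]

/-- case 1: A is invariant -/
private theorem HN1_inv {K L : Type u} [Field K] [Field L] [Algebra K L] [FiniteDimensional K L]
    [IsGalois K L] (O : ValuationSubring K) (A B : ValuationSubring L)
    (hA : A.comap (algebraMap K L) = O) (hB : B.comap (algebraMap K L) = O)
    (hinv : ∀ τ : L ≃ₐ[K] L, A.comap (τ : L →+* L) = A) : B = A := by
  classical
  by_contra hne
  let VV : Finset (ValuationSubring L) :=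
    {A} ∪ Finset.univ.image fun τ : L ≃ₐ[K] L => B.comap (τ : L →+* L)
  have hAV : A ∈ VV := Finset.mem_union_left _ (Finset.mem_singleton_self _)
  have hBV : ∀ τ : L ≃ₐ[K] L, B.comap (τ : L →+* L) ∈ VV := fun τ =>
    Finset.mem_union_right _ (Finset.mem_image.2 ⟨τ, Finset.mem_univ _, rfl⟩)
  have hVV : ∀ W ∈ VV, W.comap (algebraMap K L) = O := by
    intro W hW
    rcases Finset.mem_union.1 hW with h | h
    · rw [Finset.mem_singleton.1 h]
      exact hA
    · obtain ⟨τ, _, rfl⟩ := Finset.mem_image.1 h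
      exact HN1_comapO O B hB τ
  obtain ⟨t, ht1, ht2⟩ := HN1_sep O VV hVV A hAV
  have hle : ∀ W ∈ VV, W.valuation t ≤ 1 := by
    intro W hW
    by_cases h : W = A
    · rw [h, HN1_one A ht1]
    · exact (ht2 W hW h).le
  have hn := Algebra.norm_eq_prod_automorphisms (K := K) (L := L) t
  have h1 : A.valuation (algebraMap K L (Algebra.norm K t) - 1) < 1 := by
    rw [hn]
    refine HN1_prod A _ _ fun τ _ => ?_
    have h2 : (A.comap (τ : L →+* L)).valuation (t - 1) < 1 := by
      rw [hinv τ]
      exact ht1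
    have h3 := (HN1_comap A (τ : L →+* L) (t - 1)).1 h2
    have h4 : (τ : L →+* L) (t - 1) = τ t - 1 := by
      change τ (t - 1) = τ t - 1
      rw [map_sub, map_one]
    rwa [h4] at h3
  have hB1 : B.comap ((AlgEquiv.refl : L ≃ₐ[K] L) : L →+* L) = B := by
    ext z
    rw [ValuationSubring.mem_comap]
    rfl
  have h5 : B.valuation (algebraMap K L (Algebra.norm K t)) < 1 := by
    rw [hn, map_prod, ← Finset.mul_prod_erase Finset.univ _ (Finset.mem_univ (AlgEquiv.refl : L ≃ₐ[K] L))]
    have h6 : B.valuation ((AlgEquiv.refl : L ≃ₐ[K] L) t) < 1 := by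
      have h7 := ht2 (B.comap ((AlgEquiv.refl : L ≃ₐ[K] L) : L →+* L)) (hBV _) (by rw [hB1]; exact hne)
      rw [hB1] at h7
      exact h7
    have h8 : ∏ x ∈ Finset.univ.erase (AlgEquiv.refl : L ≃ₐ[K] L), B.valuation (x t) ≤ 1 := by
      refine Finset.prod_le_one' fun τ _ => ?_
      exact (HN1_comap_le B (τ : L →+* L) t).1 (hle _ (hBV τ))
    exact lt_of_le_of_lt (mul_le_of_le_one_right' h8) h6
  have h6 : O.valuation (Algebra.norm K t - 1) < 1 := by
    refine (val_lt O A hA _).1 ?_
    rw [map_sub, map_one]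
    exact h1
  have h7 : O.valuation (Algebra.norm K t) < 1 := (val_lt O B hB _).1 h5
  rw [HN1_one O h6] at h7
  exact lt_irrefl _ h7

/-- case 2: the conjugates of A are different -/
private theorem HN1_free {K L : Type u} [Field K] [Field L] [Algebra K L] [FiniteDimensional K L]
    [IsGalois K L] (O : ValuationSubring K) {q : ℕ} (hq : q.Prime) (ζ : K)
    (hζ : IsPrimitiveRoot ζ q)
    (hpow : ∀ u : K, O.valuation (u - 1) < 1 → ∃ w : K, w ^ q = u) (A : ValuationSubring L)
    (hA : A.comap (algebraMap K L) = O) (σ : L ≃ₐ[K] L) (hσ : ∀ τ : L ≃ₐ[K] L, τ ∈ Subgroup.zpowers σ)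
    (ho : orderOf σ = q) (hfree : ∀ τ : L ≃ₐ[K] L, τ ≠ 1 → A.comap (τ : L →+* L) ≠ A) : False := by
  classical
  let VV : Finset (ValuationSubring L) :=
    {A} ∪ Finset.univ.image fun τ : L ≃ₐ[K] L => A.comap (τ : L →+* L)
  have hAV : A ∈ VV := Finset.mem_union_left _ (Finset.mem_singleton_self _)
  have hBV : ∀ τ : L ≃ₐ[K] L, A.comap (τ : L →+* L) ∈ VV := fun τ =>
    Finset.mem_union_right _ (Finset.mem_image.2 ⟨τ, Finset.mem_univ _, rfl⟩)
  have hVV : ∀ W ∈ VV, W.comap (algebraMap K L) = O := by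
    intro W hW
    rcases Finset.mem_union.1 hW with h | h
    · rw [Finset.mem_singleton.1 h]
      exact hA
    · obtain ⟨τ, _, rfl⟩ := Finset.mem_image.1 h
      exact HN1_comapO O A hA τ
  obtain ⟨t, ht1, ht2⟩ := HN1_sep O VV hVV A hAV
  have hζ' : IsPrimitiveRoot (algebraMap K L ζ) q := hζ.map_of_injective (algebraMap K L).injective
  have hζ0 : algebraMap K L ζ ≠ 0 := hζ'.ne_zero hq.ne_zero
  have hζv : A.valuation (algebraMap K L ζ) = 1 := by
    have h6 : A.valuation (algebraMap K L ζ) ^ q = 1 := by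
      rw [← map_pow, hζ'.pow_eq_one, map_one]
    exact (pow_eq_one_iff_of_nonneg zero_le hq.ne_zero).1 h6
  set f : ℕ → L := fun k => (algebraMap K L ζ)⁻¹ ^ k * (σ ^ k) t with hf
  set y : L := ∑ k ∈ Finset.range q, f k with hy
  have hf0 : f 0 = t := by simp [hf]
  have hσq : σ ^ q = 1 := by
    rw [← ho]
    exact pow_orderOf_eq_one σ
  have hfq : f q = t := by
    simp only [hf]
    rw [hσq, inv_pow, hζ'.pow_eq_one, inv_one, one_mul]
    rfl
  have hstep : ∀ k, σ (f k) = algebraMap K L ζ * f (k + 1) := by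
    intro k
    simp only [hf]
    rw [map_mul, map_pow, map_inv₀, σ.commutes, pow_succ' σ k, AlgEquiv.mul_apply, pow_succ (algebraMap K L ζ)⁻¹ k]
    field_simp
  have hσy : σ y = algebraMap K L ζ * y := by
    rw [hy, map_sum, Finset.sum_congr rfl fun k _ => hstep k, ← Finset.mul_sum]
    congr 1
    have h3 := Finset.sum_range_succ f q
    have h4 := Finset.sum_range_succ' f q
    rw [h3, hfq, hf0] at h4
    exact (add_right_cancel h4).symm
  -- y is congruent to 1 at A
  have hy1 : A.valuation (y - 1) < 1 := by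
    obtain ⟨m, hm⟩ : ∃ m, q = m + 1 := ⟨q - 1, (Nat.succ_pred_eq_of_pos hq.pos).symm⟩
    have h1 : y - 1 = ∑ k ∈ Finset.range m, f (k + 1) + (t - 1) := by
      rw [hy, hm, Finset.sum_range_succ', hf0]
      ring
    rw [h1]
    refine Valuation.map_add_lt _ ?_ ht1
    refine Valuation.map_sum_lt _ one_ne_zero fun k hk => ?_
    have hk' : k < m := Finset.mem_range.1 hk
    have hne : σ ^ (k + 1) ≠ 1 := by
      refine pow_ne_one_of_lt_orderOf (Nat.succ_ne_zero k) ?_
      rw [ho, hm]
      omega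
    have h2 : (A.comap ((σ ^ (k + 1) : L ≃ₐ[K] L) : L →+* L)).valuation t < 1 :=
      ht2 _ (hBV _) (hfree _ hne)
    have h3 := (HN1_comap A ((σ ^ (k + 1) : L ≃ₐ[K] L) : L →+* L) t).1 h2
    have h4 : A.valuation (f (k + 1)) = A.valuation ((σ ^ (k + 1) : L ≃ₐ[K] L) t) := by
      simp only [hf]
      rw [map_mul, map_pow, map_inv₀, hζv, inv_one, one_pow, one_mul]
    rw [h4]
    exact h3
  have hyv := HN1_one A hy1
  have hy0 : y ≠ 0 := by
    intro h0
    rw [h0, map_zero] at hyv
    exact zero_ne_one hyv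
  -- fixed elements come from K
  have hfix : ∀ x : L, σ x = x → ∃ v : K, algebraMap K L v = x := by
    intro x hx
    have h1 : x ∈ (⊥ : IntermediateField K L) := by
      rw [IsGalois.mem_bot_iff_fixed]
      intro τ
      have h2 : σ ∈ MulAction.stabilizer (L ≃ₐ[K] L) x := hx
      have h3 : Subgroup.zpowers σ ≤ MulAction.stabilizer (L ≃ₐ[K] L) x := by
        rw [Subgroup.zpowers_le]
        exact h2
      exact h3 (hσ τ)
    exact IntermediateField.mem_bot.1 h1
  obtain ⟨v, hv⟩ := hfix (y ^ q) (by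
    rw [map_pow, hσy, mul_pow, hζ'.pow_eq_one, one_mul])
  have hv1 : O.valuation (v - 1) < 1 := by
    refine (val_lt O A hA _).1 ?_
    rw [map_sub, map_one, hv]
    have h1 : y ^ q - 1 = ∏ _i ∈ Finset.range q, y - 1 := by
      rw [Finset.prod_const, Finset.card_range]
    rw [h1]
    exact HN1_prod A _ _ fun _ _ => hy1
  obtain ⟨w, hw⟩ := hpow v hv1
  have hw0 : algebraMap K L w ≠ 0 := by
    intro h0
    have h1 : y ^ q = 0 := by
      rw [← hv, ← hw, map_pow, h0, zero_pow hq.ne_zero]
    exact hy0 (pow_eq_zero_iff hq.ne_zero |>.1 h1)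
  have hyw : (y / algebraMap K L w) ^ q = 1 := by
    rw [div_pow, ← map_pow, hw, hv, div_self (pow_ne_zero q hy0)]
  have hne : NeZero q := ⟨hq.ne_zero⟩
  obtain ⟨i, _, hi⟩ := hζ'.eq_pow_of_pow_eq_one hyw
  have hyK : y = algebraMap K L (ζ ^ i * w) := by
    rw [map_mul, map_pow, hi, div_mul_cancel₀ _ hw0]
  have h1 : σ y = y := by
    rw [hyK]
    exact σ.commutes _
  rw [hσy] at h1
  have h2 : algebraMap K L ζ = 1 := by
    have h3 : (algebraMap K L ζ - 1) * y = 0 := by
      rw [sub_mul, h1, one_mul, sub_self]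
    exact sub_eq_zero.1 ((mul_eq_zero.1 h3).resolve_right hy0)
  exact hζ'.ne_one hq.one_lt h2

/-- if all one-units are q-th powers, O has exactly one extension to every Galois extension of degree q -/
theorem hens_one {K L : Type u} [Field K] [Field L] [Algebra K L] [FiniteDimensional K L]
    [IsGalois K L] (O : ValuationSubring K) {q : ℕ} (hq : q.Prime) (ζ : K)
    (hζ : IsPrimitiveRoot ζ q) (hd : Module.finrank K L = q)
    (hpow : ∀ u : K, O.valuation (u - 1) < 1 → ∃ w : K, w ^ q = u) :
    ∃! A : ValuationSubring L, A.comap (algebraMap K L) = O := by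
  classical
  have hcard : Nat.card (L ≃ₐ[K] L) = q := by rw [IsGalois.card_aut_eq_finrank, hd]
  have : Fact q.Prime := ⟨hq⟩
  have hcyc : IsCyclic (L ≃ₐ[K] L) := isCyclic_of_prime_card hcard
  obtain ⟨σ, hσ⟩ := hcyc.exists_generator
  have ho : orderOf σ = q := by
    rw [orderOf_eq_card_of_forall_mem_zpowers hσ, hcard]
  obtain ⟨A, hA⟩ := ext_exists O L
  refine ⟨A, hA, fun B hB => ?_⟩
  let S : Subgroup (L ≃ₐ[K] L) := {
    carrier := {τ | ∀ x : L, τ x ∈ A ↔ x ∈ A}
    one_mem' := fun x => Iff.rfl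
    mul_mem' := fun {a b} ha hb x => (ha (b x)).trans (hb x)
    inv_mem' := fun {a} ha x => by
      have h1 := ha (a⁻¹ x)
      have h2 : a (a⁻¹ x) = x := by
        rw [← AlgEquiv.mul_apply, mul_inv_cancel]
        rfl
      rw [h2] at h1
      exact h1.symm }
  have hSA : ∀ τ : L ≃ₐ[K] L, τ ∈ S ↔ A.comap (τ : L →+* L) = A := by
    intro τ
    constructor
    · intro h
      ext x
      rw [ValuationSubring.mem_comap]
      exact h x
    · intro h x
      have h1 : x ∈ A.comap (τ : L →+* L) ↔ x ∈ A := by rw [h]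
      rw [ValuationSubring.mem_comap] at h1
      exact h1
  have hfp : Fact (Nat.card (L ≃ₐ[K] L)).Prime := ⟨by rw [hcard]; exact hq⟩
  rcases S.eq_bot_or_eq_top_of_prime_card with h | h
  · exfalso
    refine HN1_free O hq ζ hζ hpow A hA σ hσ ho fun τ hτ h1 => hτ ?_
    have h2 := (hSA τ).2 h1
    rw [h, Subgroup.mem_bot] at h2
    exact h2
  · refine HN1_inv O A B hA hB fun τ => (hSA τ).1 ?_
    rw [h]
    exact Subgroup.mem_top τ

private theorem HN1_nil {A : Type u} [CommGroup A] {q : ℕ} (hq : q.Prime) (hA : ∀ a : A, a ^ q = 1)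
    (σ : A →* A) (hσ : ∀ a, σ^[q] a = a) (D : A →* A) (hD : ∀ a, D a = σ a / a) (a : A) :
    D^[q] a = 1 := by
  rcases subsingleton_or_nontrivial A with hs | hn
  · exact Subsingleton.elim _ _
  · let E := AddMonoid.End (Additive A)
    have hE : Nontrivial E := by
      obtain ⟨b, hb⟩ := exists_ne (1 : A)
      refine ⟨⟨1, 0, ?_⟩⟩
      intro h
      have h1 := DFunLike.congr_fun h (Additive.ofMul b)
      exact hb h1
    have hcast : ((q : ℕ) : E) = 0 := by
      apply DFunLike.ext
      intro x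
      have h1 : ((q : ℕ) : E) x = q • x := AddMonoid.End.natCast_apply q x
      rw [h1]
      exact hA (Additive.toMul x)
    have : Fact q.Prime := ⟨hq⟩
    have : CharP E q := (CharP.charP_iff_prime_eq_zero hq).2 hcast
    let s : E := MonoidHom.toAdditive σ
    let d : E := MonoidHom.toAdditive D
    have hd : d = s - 1 := by
      apply DFunLike.ext
      intro x
      exact hD (Additive.toMul x)
    have hs : s ^ q = 1 := by
      apply DFunLike.ext
      intro x
      rw [AddMonoid.End.coe_pow]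
      exact hσ (Additive.toMul x)
    have h1 : d ^ q = 0 := by
      rw [hd, sub_pow_char_of_commute _ (Commute.one_right s), hs, one_pow, sub_self]
    have h2 := DFunLike.congr_fun h1 (Additive.ofMul a)
    rw [AddMonoid.End.coe_pow] at h2
    exact h2

private theorem HN1_core {G A : Type u} [CommGroup G] [CommGroup A] {q : ℕ} (hq : q.Prime)
    (s : G →* G) (hsq : ∀ x, s^[q] x = x) (π : G →* A) (hπ : Function.Surjective π)
    (hk : ∀ x, π x = 1 ↔ ∃ y, y ^ q = x) (hsur : ∀ x : G, ∃ y p : G, x = p ^ q * (s y / y)) (x : G) :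
    ∃ y, y ^ q = x := by
  have hs : π.ker ≤ (π.comp s).ker := by
    intro x hx
    rw [MonoidHom.mem_ker] at hx ⊢
    obtain ⟨y, rfl⟩ := (hk x).1 hx
    rw [MonoidHom.comp_apply, map_pow]
    exact (hk _).2 ⟨s y, rfl⟩
  let sA : A →* A := π.liftOfSurjective hπ ⟨π.comp s, hs⟩
  have hsA : ∀ x : G, sA (π x) = π (s x) := fun x =>
    MonoidHom.liftOfRightInverse_comp_apply π _ _ ⟨π.comp s, hs⟩ x
  have hA : ∀ a : A, a ^ q = 1 := by
    intro a
    obtain ⟨x, rfl⟩ := hπ a
    rw [← map_pow]
    exact (hk _).2 ⟨x, rfl⟩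
  have hitA : ∀ (n : ℕ) (x : G), sA^[n] (π x) = π (s^[n] x) := by
    intro n
    induction n with
    | zero => intro x; rfl
    | succ n ih =>
      intro x
      rw [Function.iterate_succ_apply', ih, Function.iterate_succ_apply', hsA]
  have hσA : ∀ a, sA^[q] a = a := by
    intro a
    obtain ⟨x, rfl⟩ := hπ a
    rw [hitA, hsq]
  let D : A →* A := sA / MonoidHom.id A
  have hD : ∀ a, D a = sA a / a := fun a => rfl
  have hDs : Function.Surjective D := by
    intro a
    obtain ⟨x, rfl⟩ := hπ a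
    obtain ⟨y, p, hyp⟩ := hsur x
    refine ⟨π y, ?_⟩
    rw [hD, hsA, ← map_div]
    conv_rhs => rw [hyp, map_mul, map_pow, hA, one_mul]
  obtain ⟨b, hb⟩ := hDs.iterate q (π x)
  have h1 := HN1_nil hq hA sA hσA D hD b
  rw [hb] at h1
  exact (hk x).1 h1

/-- the hypothesis goes up -/
theorem hens_up {M M' : Type u} [Field M] [Field M'] [Algebra M M'] [FiniteDimensional M M']
    [IsGalois M M'] {q : ℕ} (hq : q.Prime) (hd : Module.finrank M M' = q)
    (B : ValuationSubring M) (hqv : B.valuation (q : M) = 1) (z : M) (hz : IsPrimitiveRoot z q)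
    (hpow : ∀ u : M, B.valuation (u - 1) < 1 → ∃ w : M, w ^ q = u)
    (B' : ValuationSubring M') (hB' : B'.comap (algebraMap M M') = B)
    (huniq : ∀ A : ValuationSubring M', A.comap (algebraMap M M') = B → A = B') :
    ∀ u : M', B'.valuation (u - 1) < 1 → ∃ w : M', w ^ q = u := by
  classical
  have hcard : Nat.card (M' ≃ₐ[M] M') = q := by rw [IsGalois.card_aut_eq_finrank, hd]
  have : Fact q.Prime := ⟨hq⟩
  have hcyc : IsCyclic (M' ≃ₐ[M] M') := isCyclic_of_prime_card hcard
  obtain ⟨σ, hσ⟩ := hcyc.exists_generator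
  have hσq : σ ^ q = 1 := by
    rw [← hcard]
    exact pow_card_eq_one'
  let H' : Subgroup M'ˣ := {
    carrier := {u | OU B (u : M')}
    one_mem' := ou_one
    mul_mem' := fun {a b} ha hb => by
      show OU B (((a * b : M'ˣ)) : M')
      rw [Units.val_mul]
      exact ou_mul ha hb
    inv_mem' := fun {a} ha => by
      show OU B (((a⁻¹ : M'ˣ)) : M')
      rw [Units.val_inv_eq_inv_val]
      exact ou_inv ha }
  let s : H' →* H' := {
    toFun := fun u => ⟨Units.map (σ : M' →* M') u, ou_sig σ u.2⟩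
    map_one' := by
      apply Subtype.ext
      exact map_one _
    map_mul' := fun a b => by
      apply Subtype.ext
      exact map_mul _ _ _ }
  have hsit : ∀ (n : ℕ) (x : H'), (((s^[n] x : H') : M'ˣ) : M') = (σ ^ n) ((x : M'ˣ) : M') := by
    intro n
    induction n with
    | zero => intro x; simp
    | succ n ih =>
      intro x
      rw [Function.iterate_succ_apply', pow_succ']
      show σ (((s^[n] x : H') : M'ˣ) : M') = σ ((σ ^ n) ((x : M'ˣ) : M'))
      rw [ih]
  have hsq : ∀ x, s^[q] x = x := by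
    intro x
    apply Subtype.ext
    apply Units.ext
    rw [hsit, hσq]
    rfl
  have hsur : ∀ x : H', ∃ y p : H', x = p ^ q * (s y / y) := by
    intro x
    have hx : OU B ((x : M'ˣ) : M') := x.2
    have hN := ou_norm hx
    obtain ⟨c0, hc0⟩ := hpow _ hN
    obtain ⟨c, hc1, hc2⟩ := root_norm B hq z hz c0 (by rw [hc0]; exact hN)
    have hcN : c ^ q = Algebra.norm M ((x : M'ˣ) : M') := hc2.trans hc0
    obtain ⟨d0, hd0⟩ := hpow c hc1
    obtain ⟨d, hd1, hd2⟩ := root_norm B hq z hz d0 (by rw [hd0]; exact hc1)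
    have hdc : d ^ q = c := hd2.trans hd0
    have hcO : OU B (algebraMap M M' c) := ou_base.2 hc1
    have hdO : OU B (algebraMap M M' d) := ou_base.2 hd1
    have hx' : OU B (((x : M'ˣ) : M') * (algebraMap M M' c)⁻¹) := ou_mul hx (ou_inv hcO)
    have hc0' : c ≠ 0 := by
      intro h0
      have h1 := ou_ne hcO
      rw [h0, map_zero] at h1
      exact h1 rfl
    have hN' : Algebra.norm M (((x : M'ˣ) : M') * (algebraMap M M' c)⁻¹) = 1 := by
      rw [map_mul, ← map_inv₀, Algebra.norm_algebraMap, hd, ← hcN, inv_pow, mul_inv_cancel₀ (pow_ne_zero q hc0')]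
    obtain ⟨y, hy, hy2⟩ := h90_units hq hd hqv σ hσ hx' hN'
    have hy0 := ou_ne hy
    have hσy : OU B (σ y) := ou_sig σ hy
    have hσy0 := ou_ne hσy
    refine ⟨⟨(Units.mk0 y hy0)⁻¹, ?_⟩, ⟨Units.mk0 (algebraMap M M' d) (ou_ne hdO), hdO⟩, ?_⟩
    · show OU B ((((Units.mk0 y hy0)⁻¹ : M'ˣ)) : M')
      rw [Units.val_inv_eq_inv_val]
      exact ou_inv hy
    · apply Subtype.ext
      apply Units.ext
      show ((x : M'ˣ) : M') = (algebraMap M M' d) ^ q *
        (σ (((Units.mk0 y hy0)⁻¹ : M'ˣ) : M') * (((((Units.mk0 y hy0)⁻¹ : M'ˣ))⁻¹ : M'ˣ) : M'))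
      rw [inv_inv, Units.val_inv_eq_inv_val, Units.val_mk0, map_inv₀, ← map_pow, hdc]
      have h1 : ((x : M'ˣ) : M') * (algebraMap M M' c)⁻¹ = y * (σ y)⁻¹ := by
        rw [eq_mul_inv_iff_mul_eq₀ hσy0]
        exact hy2
      rw [mul_comm (σ y)⁻¹ y, ← h1, mul_comm, mul_assoc, inv_mul_cancel₀ (ou_ne hcO), mul_one]
  intro u hu
  have hu' : OU B u := fun A hA => by
    rw [huniq A hA]
    exact hu
  have hex : ∃ y : H', y ^ q = (⟨Units.mk0 u (ou_ne hu'), hu'⟩ : H') := by
    refine HN1_core (A := H' ⧸ (powMonoidHom q : H' →* H').range) hq s hsq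
      (QuotientGroup.mk' (powMonoidHom q : H' →* H').range)
      (QuotientGroup.mk'_surjective _) (fun x => ?_) hsur _
    exact (QuotientGroup.eq_one_iff x).trans ⟨fun ⟨y, hy⟩ => ⟨y, hy⟩, fun ⟨y, hy⟩ => ⟨y, hy⟩⟩
  obtain ⟨y, hy⟩ := hex
  refine ⟨((y : M'ˣ) : M'), ?_⟩
  have h1 := congrArg (fun v : H' => ((v : M'ˣ) : M')) hy
  exact h1

end Pool.LibHC92
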