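import Pool.Agent.LibHC92.HN1
import Pool.Agent.LibHB92.QE

/-
PLAN (HN2, SHORT/MEDIUM). Same induction as q_tower' in LibHB92/QE.lean (copy it), with the induction statement: for all Galois L of degree q^n there is B over O, unique, and every u ∈ L with B.valuation (u - 1) < 1 is a q-th power. n = 0: algebraMap is bijective. n + 1: M as in QE.lean, B on M from the induction hypothesis; hens_one for L/M (primitive root algebraMap ζ in M) gives uniqueness over B,
hens_up the power statement; A over O iff A over B (hover in QE.lean).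
-/

set_option autoImplicit false

noncomputable section

namespace Pool.LibHC92

universe u

open Pool.LibNP88 Pool.LibHB92

private theorem HN2_tower {K : Type u} [Field K] (O : ValuationSubring K) {q : ℕ} (hq : q.Prime)
    (hqv : O.valuation (q : K) = 1) (ζ : K) (hζ : IsPrimitiveRoot ζ q)
    (hpow : ∀ u : K, O.valuation (u - 1) < 1 → ∃ w : K, w ^ q = u) (n : ℕ) :
    ∀ (L : Type u) [Field L] [Algebra K L] [FiniteDimensional K L] [IsGalois K L],
      Module.finrank K L = q ^ n →
      (∃! A : ValuationSubring L, A.comap (algebraMap K L) = O) ∧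
      ∀ A : ValuationSubring L, A.comap (algebraMap K L) = O →
        ∀ u : L, A.valuation (u - 1) < 1 → ∃ w : L, w ^ q = u := by
  haveI : Fact q.Prime := ⟨hq⟩
  induction n with
  | zero =>
    intro L _ _ _ _ hd
    rw [pow_zero] at hd
    have hb := Module.Free.bijective_algebraMap_of_finrank_eq_one hd
    constructor
    · obtain ⟨A, hAO⟩ := ext_exists O L
      refine ⟨A, hAO, ?_⟩
      intro A' hA'
      have hA'2 : A'.comap (algebraMap K L) = O := hA'
      ext y
      obtain ⟨x, rfl⟩ := hb.2 y
      rw [← ValuationSubring.mem_comap, ← ValuationSubring.mem_comap, hA'2, hAO]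
    · intro A hA u hu
      obtain ⟨x, rfl⟩ := hb.2 u
      have h2 : algebraMap K L x - 1 = algebraMap K L (x - 1) := by
        rw [map_sub, map_one]
      rw [h2] at hu
      obtain ⟨w, hw⟩ := hpow x ((val_lt O A hA _).1 hu)
      refine ⟨algebraMap K L w, ?_⟩
      rw [← map_pow, hw]
  | succ n ih =>
    intro L _ _ _ _ hd
    have hcard : Nat.card (L ≃ₐ[K] L) = q ^ (n + 1) := by
      rw [IsGalois.card_aut_eq_finrank, hd]
    have hp : IsPGroup q (L ≃ₐ[K] L) := IsPGroup.of_card hcard
    haveI : Nontrivial (L ≃ₐ[K] L) := by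
      rw [← Finite.one_lt_card_iff_nontrivial, hcard]
      exact Nat.one_lt_pow (Nat.succ_ne_zero n) hq.one_lt
    have hc := hp.center_nontrivial
    have hcp : IsPGroup q (Subgroup.center (L ≃ₐ[K] L)) := hp.to_subgroup _
    obtain ⟨k, hk, hkc⟩ := hcp.nontrivial_iff_card.1 hc
    have hdvd : q ∣ Nat.card (Subgroup.center (L ≃ₐ[K] L)) := by
      rw [hkc]
      exact dvd_pow_self q hk.ne'
    obtain ⟨g, hg⟩ := exists_prime_orderOf_dvd_card' q hdvd
    obtain ⟨H, hH⟩ : ∃ H, H = Subgroup.zpowers (g : L ≃ₐ[K] L) := ⟨_, rfl⟩
    have hHcard : Nat.card H = q := by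
      rw [hH, Nat.card_zpowers, Subgroup.orderOf_coe, hg]
    have hHle : H ≤ Subgroup.center (L ≃ₐ[K] L) := by
      rw [hH, Subgroup.zpowers_le]
      exact g.2
    haveI hN : H.Normal := ⟨fun x hx y => by
      have h1 := Subgroup.mem_center_iff.1 (hHle hx) y
      rw [h1, mul_inv_cancel_right]
      exact hx⟩
    have h2 : Module.finrank (IntermediateField.fixedField H) L = q := by
      rw [IntermediateField.finrank_fixedField_eq_card, hHcard]
    have h3 : Module.finrank K (IntermediateField.fixedField H) = q ^ n := by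
      have h4 := Module.finrank_mul_finrank K (IntermediateField.fixedField H) L
      rw [h2, hd, pow_succ] at h4
      exact Nat.eq_of_mul_eq_mul_right hq.pos h4
    obtain ⟨⟨B, hB, hBu⟩, hBp⟩ := ih (IntermediateField.fixedField H) h3
    have hB' : B.comap (algebraMap K (IntermediateField.fixedField H)) = O := hB
    have hBp' := hBp B hB'
    have hover : ∀ A : ValuationSubring L,
        A.comap (algebraMap K L) = O ↔ A.comap (algebraMap (IntermediateField.fixedField H) L) = B := by
      intro A
      have h5 : (A.comap (algebraMap (IntermediateField.fixedField H) L)).comap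
          (algebraMap K (IntermediateField.fixedField H)) = A.comap (algebraMap K L) := by
        rw [ValuationSubring.comap_comap, ← IsScalarTower.algebraMap_eq]
      constructor
      · intro h6
        exact hBu _ (h5.trans h6)
      · intro h6
        rw [← h5, h6, hB']
    have hqv' : B.valuation (q : IntermediateField.fixedField H) = 1 := by
      have h5 := (val_one O B hB' (q : K)).2 hqv
      rwa [map_natCast] at h5
    have hz' : IsPrimitiveRoot (algebraMap K (IntermediateField.fixedField H) ζ) q :=
      hζ.map_of_injective (algebraMap K (IntermediateField.fixedField H)).injective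
    obtain ⟨A, hA, hAu⟩ := hens_one (L := L) B hq _ hz' h2 hBp'
    have hA' : A.comap (algebraMap (IntermediateField.fixedField H) L) = B := hA
    refine ⟨⟨A, (hover A).2 hA', fun A₁ hA₁ => hAu A₁ ((hover A₁).1 hA₁)⟩, ?_⟩
    intro A₁ hA₁
    have h7 : A₁ = A := hAu A₁ ((hover A₁).1 hA₁)
    rw [h7]
    exact hens_up hq h2 B hqv' _ hz' hBp' A hA' (fun A₂ hA₂ => hAu A₂ hA₂)

/-- if all one-units are q-th powers, O is q-henselian -/
theorem hens_tower {K : Type u} [Field K] (O : ValuationSubring K) {q : ℕ} (hq : q.Prime)
    (hqv : O.valuation (q : K) = 1) (ζ : K) (hζ : IsPrimitiveRoot ζ q)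
    (hpow : ∀ u : K, O.valuation (u - 1) < 1 → ∃ w : K, w ^ q = u) (n : ℕ)
    (L : Type u) [Field L] [Algebra K L] [FiniteDimensional K L] [IsGalois K L]
    (hd : Module.finrank K L = q ^ n) : ∃! A : ValuationSubring L, A.comap (algebraMap K L) = O :=
  (HN2_tower O hq hqv ζ hζ hpow n L hd).1

end Pool.LibHC92
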