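import Mathlib

/-
PLAN (HO, SHORT/MEDIUM, ONLY MATHLIB). P is closed under addition: O.valuation (d + e) ≤ max, so hc; P as an ideal of O: I := {x : O | (x : K) ∈ P} (closed under multiplication by O: hc). Prime: 1 ∉ P by hm; x y ∈ P, say O.valuation x ≤ O.valuation y (x, y : O; if O.valuation x = 1 then both have valuation 1 and the product has valuation 1, not in P): O.valuation (x^2) ≤ O.valuation (x y), so x^2 ∈ P
by hc and x ∈ P by hs (O.valuation x < 1 since otherwise O.valuation y = 1 too). O' := O.ofPrime I (Mathlib: ValuationSubring.ofPrime, le_ofPrime); its maximal ideal is I: for d : K, O'.valuation d < 1 iff d = 0 or d⁻¹ ∉ O' ; use ValuationSubring.idealOfLE_ofPrime or the direct definition. Alternative without ofPrime: O' := {x : K | ∀ d ∈ P, x d ∈ P} is a subring containing O (hc),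
a valuation ring because it contains the valuation ring O (ValuationSubring.ofLE O S h); O'.valuation d < 1 iff d = 0 or d⁻¹ ∉ O': if d ∈ P, d ≠ 0, then d⁻¹ ∉ O' (d⁻¹ d = 1 ∉ P); if d ∉ P, then d⁻¹ ∈ O': for e ∈ P we need d⁻¹ e ∈ P: O.valuation e < O.valuation d (otherwise d ∈ P by hc); if O.valuation d ≥ 1 use hc. Else f := d⁻¹ e has O.valuation f < 1, and if
O.valuation f ≥ O.valuation d.. in every case f or d: f d = e ∈ P, so (the smaller one)^2 ∈ P, so the smaller one is in P; it is not d; so f ∈ P (if f is the larger one, the smaller one d would be in P, contradiction).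
-/

set_option autoImplicit false

noncomputable section

namespace Pool.LibHC92

universe u

/-- the coarsening whose maximal ideal is P -/
theorem coarsen {K : Type u} [Field K] (O : ValuationSubring K) (P : Set K) (h0 : (0 : K) ∈ P)
    (hm : ∀ d ∈ P, O.valuation d < 1)
    (hc : ∀ d ∈ P, ∀ e : K, O.valuation e ≤ O.valuation d → e ∈ P)
    (hs : ∀ d : K, O.valuation d < 1 → d ^ 2 ∈ P → d ∈ P) :
    ∃ O' : ValuationSubring K, O ≤ O' ∧ ∀ d : K, O'.valuation d < 1 ↔ d ∈ P := by
  have hadd : ∀ a ∈ P, ∀ b ∈ P, a + b ∈ P := by
    intro a ha b hb
    have h1 : O.valuation (a + b) ≤ max (O.valuation a) (O.valuation b) := O.valuation.map_add a b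
    rcases le_total (O.valuation a) (O.valuation b) with h2 | h2
    · rw [max_eq_right h2] at h1
      exact hc b hb _ h1
    · rw [max_eq_left h2] at h1
      exact hc a ha _ h1
  let S : Subring K :=
    { carrier := {x : K | ∀ d ∈ P, x * d ∈ P}
      mul_mem' := by
        intro a b ha hb d hd
        rw [mul_assoc]
        exact ha _ (hb d hd)
      one_mem' := by
        intro d hd
        rw [one_mul]
        exact hd
      add_mem' := by
        intro a b ha hb d hd
        rw [add_mul]
        exact hadd _ (ha d hd) _ (hb d hd)
      zero_mem' := by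
        intro d hd
        rw [zero_mul]
        exact h0
      neg_mem' := by
        intro a ha d hd
        refine hc (a * d) (ha d hd) _ ?_
        rw [neg_mul, Valuation.map_neg] }
  have hS : ∀ x : K, x ∈ S ↔ ∀ d ∈ P, x * d ∈ P := fun x => Iff.rfl
  have hle : O.toSubring ≤ S := by
    intro x hx
    rw [hS]
    intro d hd
    refine hc d hd _ ?_
    have hx1 : O.valuation x ≤ 1 := (O.valuation_le_one_iff x).2 hx
    rw [map_mul]
    calc O.valuation x * O.valuation d ≤ 1 * O.valuation d := mul_le_mul_left hx1 _
      _ = O.valuation d := one_mul _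
  have hmem : ∀ x : K, x ∈ ValuationSubring.ofLE O S hle ↔ ∀ d ∈ P, x * d ∈ P := fun x => Iff.rfl
  refine ⟨ValuationSubring.ofLE O S hle, ?_, ?_⟩
  · intro x hx
    exact hle hx
  · intro d
    constructor
    · intro hd
      by_contra hdP
      have hd0 : d ≠ 0 := by
        intro h
        rw [h] at hdP
        exact hdP h0
      have hinv : d⁻¹ ∈ ValuationSubring.ofLE O S hle := by
        rw [hmem]
        intro e he
        by_contra hf
        have hfd : d⁻¹ * e * d = e := by
          field_simp
        have hvd : O.valuation (d⁻¹ * e) * O.valuation d = O.valuation e := by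
          rw [← map_mul, hfd]
        have hlt : O.valuation e < O.valuation d := by
          by_contra hcon
          exact hdP (hc e he d (not_lt.1 hcon))
        have hvd0 : O.valuation d ≠ 0 := by
          intro h
          rw [h] at hlt
          exact absurd hlt (not_lt.2 zero_le)
        have hf1 : O.valuation (d⁻¹ * e) < 1 := by
          by_contra hcon
          have h1 : 1 ≤ O.valuation (d⁻¹ * e) := not_lt.1 hcon
          have h2 : O.valuation d ≤ O.valuation e := by
            calc O.valuation d = 1 * O.valuation d := (one_mul _).symm
              _ ≤ O.valuation (d⁻¹ * e) * O.valuation d := mul_le_mul_left h1 _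
              _ = O.valuation e := hvd
          exact absurd hlt (not_lt.2 h2)
        rcases le_total (O.valuation (d⁻¹ * e)) (O.valuation d) with h2 | h2
        · apply hf
          apply hs _ hf1
          refine hc e he _ ?_
          rw [pow_two, map_mul]
          calc O.valuation (d⁻¹ * e) * O.valuation (d⁻¹ * e)
              ≤ O.valuation (d⁻¹ * e) * O.valuation d := mul_le_mul_right h2 _
            _ = O.valuation e := hvd
        · apply hdP
          apply hs _ (lt_of_le_of_lt h2 hf1)
          refine hc e he _ ?_
          rw [pow_two, map_mul]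
          calc O.valuation d * O.valuation d
              ≤ O.valuation (d⁻¹ * e) * O.valuation d := mul_le_mul_left h2 _
            _ = O.valuation e := hvd
      have h3 : (ValuationSubring.ofLE O S hle).valuation d⁻¹ ≤ 1 :=
        (ValuationSubring.valuation_le_one_iff _ _).2 hinv
      have h4 : (ValuationSubring.ofLE O S hle).valuation d⁻¹ *
          (ValuationSubring.ofLE O S hle).valuation d = 1 := by
        rw [← map_mul, inv_mul_cancel₀ hd0, map_one]
      have h5 : (ValuationSubring.ofLE O S hle).valuation d⁻¹ *
          (ValuationSubring.ofLE O S hle).valuation d < 1 := by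
        calc (ValuationSubring.ofLE O S hle).valuation d⁻¹ *
              (ValuationSubring.ofLE O S hle).valuation d
            ≤ 1 * (ValuationSubring.ofLE O S hle).valuation d := mul_le_mul_left h3 _
          _ = (ValuationSubring.ofLE O S hle).valuation d := one_mul _
          _ < 1 := hd
      rw [h4] at h5
      exact lt_irrefl _ h5
    · intro hd
      by_cases hd0 : d = 0
      · rw [hd0, map_zero]
        exact zero_lt_one
      by_contra hcon
      have h1 : 1 ≤ (ValuationSubring.ofLE O S hle).valuation d := not_lt.1 hcon
      have h4 : (ValuationSubring.ofLE O S hle).valuation d⁻¹ *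
          (ValuationSubring.ofLE O S hle).valuation d = 1 := by
        rw [← map_mul, inv_mul_cancel₀ hd0, map_one]
      have h2 : (ValuationSubring.ofLE O S hle).valuation d⁻¹ ≤ 1 := by
        calc (ValuationSubring.ofLE O S hle).valuation d⁻¹
            = (ValuationSubring.ofLE O S hle).valuation d⁻¹ * 1 := (mul_one _).symm
          _ ≤ (ValuationSubring.ofLE O S hle).valuation d⁻¹ *
              (ValuationSubring.ofLE O S hle).valuation d := mul_le_mul_right h1 _
          _ = 1 := h4
      have h3 : d⁻¹ ∈ ValuationSubring.ofLE O S hle :=
        (ValuationSubring.valuation_le_one_iff _ _).1 h2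
      have h5 : d⁻¹ * d ∈ P := (hmem _).1 h3 d hd
      rw [inv_mul_cancel₀ hd0] at h5
      have h6 := hm _ h5
      rw [map_one] at h6
      exact lt_irrefl _ h6

end Pool.LibHC92
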