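import Pool.Agent.LibHC92.Defs2

/-
PLAN (HP, MEDIUM). μ := mu θ B, s := ss θ B (mu_eq, mu_th, ss_th). persist: x = a (1 + θ y), b' = μ b + 1/x, g := 1 - s t b⁻¹ (in 1 + θ R, a unit; HH.unit). Algebra: b' x = 1 + μ b x and (b' - μ (s t)) x = 1 + μ b g x, so (1 - μ (s t) b'⁻¹) (1 + μ b x) = 1 + μ b g x; and 1 + μ b g x = g (g⁻¹ + μ b a + θ μ b a y),
1 + μ b x = 1 + μ b a + θ μ b a y. So with σ := θ^(10B+7) * w, w := -(b a), H := 1 + μ b a (HH): if φ (g⁻¹ + μ b a - θ σ y) = φ (H - θ σ y) then Vl φ b' (μ (s t)) = φ g = Vl φ b (s t) (HH.phi, cancel). g⁻¹ - 1 = s t b⁻¹ g⁻¹ = θ^((5B+4)+B) r with r := t b⁻¹ g⁻¹, so the probability of the exception is ≤ DD .. ≤ ε by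
hN (10B+7) (5B+4). newval: b = μ b0 + 1/x0, x = 1 + θ y, b' = μ b + 1/x, κ := θ^(4B+3), μ = s κ. (1 - s b'⁻¹) (1 + μ b x) = 1 + (μ b - s) x. (1 + (μ b - s) x) = 1 - s g' x, g' := 1 - κ b; = g' (g'⁻¹ - s - θ s y); compare with 1 - s x = 1 - s - θ s y: DD at σ = θ^(6B+4) * 1, base 1 - s, change
g'⁻¹ - 1 = κ b g'⁻¹ = θ^((3B+3)+B) r: hN (6B+4) (3B+3). 1 + μ b x with b = x0⁻¹ g'', g'' := 1 + μ b0 x0: = g'' (g''⁻¹ + μ x0⁻¹ + θ μ x0⁻¹ y), compare with 1 + μ x0⁻¹ x = 1 + μ x0⁻¹ + θ μ x0⁻¹ y: DD at σ = θ^(10B+7) * (-x0⁻¹), base 1 + μ x0⁻¹, change g''⁻¹ - 1 = - μ b0 x0 g''⁻¹ = θ^((5B+4)+B) r,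
r = -θ^(4B+3) b0 x0 g''⁻¹: hN (10B+7) (5B+4). C := φ g' * (φ g'')⁻¹; union bound pr_le_or.
-/

set_option autoImplicit false

noncomputable section

namespace Pool.LibHC92

open Pool.LibHB92

universe u

variable {R : Type u} [CommRing R] {F : Type u} [CommGroup F] {θ : R} {φ : R → F} {N : ℕ}

/-- (1 - t / b') b' x = (b' - t) x -/
private theorem HP_den {μ : R} {b x b' : Rˣ} (h : Nx μ b x b') (t : R) :
    (1 - t * ((b'⁻¹ : Rˣ) : R)) * (1 + μ * b * x) = 1 + μ * b * x - t * x := by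
  have h1 : (b' : R) * x = 1 + μ * b * x := by
    have h2 : ((x⁻¹ : Rˣ) : R) * (x : R) = 1 := Units.inv_mul x
    unfold Nx at h
    rw [h]
    linear_combination h2
  have h3 : ((b'⁻¹ : Rˣ) : R) * (b' : R) = 1 := Units.inv_mul b'
  rw [← h1]
  linear_combination (-(t * x)) * h3

/-- the old values persist: value of b' at μ s t = value of b at s t -/
theorem persist (hD : Dat θ φ N) {M : Mean R} {B : ℕ} {ε : ℝ} (hN : Nr θ φ M B ε) (a b : Rˣ)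
    (t : R) : M.pr (fun y => ¬ ∀ x b' : Rˣ, (x : R) = a * (1 + θ * y) → Nx (mu θ B) b x b' →
      Vl φ b' (mu θ B * (ss θ B * t)) = Vl φ b (ss θ B * t)) ≤ ε := by
  have hg : HH θ (1 - ss θ B * t * ((b⁻¹ : Rˣ) : R)) :=
    ⟨-(θ ^ (6 * B + 3) * t * ((b⁻¹ : Rˣ) : R)), by rw [ss_th]; ring⟩
  obtain ⟨g, hgv⟩ := HH.unit hD hg
  have hgi : ((g⁻¹ : Rˣ) : R) * (g : R) = 1 := Units.inv_mul g
  have hbi : ((b⁻¹ : Rˣ) : R) * (b : R) = 1 := Units.inv_mul b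
  have hgH : HH θ (g : R) := by rw [hgv]; exact hg
  have hH : HH θ (1 + mu θ B * b * a) := ⟨θ ^ (10 * B + 6) * b * a, by rw [mu_th]; ring⟩
  have h0 := hN (10 * B + 7) (5 * B + 4) (by omega) (by omega) (by omega) (-(b * a)) (1 + mu θ B * b * a) hH
    (t * ((b⁻¹ : Rˣ) : R) * ((g⁻¹ : Rˣ) : R))
  refine le_trans (M.pr_mono fun y hy => ?_) h0
  intro heq
  apply hy
  intro x b' hx hb'
  have e1 : 1 + mu θ B * b * a + θ ^ (5 * B + 4 + B) * (t * ((b⁻¹ : Rˣ) : R) * ((g⁻¹ : Rˣ) : R)) -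
      θ * (θ ^ (10 * B + 7) * ((-(b * a) : Rˣ) : R)) * y = ((g⁻¹ : Rˣ) : R) + mu θ B * b * x := by
    have h2 : θ ^ (5 * B + 4 + B) = ss θ B := by
      unfold ss
      congr 1
      omega
    have h3 : θ ^ (10 * B + 7) = mu θ B := rfl
    rw [h2, h3, hx, Units.val_neg, Units.val_mul]
    linear_combination ((g⁻¹ : Rˣ) : R) * hgv - hgi
  have e2 : 1 + mu θ B * b * a - θ * (θ ^ (10 * B + 7) * ((-(b * a) : Rˣ) : R)) * y = 1 + mu θ B * b * x := by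
    have h3 : θ ^ (10 * B + 7) = mu θ B := rfl
    rw [h3, hx, Units.val_neg, Units.val_mul]
    ring
  rw [e1, e2] at heq
  have hX : HH θ (1 + mu θ B * b * x) := ⟨θ ^ (10 * B + 6) * b * x, by rw [mu_th]; ring⟩
  have hY : HH θ (((g⁻¹ : Rˣ) : R) + mu θ B * b * x) := by
    have h4 : ((g⁻¹ : Rˣ) : R) + mu θ B * b * x = ((g⁻¹ : Rˣ) : R) + θ * (θ ^ (10 * B + 6) * b * x) := by
      rw [mu_th]
      ring
    rw [h4]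
    exact hgH.inv.add _
  have hZ : HH θ (1 - mu θ B * (ss θ B * t) * ((b'⁻¹ : Rˣ) : R)) :=
    ⟨-(θ ^ (10 * B + 6) * (ss θ B * t) * ((b'⁻¹ : Rˣ) : R)), by rw [mu_th]; ring⟩
  have k1 : φ (1 - mu θ B * (ss θ B * t) * ((b'⁻¹ : Rˣ) : R)) * φ (1 + mu θ B * b * x) =
      φ (g : R) * φ (1 + mu θ B * b * x) := by
    rw [← HH.phi hD hZ hX, HP_den hb', ← heq, ← HH.phi hD hgH hY]
    congr 1
    have hgi2 : (g : R) * ((g⁻¹ : Rˣ) : R) = 1 := Units.mul_inv g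
    rw [mul_add, hgi2, hgv]
    linear_combination (mu θ B * ss θ B * t * x) * hbi
  unfold Vl
  rw [← hgv]
  exact mul_right_cancel k1

/-- the new value -/
theorem newval (hD : Dat θ φ N) {M : Mean R} {B : ℕ} {ε : ℝ} (hN : Nr θ φ M B ε)
    (b0 x0 b : Rˣ) (hb : Nx (mu θ B) b0 x0 b) :
    ∃ C : F, M.pr (fun y => ¬ ∀ x b' : Rˣ, (x : R) = 1 + θ * y → Nx (mu θ B) b x b' →
      Vl φ b' (ss θ B) = C * Ra θ φ B x0 y) ≤ 2 * ε := by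
  have hg1 : HH θ (1 - θ ^ (4 * B + 3) * (b : R)) := ⟨-(θ ^ (4 * B + 2) * b), by
    have h1 : θ ^ (4 * B + 3) = θ * θ ^ (4 * B + 2) := by rw [← pow_succ']
    rw [h1]
    ring⟩
  obtain ⟨g', hg'⟩ := HH.unit hD hg1
  have hg2 : HH θ (1 + mu θ B * b0 * x0) := ⟨θ ^ (10 * B + 6) * b0 * x0, by rw [mu_th]; ring⟩
  obtain ⟨g'', hg''⟩ := HH.unit hD hg2
  have hG1 : HH θ (g' : R) := by rw [hg']; exact hg1
  have hG2 : HH θ (g'' : R) := by rw [hg'']; exact hg2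
  have i1 : ((g'⁻¹ : Rˣ) : R) * (g' : R) = 1 := Units.inv_mul g'
  have i2 : ((g''⁻¹ : Rˣ) : R) * (g'' : R) = 1 := Units.inv_mul g''
  have i0 : ((x0⁻¹ : Rˣ) : R) * (x0 : R) = 1 := Units.inv_mul x0
  have hH1 : HH θ (1 - ss θ B) := ⟨-(θ ^ (6 * B + 3)), by rw [ss_th]; ring⟩
  have hH2 : HH θ (1 + mu θ B * ((x0⁻¹ : Rˣ) : R)) :=
    ⟨θ ^ (10 * B + 6) * ((x0⁻¹ : Rˣ) : R), by rw [mu_th]; ring⟩
  have a1 := hN (6 * B + 4) (3 * B + 3) (by omega) (by omega) (by omega) 1 (1 - ss θ B) hH1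
    (b * ((g'⁻¹ : Rˣ) : R))
  have a2 := hN (10 * B + 7) (5 * B + 4) (by omega) (by omega) (by omega) (-x0⁻¹)
    (1 + mu θ B * ((x0⁻¹ : Rˣ) : R)) hH2 (-(θ ^ (4 * B + 3) * b0 * x0 * ((g''⁻¹ : Rˣ) : R)))
  refine ⟨φ (g' : R) * (φ (g'' : R))⁻¹, ?_⟩
  have a3 : 2 * ε = ε + ε := by ring
  rw [a3]
  refine le_trans (M.pr_le_or (Q := fun y => φ (1 - ss θ B + θ ^ (3 * B + 3 + B) * (b * ((g'⁻¹ : Rˣ) : R)) -
      θ * (θ ^ (6 * B + 4) * ((1 : Rˣ) : R)) * y) ≠ φ (1 - ss θ B - θ * (θ ^ (6 * B + 4) * ((1 : Rˣ) : R)) * y))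
    (R := fun y => φ (1 + mu θ B * ((x0⁻¹ : Rˣ) : R) +
        θ ^ (5 * B + 4 + B) * (-(θ ^ (4 * B + 3) * b0 * x0 * ((g''⁻¹ : Rˣ) : R))) -
      θ * (θ ^ (10 * B + 7) * ((-x0⁻¹ : Rˣ) : R)) * y) ≠
      φ (1 + mu θ B * ((x0⁻¹ : Rˣ) : R) - θ * (θ ^ (10 * B + 7) * ((-x0⁻¹ : Rˣ) : R)) * y)) fun y hy => ?_)
    (add_le_add a1 a2)
  by_contra hcon
  push Not at hcon
  obtain ⟨q1, q2⟩ := hcon
  apply hy
  intro x b' hx hb'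
  have s1 : θ ^ (6 * B + 4) = ss θ B := rfl
  have s2 : θ ^ (10 * B + 7) = mu θ B := rfl
  have s3 : θ ^ (3 * B + 3 + B) = θ ^ (4 * B + 3) := by
    congr 1
    omega
  have s4 : θ ^ (5 * B + 4 + B) = ss θ B := by
    unfold ss
    congr 1
    omega
  have e1 : 1 - ss θ B + θ ^ (3 * B + 3 + B) * (b * ((g'⁻¹ : Rˣ) : R)) -
      θ * (θ ^ (6 * B + 4) * ((1 : Rˣ) : R)) * y = ((g'⁻¹ : Rˣ) : R) - ss θ B * x := by
    rw [s1, s3, Units.val_one, hx]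
    linear_combination ((g'⁻¹ : Rˣ) : R) * hg' - i1
  have e2 : 1 - ss θ B - θ * (θ ^ (6 * B + 4) * ((1 : Rˣ) : R)) * y = 1 - ss θ B * x := by
    rw [s1, Units.val_one, hx]
    ring
  have e3 : 1 + mu θ B * ((x0⁻¹ : Rˣ) : R) +
        θ ^ (5 * B + 4 + B) * (-(θ ^ (4 * B + 3) * b0 * x0 * ((g''⁻¹ : Rˣ) : R))) -
      θ * (θ ^ (10 * B + 7) * ((-x0⁻¹ : Rˣ) : R)) * y =
      ((g''⁻¹ : Rˣ) : R) + mu θ B * ((x0⁻¹ : Rˣ) : R) * x := by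
    have h5 : ss θ B * θ ^ (4 * B + 3) = mu θ B := (mu_eq θ B).symm
    rw [s2, s4, Units.val_neg, hx]
    linear_combination (-(b0 * x0 * ((g''⁻¹ : Rˣ) : R))) * h5 - i2 + ((g''⁻¹ : Rˣ) : R) * hg''
  have e4 : 1 + mu θ B * ((x0⁻¹ : Rˣ) : R) - θ * (θ ^ (10 * B + 7) * ((-x0⁻¹ : Rˣ) : R)) * y =
      1 + mu θ B * ((x0⁻¹ : Rˣ) : R) * x := by
    rw [s2, Units.val_neg, hx]
    ring
  rw [e1, e2] at q1
  rw [e3, e4] at q2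
  have hX : HH θ (1 + mu θ B * b * x) := ⟨θ ^ (10 * B + 6) * b * x, by rw [mu_th]; ring⟩
  have hZ : HH θ (1 - ss θ B * ((b'⁻¹ : Rˣ) : R)) :=
    ⟨-(θ ^ (6 * B + 3) * ((b'⁻¹ : Rˣ) : R)), by rw [ss_th]; ring⟩
  have hY1 : HH θ (((g'⁻¹ : Rˣ) : R) - ss θ B * x) := by
    have h4 : ((g'⁻¹ : Rˣ) : R) - ss θ B * x = ((g'⁻¹ : Rˣ) : R) - θ * (θ ^ (6 * B + 3) * x) := by
      rw [ss_th]
      ring
    rw [h4]
    exact hG1.inv.sub _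
  have hY2 : HH θ (((g''⁻¹ : Rˣ) : R) + mu θ B * ((x0⁻¹ : Rˣ) : R) * x) := by
    have h4 : ((g''⁻¹ : Rˣ) : R) + mu θ B * ((x0⁻¹ : Rˣ) : R) * x =
        ((g''⁻¹ : Rˣ) : R) + θ * (θ ^ (10 * B + 6) * ((x0⁻¹ : Rˣ) : R) * x) := by
      rw [mu_th]
      ring
    rw [h4]
    exact hG2.inv.add _
  have j1 : (g' : R) * ((g'⁻¹ : Rˣ) : R) = 1 := Units.mul_inv g'
  have j2 : (g'' : R) * ((g''⁻¹ : Rˣ) : R) = 1 := Units.mul_inv g''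
  have k1 : φ (1 - ss θ B * ((b'⁻¹ : Rˣ) : R)) * φ (1 + mu θ B * b * x) =
      φ (g' : R) * φ (1 - ss θ B * x) := by
    rw [← HH.phi hD hZ hX, HP_den hb', ← q1, ← HH.phi hD hG1 hY1]
    congr 1
    have h5 : ss θ B * θ ^ (4 * B + 3) = mu θ B := (mu_eq θ B).symm
    rw [mul_sub, j1, hg']
    linear_combination (-(b * x)) * h5
  have k2 : φ (1 + mu θ B * b * x) = φ (g'' : R) * φ (1 + mu θ B * ((x0⁻¹ : Rˣ) : R) * x) := by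
    rw [← q2, ← HH.phi hD hG2 hY2]
    congr 1
    have h6 : (b : R) = mu θ B * b0 + ((x0⁻¹ : Rˣ) : R) := hb
    rw [mul_add, j2, hg'', h6]
    linear_combination (-(mu θ B * mu θ B * b0 * x)) * i0
  unfold Vl Ra
  rw [← hx]
  rw [k2] at k1
  have k3 : φ (1 - ss θ B * ((b'⁻¹ : Rˣ) : R)) = φ (g' : R) * φ (1 - ss θ B * x) *
      (φ (g'' : R) * φ (1 + mu θ B * ((x0⁻¹ : Rˣ) : R) * x))⁻¹ := eq_mul_inv_of_mul_eq k1
  rw [k3, mul_inv]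
  exact mul_mul_mul_comm _ _ _ _

end Pool.LibHC92
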