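import Pool.Agent.LibHC92.HDef
import Pool.Agent.LibHB92.QD2

/-
PLAN (HQ1, MEDIUM, near copy of LibHB92/QD1.lean and QD2.lean). The same proof as cyc_step' (QD2.lean) with the group of one-units at the scale c: replace OU B x (A.valuation (x - 1) < 1 for all A over B) by OC x := ∀ A over B, A.valuation (x - 1) ≤ A.valuation (algebraMap M M' c). Since A.valuation (algebraMap c) < 1 (val_lt), OC x implies OU B x (ou_ne
etc. can be used). OC is closed under mul (x y - 1 = (x - 1) y + (y - 1), valuation of y is 1), inv, finite products, σ (A.comap σ lies over B and fixes algebraMap c; the analogue of QD1_comap for ≤: (A.comap f).valuation x ≤ (A.comap f).valuation y iff A.valuation (f x) ≤ A.valuation (f y): for y ≠ 0 both say x / y ∈ .., use valuation_le_one_iff), norm: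
B.valuation (Algebra.norm M x - 1) ≤ B.valuation c. h90 at the scale c: the same y = q⁻¹ Σ P i (Valuation.map_sum_le). root_norm at the scale c: c1^q ≡ 1 modulo c, root_norm gives c' ≡ 1 with c'^q = c1^q; c'^q - 1 = (c' - 1) Σ_{i<q} c'^i and the sum is ≡ q modulo the maximal ideal, so it has valuation 1: B.valuation (c' - 1) = B.valuation (c'^q - 1).
In CB B q M c the condition is for all A with A.comap (algebraMap M M) = B, that is A = B. QD2_core is private in QD2.lean: copy it.
-/

set_option autoImplicit false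

noncomputable section

namespace Pool.LibHC92

universe u

open Pool.LibNP88 Pool.LibHB92

private theorem HQ1_core {G G' A : Type u} [CommGroup G] [CommGroup G'] [CommGroup A] {q : ℕ}
    (hq : q.Prime) (s : G' →* G') (hsq : ∀ x, s^[q] x = x) (ι : G →* G') (N : G' →* G)
    (hN : ∀ c, N (ι c) = c ^ q) (h90 : ∀ b : G', N b = 1 → ∃ y, b * s y = y)
    (hfin : Finite (G ⧸ (powMonoidHom q : G →* G).range))
    (π : G' →* A) (hπ : Function.Surjective π) (hk : ∀ x, π x = 1 ↔ ∃ y, y ^ q = x) :
    Finite A := by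
  classical
  have hs : π.ker ≤ (π.comp s).ker := by
    intro x hx
    rw [MonoidHom.mem_ker] at hx ⊢
    obtain ⟨y, rfl⟩ := (hk x).1 hx
    rw [MonoidHom.comp_apply, map_pow]
    exact (hk _).2 ⟨s y, rfl⟩
  let sA : A →* A := π.liftOfSurjective hπ ⟨π.comp s, hs⟩
  have hsA : ∀ x : G', sA (π x) = π (s x) := fun x =>
    MonoidHom.liftOfRightInverse_comp_apply π _ _ ⟨π.comp s, hs⟩ x
  have hA : ∀ a : A, a ^ q = 1 := by
    intro a
    obtain ⟨x, rfl⟩ := hπ a
    rw [← map_pow]
    exact (hk _).2 ⟨x, rfl⟩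
  have hitA : ∀ (n : ℕ) (x : G'), sA^[n] (π x) = π (s^[n] x) := by
    intro n
    induction n with
    | zero => intro x; rfl
    | succ n ih =>
      intro x
      rw [Function.iterate_succ_apply', ih, Function.iterate_succ_apply', hsA]
  have hσA : ∀ a, sA^[q] a = a := by
    intro a
    obtain ⟨x, rfl⟩ := hπ a
    rw [hitA, hsq]
  let D : A →* A := sA / MonoidHom.id A
  have hD : ∀ a, D a = sA a / a := fun a => rfl
  refine fin_of_unip hq hA sA hσA D hD ?_
  let PK : Subgroup G := (powMonoidHom q : G →* G).range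
  let C : Subgroup A := (π.comp ι).range
  have hC : Finite C := by
    have hk' : PK ≤ (π.comp ι).ker := by
      rintro x ⟨y, rfl⟩
      rw [MonoidHom.mem_ker, MonoidHom.comp_apply]
      have : ι (powMonoidHom q y) = (ι y) ^ q := by
        rw [powMonoidHom_apply, map_pow]
      rw [this]
      exact (hk _).2 ⟨ι y, rfl⟩
    have : Finite (G ⧸ PK) := hfin
    let f : (G ⧸ PK) → C := fun a => ⟨QuotientGroup.lift PK (π.comp ι) hk' a, by
      obtain ⟨x, rfl⟩ := QuotientGroup.mk_surjective a
      exact ⟨x, rfl⟩⟩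
    apply Finite.of_surjective f
    rintro ⟨y, x, rfl⟩
    exact ⟨QuotientGroup.mk x, rfl⟩
  have hPK : PK.index ≠ 0 := by
    have : Finite (G ⧸ PK) := hfin
    exact Subgroup.index_ne_zero_of_finite
  have hB : (PK.comap N).index ≠ 0 := by
    rw [Subgroup.index_comap]
    intro h0
    exact hPK (Nat.eq_zero_of_zero_dvd (h0 ▸ Subgroup.relIndex_dvd_index_of_normal PK N.range))
  have hle : PK.comap N ≤ (C ⊔ D.range).comap π := by
    intro x hx
    rw [Subgroup.mem_comap] at hx ⊢
    obtain ⟨c, hc⟩ := hx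
    have h1 : N (x / ι c) = 1 := by
      rw [map_div, hN, ← hc, powMonoidHom_apply, div_self']
    obtain ⟨y, h2⟩ := h90 _ h1
    have h3 : π x = π (ι c) * D ((π y)⁻¹) := by
      have h4 : x = ι c * ((s y)⁻¹ * y) := by
        have h5 : y * (s y)⁻¹ = x / ι c := by
          rw [mul_inv_eq_iff_eq_mul]
          exact h2.symm
        rw [mul_comm (s y)⁻¹, h5, mul_div_cancel]
      rw [hD, map_inv, hsA, div_inv_eq_mul]
      conv_lhs => rw [h4, map_mul, map_mul, map_inv]
    rw [h3]
    exact Subgroup.mul_mem_sup ⟨c, rfl⟩ ⟨_, rfl⟩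
  have hsup : (C ⊔ D.range).index ≠ 0 := by
    rw [← Subgroup.index_comap_of_surjective (C ⊔ D.range) hπ]
    intro h0
    exact hB (Nat.eq_zero_of_zero_dvd (h0 ▸ Subgroup.index_dvd_of_le hle))
  have hrel : D.range.relIndex (C ⊔ D.range) ≠ 0 := by
    rw [Subgroup.relIndex_sup_right]
    exact Subgroup.index_ne_zero_of_finite
  rw [← Subgroup.relIndex_mul_index (le_sup_right : D.range ≤ C ⊔ D.range)]
  exact Nat.mul_ne_zero hrel hsup


private theorem HQ1_comap {L : Type u} {M : Type u} [Field L] [Field M] (A : ValuationSubring M)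
    (f : L →+* M) (x y : L) : (A.comap f).valuation x ≤ (A.comap f).valuation y ↔
      A.valuation (f x) ≤ A.valuation (f y) := by
  by_cases hy : y = 0
  · subst hy
    rw [map_zero, map_zero, map_zero, le_zero_iff, le_zero_iff, map_eq_zero, map_eq_zero,
      map_eq_zero]
  · have hfy : f y ≠ 0 := by
      rwa [Ne, map_eq_zero]
    have h1 : 0 < (A.comap f).valuation y := zero_lt_iff.2 ((Valuation.ne_zero_iff _).2 hy)
    have h2 : 0 < A.valuation (f y) := zero_lt_iff.2 ((Valuation.ne_zero_iff _).2 hfy)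
    rw [← div_le_one₀ h1, ← div_le_one₀ h2, ← map_div₀, ← map_div₀,
      ValuationSubring.valuation_le_one_iff, ValuationSubring.valuation_le_one_iff,
      ValuationSubring.mem_comap, map_div₀]

/-- x is congruent to 1 modulo c at all valuation rings of M' over B -/
private def HQ1_OC {M M' : Type u} [Field M] [Field M'] [Algebra M M'] (B : ValuationSubring M)
    (c : M) (x : M') : Prop :=
  ∀ A : ValuationSubring M', A.comap (algebraMap M M') = B →
    A.valuation (x - 1) ≤ A.valuation (algebraMap M M' c)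

private theorem HQ1_one {L : Type u} [Field L] (A : ValuationSubring L) {x d : L}
    (hd : A.valuation d < 1) (hx : A.valuation (x - 1) ≤ A.valuation d) : A.valuation x = 1 := by
  have h1 : A.valuation (1 + (x - 1)) = 1 := Valuation.map_one_add_of_lt _ (lt_of_le_of_lt hx hd)
  rwa [add_sub_cancel] at h1

private theorem HQ1_mul {L : Type u} [Field L] (A : ValuationSubring L) {x y d : L}
    (hd : A.valuation d < 1)
    (hx : A.valuation (x - 1) ≤ A.valuation d) (hy : A.valuation (y - 1) ≤ A.valuation d) :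
    A.valuation (x * y - 1) ≤ A.valuation d := by
  have h : x * y - 1 = (x - 1) * y + (y - 1) := by ring
  rw [h]
  refine Valuation.map_add_le _ ?_ hy
  rw [map_mul, HQ1_one A hd hy, mul_one]
  exact hx

private theorem HQ1_inv {L : Type u} [Field L] (A : ValuationSubring L) {x d : L}
    (hd : A.valuation d < 1)
    (hx : A.valuation (x - 1) ≤ A.valuation d) : A.valuation (x⁻¹ - 1) ≤ A.valuation d := by
  have h1 := HQ1_one A hd hx
  have hx0 : x ≠ 0 := by
    rintro rfl
    rw [map_zero] at h1
    exact zero_ne_one h1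
  have h : x⁻¹ - 1 = -((x - 1) * x⁻¹) := by
    rw [sub_mul, mul_inv_cancel₀ hx0]
    ring
  rw [h, Valuation.map_neg, map_mul, map_inv₀, h1, inv_one, mul_one]
  exact hx

private theorem HQ1_prod {L : Type u} [Field L] (A : ValuationSubring L) {ι : Type*}
    {d : L} (hd : A.valuation d < 1)
    (s : Finset ι) (f : ι → L) (hf : ∀ i ∈ s, A.valuation (f i - 1) ≤ A.valuation d) :
    A.valuation (∏ i ∈ s, f i - 1) ≤ A.valuation d := by
  classical
  induction s using Finset.induction_on with
  | empty => simp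
  | insert a s ha ih =>
    rw [Finset.prod_insert ha]
    exact HQ1_mul A hd (hf a (Finset.mem_insert_self a s))
      (ih fun i hi => hf i (Finset.mem_insert_of_mem hi))

section

variable {M M' : Type u} [Field M] [Field M'] [Algebra M M'] {B : ValuationSubring M} {c : M}

private theorem HQ1_lt (hc : B.valuation c < 1) (A : ValuationSubring M')
    (hA : A.comap (algebraMap M M') = B) : A.valuation (algebraMap M M' c) < 1 :=
  (val_lt B A hA _).2 hc

private theorem HQ1_ou (hc : B.valuation c < 1) {x : M'} (hx : HQ1_OC B c x) : OU B x :=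
  fun A hA => lt_of_le_of_lt (hx A hA) (HQ1_lt hc A hA)

private theorem HQ1_oc_one : HQ1_OC B c (1 : M') := by
  intro A _
  simp

private theorem HQ1_oc_mul (hc : B.valuation c < 1) {x y : M'} (hx : HQ1_OC B c x)
    (hy : HQ1_OC B c y) : HQ1_OC B c (x * y) := by
  intro A hA
  exact HQ1_mul A (HQ1_lt hc A hA) (hx A hA) (hy A hA)

private theorem HQ1_oc_inv (hc : B.valuation c < 1) {x : M'} (hx : HQ1_OC B c x) :
    HQ1_OC B c x⁻¹ := by
  intro A hA
  exact HQ1_inv A (HQ1_lt hc A hA) (hx A hA)

private theorem HQ1_oc_base {x : M} :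
    HQ1_OC B c (algebraMap M M' x) ↔ B.valuation (x - 1) ≤ B.valuation c := by
  constructor
  · intro h
    obtain ⟨A, hA⟩ := ext_exists B M'
    have h1 := h A hA
    rw [← map_one (algebraMap M M'), ← map_sub] at h1
    subst hA
    exact (HQ1_comap A _ _ _).2 h1
  · intro h A hA
    rw [← map_one (algebraMap M M'), ← map_sub]
    subst hA
    exact (HQ1_comap A _ _ _).1 h

private theorem HQ1_oc_sig (σ : M' ≃ₐ[M] M') {x : M'} (hx : HQ1_OC B c x) :
    HQ1_OC B c (σ x) := by
  intro A hA
  have hc : (A.comap (σ : M' →+* M')).comap (algebraMap M M') = B := by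
    rw [← hA]
    ext z
    rw [ValuationSubring.mem_comap, ValuationSubring.mem_comap, ValuationSubring.mem_comap]
    have h1 : (σ : M' →+* M') (algebraMap M M' z) = algebraMap M M' z := σ.commutes z
    rw [h1]
  have h2 := (HQ1_comap A (σ : M' →+* M') (x - 1) (algebraMap M M' c)).1 (hx _ hc)
  have h3 : (σ : M' →+* M') (x - 1) = σ x - 1 := by
    change σ (x - 1) = σ x - 1
    rw [map_sub, map_one]
  have h4 : (σ : M' →+* M') (algebraMap M M' c) = algebraMap M M' c := σ.commutes c
  rwa [h3, h4] at h2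

private theorem HQ1_oc_norm [FiniteDimensional M M'] [IsGalois M M'] (hc : B.valuation c < 1)
    {x : M'} (hx : HQ1_OC B c x) :
    B.valuation (Algebra.norm M x - 1) ≤ B.valuation c := by
  rw [← HQ1_oc_base (M' := M'), Algebra.norm_eq_prod_automorphisms]
  intro A hA
  exact HQ1_prod A (HQ1_lt hc A hA) _ _ fun σ _ => HQ1_oc_sig σ hx A hA

private theorem HQ1_h90 [FiniteDimensional M M'] [IsGalois M M'] {q : ℕ} (hq : q.Prime)
    (hd : Module.finrank M M' = q) (hqv : B.valuation (q : M) = 1) (hc : B.valuation c < 1)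
    (σ : M' ≃ₐ[M] M')
    (hσ : ∀ τ : M' ≃ₐ[M] M', τ ∈ Subgroup.zpowers σ) {x : M'} (hx : HQ1_OC B c x)
    (hN : Algebra.norm M x = 1) : ∃ y : M', HQ1_OC B c y ∧ x * σ y = y := by
  have hcard : orderOf σ = q := by
    rw [orderOf_eq_card_of_forall_mem_zpowers hσ, IsGalois.card_aut_eq_finrank, hd]
  set P : ℕ → M' := fun i => ∏ j ∈ Finset.range i, (σ ^ j) x with hP
  have hPou : ∀ i, HQ1_OC B c (P i) := fun i A hA =>
    HQ1_prod A (HQ1_lt hc A hA) _ _ fun j _ => HQ1_oc_sig (σ ^ j) hx A hA
  have hstep : ∀ i, x * σ (P i) = P (i + 1) := by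
    intro i
    simp only [hP]
    rw [Finset.prod_range_succ', map_prod, mul_comm, pow_zero]
    congr 1
    refine Finset.prod_congr rfl fun j _ => ?_
    rw [pow_succ', AlgEquiv.mul_apply]
  have hPq : P q = 1 := by
    classical
    have h1 := Algebra.norm_eq_prod_automorphisms (K := M) (L := M') x
    rw [hN, map_one] at h1
    rw [h1]
    simp only [hP]
    have h2 := IsCyclic.image_range_orderOf hσ
    rw [hcard] at h2
    rw [← h2, Finset.prod_image]
    intro a ha b hb hab
    rw [Finset.mem_coe, Finset.mem_range, ← hcard] at ha hb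
    exact pow_injOn_Iio_orderOf ha hb hab
  have hq0 : (q : M') ≠ 0 := by
    intro h0
    have h1 : algebraMap M M' (q : M) = 0 := by
      rw [map_natCast, h0]
    rw [map_eq_zero] at h1
    rw [h1, map_zero] at hqv
    exact zero_ne_one hqv
  refine ⟨(q : M')⁻¹ * ∑ i ∈ Finset.range q, P i, ?_, ?_⟩
  · intro A hA
    have h1 : (q : M')⁻¹ * ∑ i ∈ Finset.range q, P i - 1 =
        (q : M')⁻¹ * ∑ i ∈ Finset.range q, (P i - 1) := by
      rw [Finset.sum_sub_distrib, Finset.sum_const, Finset.card_range, nsmul_eq_mul, mul_one,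
        mul_sub, inv_mul_cancel₀ hq0]
    have h2 : A.valuation (q : M') = 1 := by
      rw [← map_natCast (algebraMap M M')]
      exact (val_one B A hA _).2 hqv
    rw [h1, map_mul, map_inv₀, h2, inv_one, one_mul]
    exact Valuation.map_sum_le _ fun i _ => hPou i A hA
  · rw [map_mul, map_inv₀, map_natCast, map_sum, mul_left_comm, Finset.mul_sum]
    congr 1
    rw [Finset.sum_congr rfl fun i _ => hstep i]
    have h3 := Finset.sum_range_succ P q
    have h4 := Finset.sum_range_succ' P q
    have h5 : P 0 = 1 := by simp [hP]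
    rw [h3, hPq, h5] at h4
    exact (add_right_cancel h4).symm

end

private theorem HQ1_root {M : Type u} [Field M] (B : ValuationSubring M) {q : ℕ} (hq : q.Prime)
    (hqv : B.valuation (q : M) = 1) (z : M)
    (hz : IsPrimitiveRoot z q) (d : M) (hd : B.valuation d < 1) (c : M)
    (hc : B.valuation (c ^ q - 1) ≤ B.valuation d) :
    ∃ c' : M, B.valuation (c' - 1) ≤ B.valuation d ∧ c' ^ q = c ^ q := by
  obtain ⟨c', h1, h2⟩ := root_norm B hq z hz c (lt_of_le_of_lt hc hd)
  refine ⟨c', ?_, h2⟩
  have h3 : B.valuation c' = 1 := by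
    have h4 : B.valuation (1 + (c' - 1)) = 1 := Valuation.map_one_add_of_lt _ h1
    rwa [add_sub_cancel] at h4
  -- the geometric sum is q modulo the maximal ideal
  have hpow : ∀ i : ℕ, B.valuation (c' ^ i - 1) < 1 := by
    intro i
    induction i with
    | zero => simp
    | succ i ih =>
      have h5 : c' ^ (i + 1) - 1 = (c' ^ i - 1) * c' + (c' - 1) := by ring
      rw [h5]
      refine Valuation.map_add_lt _ ?_ h1
      rw [map_mul, h3, mul_one]
      exact ih
  have hsum : B.valuation (∑ i ∈ Finset.range q, c' ^ i) = 1 := by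
    have h6 : (∑ i ∈ Finset.range q, c' ^ i) = (q : M) + ∑ i ∈ Finset.range q, (c' ^ i - 1) := by
      rw [Finset.sum_sub_distrib, Finset.sum_const, Finset.card_range, nsmul_eq_mul, mul_one]
      ring
    have h7 : B.valuation (∑ i ∈ Finset.range q, (c' ^ i - 1)) < B.valuation (q : M) := by
      rw [hqv]
      exact Valuation.map_sum_lt _ one_ne_zero fun i _ => hpow i
    rw [h6, Valuation.map_add_eq_of_lt_left _ h7, hqv]
  have h8 : c' ^ q - 1 = (c' - 1) * ∑ i ∈ Finset.range q, c' ^ i := by
    rw [mul_comm, geom_sum_mul]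
  have h9 : B.valuation (c' ^ q - 1) = B.valuation (c' - 1) := by
    rw [h8, map_mul, hsum, mul_one]
  rw [← h9, h2]
  exact hc

/-- finitely many classes at the scale c go up in cyclic extensions of degree q -/
theorem cyc_c {M M' : Type u} [Field M] [Field M'] [Algebra M M'] [FiniteDimensional M M']
    [IsGalois M M'] {q : ℕ} (hq : q.Prime) (hd : Module.finrank M M' = q)
    (B : ValuationSubring M) (hqv : B.valuation (q : M) = 1) (z : M) (hz : IsPrimitiveRoot z q)
    (c : M) (hc : B.valuation c < 1) (hfin : (CB B q M c).Finite) :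
    (CB B q M' (algebraMap M M' c)).Finite := by
  classical
  have hcard : Nat.card (M' ≃ₐ[M] M') = q := by rw [IsGalois.card_aut_eq_finrank, hd]
  have : Fact q.Prime := ⟨hq⟩
  have hcyc : IsCyclic (M' ≃ₐ[M] M') := isCyclic_of_prime_card hcard
  obtain ⟨σ, hσ⟩ := hcyc.exists_generator
  have hσq : σ ^ q = 1 := by
    rw [← hcard]
    exact pow_card_eq_one'
  -- the groups of one-units
  let H' : Subgroup M'ˣ := {
    carrier := {u | HQ1_OC B c (u : M')}
    one_mem' := HQ1_oc_one
    mul_mem' := fun {a b} ha hb => by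
      show HQ1_OC B c (((a * b : M'ˣ)) : M')
      rw [Units.val_mul]
      exact HQ1_oc_mul hc ha hb
    inv_mem' := fun {a} ha => by
      show HQ1_OC B c (((a⁻¹ : M'ˣ)) : M')
      rw [Units.val_inv_eq_inv_val]
      exact HQ1_oc_inv hc ha }
  let j : Mˣ →* M'ˣ := Units.map (algebraMap M M' : M →* M')
  let H : Subgroup Mˣ := H'.comap j
  have hH : ∀ u : Mˣ, u ∈ H ↔ B.valuation ((u : M) - 1) ≤ B.valuation c :=
    fun u => HQ1_oc_base
  let s : H' →* H' := {
    toFun := fun u => ⟨Units.map (σ : M' →* M') u, HQ1_oc_sig σ u.2⟩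
    map_one' := by
      apply Subtype.ext
      exact map_one _
    map_mul' := fun a b => by
      apply Subtype.ext
      exact map_mul _ _ _ }
  have hsit : ∀ (n : ℕ) (x : H'), (((s^[n] x : H') : M'ˣ) : M') = (σ ^ n) ((x : M'ˣ) : M') := by
    intro n
    induction n with
    | zero => intro x; simp
    | succ n ih =>
      intro x
      rw [Function.iterate_succ_apply', pow_succ']
      show σ (((s^[n] x : H') : M'ˣ) : M') = σ ((σ ^ n) ((x : M'ˣ) : M'))
      rw [ih]
  have hsq : ∀ x, s^[q] x = x := by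
    intro x
    apply Subtype.ext
    apply Units.ext
    rw [hsit, hσq]
    rfl
  let ι : H →* H' := {
    toFun := fun u => ⟨j u, u.2⟩
    map_one' := by
      apply Subtype.ext
      exact map_one _
    map_mul' := fun a b => by
      apply Subtype.ext
      exact map_mul _ _ _ }
  let N : H' →* H := {
    toFun := fun u => ⟨Units.map (Algebra.norm M : M' →* M) u, (hH _).2 (HQ1_oc_norm hc u.2)⟩
    map_one' := by
      apply Subtype.ext
      exact map_one _
    map_mul' := fun a b => by
      apply Subtype.ext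
      exact map_mul _ _ _ }
  have hN : ∀ e, N (ι e) = e ^ q := by
    intro e
    apply Subtype.ext
    apply Units.ext
    show Algebra.norm M (algebraMap M M' ((e : Mˣ) : M)) = (((e ^ q : H) : Mˣ) : M)
    rw [Algebra.norm_algebraMap, hd]
    push_cast
    rfl
  have h90 : ∀ b : H', N b = 1 → ∃ y, b * s y = y := by
    intro b hb
    have hb' : Algebra.norm M ((b : M'ˣ) : M') = 1 :=
      congrArg (fun u : H => ((u : Mˣ) : M)) hb
    obtain ⟨y, hy, hy2⟩ := HQ1_h90 hq hd hqv hc σ hσ b.2 hb'
    refine ⟨⟨Units.mk0 y (ou_ne (HQ1_ou hc hy)), hy⟩, ?_⟩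
    apply Subtype.ext
    apply Units.ext
    exact hy2
  have hfinH : Finite (H ⧸ (powMonoidHom q : H →* H).range) := by
    let P : Subgroup Mˣ := (powMonoidHom q : Mˣ →* Mˣ).range
    have hk : (powMonoidHom q : H →* H).range ≤ ((QuotientGroup.mk' P).comp H.subtype).ker := by
      rintro x ⟨y, rfl⟩
      rw [MonoidHom.mem_ker, MonoidHom.comp_apply]
      exact (QuotientGroup.eq_one_iff _).2 ⟨(y : Mˣ), rfl⟩
    have hf := hfin.to_subtype
    let f : (H ⧸ (powMonoidHom q : H →* H).range) → CB B q M c := fun a =>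
      ⟨QuotientGroup.lift _ ((QuotientGroup.mk' P).comp H.subtype) hk a, by
        obtain ⟨x, rfl⟩ := QuotientGroup.mk_surjective a
        refine ⟨(x : Mˣ), rfl, fun A hA => ?_⟩
        have hAB : A = B := by
          rw [← hA]
          ext y
          rw [ValuationSubring.mem_comap]
          rfl
        rw [hAB]
        exact (hH _).1 x.2⟩
    apply Finite.of_injective f
    intro a b hab
    obtain ⟨x, rfl⟩ := QuotientGroup.mk_surjective a
    obtain ⟨y, rfl⟩ := QuotientGroup.mk_surjective b
    have h1 : (QuotientGroup.mk (x : Mˣ) : Mˣ ⧸ P) = QuotientGroup.mk (y : Mˣ) :=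
      congrArg Subtype.val hab
    rw [QuotientGroup.eq] at h1 ⊢
    obtain ⟨e, he⟩ := h1
    rw [powMonoidHom_apply] at he
    have h2 : ((x⁻¹ * y : H) : Mˣ) = e ^ q := by
      rw [he]
      rfl
    have h3 : B.valuation ((e : M) ^ q - 1) ≤ B.valuation c := by
      have h4 := (hH _).1 (x⁻¹ * y : H).2
      rw [h2] at h4
      push_cast at h4
      exact h4
    obtain ⟨c', hc1, hc2⟩ := HQ1_root B hq hqv z hz c hc (e : M) h3
    have hc0 : c' ≠ 0 := by
      intro h0
      rw [h0, zero_pow hq.ne_zero] at hc2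
      exact pow_ne_zero q e.ne_zero hc2.symm
    refine ⟨⟨Units.mk0 c' hc0, (hH _).2 hc1⟩, ?_⟩
    apply Subtype.ext
    rw [h2]
    apply Units.ext
    rw [powMonoidHom_apply]
    push_cast
    exact hc2
  have hA0 : Finite (H' ⧸ (powMonoidHom q : H' →* H').range) := by
    refine HQ1_core hq s hsq ι N hN h90 hfinH
      (QuotientGroup.mk' (powMonoidHom q : H' →* H').range) (QuotientGroup.mk'_surjective _)
      fun x => ?_
    exact (QuotientGroup.eq_one_iff x).trans ⟨fun ⟨y, hy⟩ => ⟨y, hy⟩, fun ⟨y, hy⟩ => ⟨y, hy⟩⟩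
  let P' : Subgroup M'ˣ := (powMonoidHom q : M'ˣ →* M'ˣ).range
  have hk' : (powMonoidHom q : H' →* H').range ≤
      ((QuotientGroup.mk' P').comp H'.subtype).ker := by
    rintro x ⟨y, rfl⟩
    rw [MonoidHom.mem_ker, MonoidHom.comp_apply]
    exact (QuotientGroup.eq_one_iff _).2 ⟨(y : M'ˣ), rfl⟩
  apply (Set.finite_range (QuotientGroup.lift (powMonoidHom q : H' →* H').range
    ((QuotientGroup.mk' P').comp H'.subtype) hk')).subset
  rintro e ⟨u, rfl, hu⟩
  exact ⟨QuotientGroup.mk (⟨u, hu⟩ : H'), rfl⟩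


end Pool.LibHC92
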