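import Pool.Agent.LibHC92.HQ1

/-
PLAN (HQ2, SHORT). dom: LibHB92.family1 (X1.lean) for B and any extension A0 of B to M' (LibNP88.ext_exists; use A := B := A0 there): the last property, direction → (w = b; (V i) lies over B), gives c j ∈ M with B.valuation (c j) < 1 and b^d + Σ_{j<d} c_j b^j = 0, d = Module.finrank M M' > 0. m := an index with B.valuation (c m) maximal
(Finset.exists_max_image, Fin d is nonempty), c := c m. For A over B: A.valuation b ≤ 1, so A.valuation b ^ d = A.valuation (Σ ..) ≤ max ≤ A.valuation (algebraMap c) (Valuation.map_sum_le; A.valuation (algebraMap x) ≤ A.valuation (algebraMap y) iff B.valuation x ≤ B.valuation y: for y = 0: x = 0; y ≠ 0: x / y, valuation_le_one_iff and mem_comap).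
cyc_small: b : M' in all maximal ideals; dom: d, c. Small B q M for the element c of M (A.comap (algebraMap M M) = B iff A = B, ValuationSubring.comap_id or ext; simp) gives k with CB B q M (c^k) finite; CB B q M (c^(k+1)) is contained in it (CB_mono), cyc_c for c^(k+1) (B.valuation < 1); then CB B q M' (b^(d (k+1))) ⊆ CB B q M' (algebraMap (c^(k+1))) by CB_mono.
-/

set_option autoImplicit false

noncomputable section

namespace Pool.LibHC92

universe u

open Pool.LibNP88 Pool.LibHB92

private theorem HQ2_le_iff {K : Type u} [Field K] (A : ValuationSubring K) (x y : K) (hy : y ≠ 0) :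
    A.valuation x ≤ A.valuation y ↔ x / y ∈ A := by
  rw [← A.valuation_le_one_iff, map_div₀,
    div_le_one₀ (zero_lt_iff.2 ((Valuation.ne_zero_iff _).2 hy))]

private theorem HQ2_comap_le {M M' : Type u} [Field M] [Field M'] [Algebra M M']
    (B : ValuationSubring M) (A : ValuationSubring M') (hA : A.comap (algebraMap M M') = B)
    (x y : M) : A.valuation (algebraMap M M' x) ≤ A.valuation (algebraMap M M' y) ↔
      B.valuation x ≤ B.valuation y := by
  by_cases hy : y = 0
  · subst hy
    rw [map_zero, map_zero, map_zero, le_zero_iff, le_zero_iff, map_eq_zero, map_eq_zero,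
      map_eq_zero]
  · have hy' : algebraMap M M' y ≠ 0 := by
      rw [Ne, map_eq_zero]
      exact hy
    rw [HQ2_le_iff A _ _ hy', HQ2_le_iff B _ _ hy, ← map_div₀, ← hA, ValuationSubring.mem_comap]

private theorem HQ2_self {M : Type u} [Field M] (B A : ValuationSubring M)
    (hA : A.comap (algebraMap M M) = B) : A = B := by
  rw [← hA]
  ext x
  rw [ValuationSubring.mem_comap]
  rfl

/-- an element of the radical is dominated by an element of the base field -/
theorem dom {M M' : Type u} [Field M] [Field M'] [Algebra M M'] [FiniteDimensional M M']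
    (B : ValuationSubring M) (b : M')
    (hb : ∀ A : ValuationSubring M', A.comap (algebraMap M M') = B → A.valuation b < 1) :
    ∃ (d : ℕ) (c : M), B.valuation c < 1 ∧ ∀ A : ValuationSubring M',
      A.comap (algebraMap M M') = B → A.valuation b ^ d ≤ A.valuation (algebraMap M M' c) := by
  obtain ⟨A0, hA0⟩ := ext_exists B M'
  obtain ⟨s, V, -, hV, -, -, hfam⟩ := family1 B A0 A0 hA0 hA0
  obtain ⟨c, hc, hw⟩ := (hfam b).1 fun i => hb _ (hV i)
  have hd : 0 < Module.finrank M M' := Module.finrank_pos
  have hne : Nonempty (Fin (Module.finrank M M')) := ⟨⟨0, hd⟩⟩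
  obtain ⟨m, -, hm⟩ := Finset.exists_max_image (Finset.univ : Finset (Fin (Module.finrank M M')))
    (fun j => B.valuation (c j)) Finset.univ_nonempty
  refine ⟨Module.finrank M M', c m, hc m, fun A hA => ?_⟩
  have hb1 : A.valuation b ≤ 1 := (hb A hA).le
  have h4 : b ^ Module.finrank M M' = - ∑ j, algebraMap M M' (c j) * b ^ (j : ℕ) :=
    eq_neg_of_add_eq_zero_left hw
  rw [← map_pow, h4, Valuation.map_neg]
  refine Valuation.map_sum_le _ fun j _ => ?_
  rw [map_mul, map_pow]
  refine (mul_le_of_le_one_right' (pow_le_one' hb1 _)).trans ?_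
  exact (HQ2_comap_le B A hA _ _).2 (hm j (Finset.mem_univ _))

/-- the smallness condition goes up in cyclic extensions of degree q -/
theorem cyc_small {M M' : Type u} [Field M] [Field M'] [Algebra M M'] [FiniteDimensional M M']
    [IsGalois M M'] {q : ℕ} (hq : q.Prime) (hd : Module.finrank M M' = q)
    (B : ValuationSubring M) (hqv : B.valuation (q : M) = 1) (z : M) (hz : IsPrimitiveRoot z q)
    (h : Small B q M) : Small B q M' := by
  intro b hb
  obtain ⟨d, c, hc, hdom⟩ := dom B b hb
  obtain ⟨k, hk⟩ := h c (fun A hA => by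
    rw [HQ2_self B A hA]
    exact hc)
  have hfin : (CB B q M (c ^ (k + 1))).Finite := by
    refine hk.subset (CB_mono B q M fun A hA => ?_)
    rw [HQ2_self B A hA, pow_succ, map_mul]
    exact mul_le_of_le_one_right' hc.le
  have hc1 : B.valuation (c ^ (k + 1)) < 1 := by
    rw [map_pow]
    exact pow_lt_one' hc (Nat.succ_ne_zero k)
  have hfin' := cyc_c hq hd B hqv z hz (c ^ (k + 1)) hc1 hfin
  refine ⟨d * (k + 1), hfin'.subset (CB_mono B q M' fun A hA => ?_)⟩
  rw [map_pow, pow_mul, map_pow, map_pow]
  exact pow_le_pow_left' (hdom A hA) _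

end Pool.LibHC92
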