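import Pool.Agent.LibHC92.HQ2
import Pool.Agent.LibHB92.QE

/-
PLAN (HQ3, SHORT/MEDIUM, copy of LibHB92/QE.lean q_tower'). Same induction with the finiteness condition replaced by Small, cyc_step' by cyc_small. n = 0: algebraMap K L is bijective; for b : L let b = algebraMap b0, Small O q K for b0 (b0 has O.valuation < 1: LibNP88.val_lt and ext_exists), and CB O q L (b^k) is contained in the image of CB O q K (b0^k) under
QuotientGroup.map as in QE.lean (A.comap (algebraMap K K) = O iff A = O; valuations: A.valuation (algebraMap x) ≤ A.valuation (algebraMap y) iff O.valuation x ≤ O.valuation y). n + 1: M = the fixed field of a central subgroup of order q, B the unique extension of O to M; Small O q M gives Small B q M (CB is the same set because A.comap (algebraMap K M) = O iff A = B iff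
A.comap (algebraMap M M) = B), cyc_small gives Small B q L, which is Small O q L by hover.
-/

set_option autoImplicit false

noncomputable section

namespace Pool.LibHC92

universe u

open Pool.LibNP88 Pool.LibHB92

private theorem HQ3_le {K L : Type u} [Field K] [Field L] [Algebra K L] (O : ValuationSubring K)
    (A : ValuationSubring L) (hA : A.comap (algebraMap K L) = O) (x y : K) :
    A.valuation (algebraMap K L x) ≤ A.valuation (algebraMap K L y) ↔
      O.valuation x ≤ O.valuation y := by
  rcases eq_or_ne y 0 with rfl | hy
  · rw [map_zero, map_zero, map_zero, le_zero_iff, le_zero_iff, map_eq_zero, map_eq_zero,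
      map_eq_zero]
  · have hy' : algebraMap K L y ≠ 0 := (map_ne_zero_iff _ (algebraMap K L).injective).2 hy
    have h1 : 0 < A.valuation (algebraMap K L y) := by
      rw [zero_lt_iff]
      exact (map_ne_zero _).2 hy'
    have h2 : 0 < O.valuation y := by
      rw [zero_lt_iff]
      exact (map_ne_zero _).2 hy
    rw [← div_le_one₀ h1, ← div_le_one₀ h2, ← map_div₀, ← map_div₀, ← map_div₀,
      ValuationSubring.valuation_le_one_iff, ValuationSubring.valuation_le_one_iff, ← hA,
      ValuationSubring.mem_comap]

/-- from the local form to all Galois extensions of q-power degree -/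
theorem q_tower2 {K : Type u} [Field K] (O : ValuationSubring K) {q : ℕ} (hq : q.Prime)
    (hqv : O.valuation (q : K) = 1) (z : K) (hz : IsPrimitiveRoot z q) (hfin : Small O q K)
    (hloc : ∀ (L : Type u) [Field L] [Algebra K L] [FiniteDimensional K L],
      (∃ z : L, IsPrimitiveRoot z q) → Small O q L →
      ∃! A : ValuationSubring L, A.comap (algebraMap K L) = O) (n : ℕ) :
    ∀ (L : Type u) [Field L] [Algebra K L] [FiniteDimensional K L] [IsGalois K L],
      Module.finrank K L = q ^ n → Small O q L ∧
        ∃! A : ValuationSubring L, A.comap (algebraMap K L) = O := by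
  haveI : Fact q.Prime := ⟨hq⟩
  induction n with
  | zero =>
    intro L _ _ _ _ hd
    rw [pow_zero] at hd
    have hb := Module.Free.bijective_algebraMap_of_finrank_eq_one hd
    have hu : ∀ y : Lˣ, ∃ x : Kˣ, Units.map (algebraMap K L : K →* L) x = y := by
      intro y
      obtain ⟨x, hx⟩ := hb.2 (y : L)
      have hx0 : x ≠ 0 := by
        rintro rfl
        rw [map_zero] at hx
        exact y.ne_zero hx.symm
      refine ⟨Units.mk0 x hx0, ?_⟩
      ext
      simpa using hx
    have hle : (powMonoidHom q : Kˣ →* Kˣ).range ≤
        ((powMonoidHom q : Lˣ →* Lˣ).range).comap (Units.map (algebraMap K L : K →* L)) := by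
      rintro _ ⟨x, rfl⟩
      refine ⟨Units.map (algebraMap K L : K →* L) x, ?_⟩
      simp
    constructor
    · intro b hbA
      obtain ⟨b0, rfl⟩ := hb.2 b
      obtain ⟨A, hAO⟩ := ext_exists O L
      have hb0 : O.valuation b0 < 1 := (val_lt O A hAO _).1 (hbA A hAO)
      have hself : ∀ A' : ValuationSubring K, A'.comap (algebraMap K K) = O → A' = O := by
        intro A' hA'
        rw [← hA']
        ext x
        exact Iff.rfl
      obtain ⟨k, hk⟩ := hfin b0 (fun A' hA' => by
        rw [hself A' hA']
        exact hb0)
      refine ⟨k, (hk.image (QuotientGroup.map (powMonoidHom q : Kˣ →* Kˣ).range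
        (powMonoidHom q : Lˣ →* Lˣ).range (Units.map (algebraMap K L : K →* L)) hle)).subset ?_⟩
      rintro c ⟨u, rfl, hA⟩
      obtain ⟨x, rfl⟩ := hu u
      refine ⟨QuotientGroup.mk x, ⟨x, rfl, fun A' hA' => ?_⟩, rfl⟩
      rw [hself A' hA']
      have h1 := hA A hAO
      have h2 : ((Units.map (algebraMap K L : K →* L) x : Lˣ) : L) - 1 =
          algebraMap K L ((x : K) - 1) := by
        rw [map_sub, map_one]
        rfl
      rw [h2, ← map_pow] at h1
      exact (HQ3_le O A hAO _ _).1 h1
    · obtain ⟨A, hAO⟩ := ext_exists O L
      refine ⟨A, hAO, ?_⟩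
      intro A' hA'
      have hA'2 : A'.comap (algebraMap K L) = O := hA'
      ext y
      obtain ⟨x, rfl⟩ := hb.2 y
      rw [← ValuationSubring.mem_comap, ← ValuationSubring.mem_comap, hA'2, hAO]
  | succ n ih =>
    intro L _ _ _ _ hd
    have hcard : Nat.card (L ≃ₐ[K] L) = q ^ (n + 1) := by
      rw [IsGalois.card_aut_eq_finrank, hd]
    have hp : IsPGroup q (L ≃ₐ[K] L) := IsPGroup.of_card hcard
    haveI : Nontrivial (L ≃ₐ[K] L) := by
      rw [← Finite.one_lt_card_iff_nontrivial, hcard]
      exact Nat.one_lt_pow (Nat.succ_ne_zero n) hq.one_lt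
    have hc := hp.center_nontrivial
    have hcp : IsPGroup q (Subgroup.center (L ≃ₐ[K] L)) := hp.to_subgroup _
    obtain ⟨k, hk, hkc⟩ := hcp.nontrivial_iff_card.1 hc
    have hdvd : q ∣ Nat.card (Subgroup.center (L ≃ₐ[K] L)) := by
      rw [hkc]
      exact dvd_pow_self q hk.ne'
    obtain ⟨g, hg⟩ := exists_prime_orderOf_dvd_card' q hdvd
    obtain ⟨H, hH⟩ : ∃ H, H = Subgroup.zpowers (g : L ≃ₐ[K] L) := ⟨_, rfl⟩
    have hHcard : Nat.card H = q := by
      rw [hH, Nat.card_zpowers, Subgroup.orderOf_coe, hg]
    have hHle : H ≤ Subgroup.center (L ≃ₐ[K] L) := by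
      rw [hH, Subgroup.zpowers_le]
      exact g.2
    haveI hN : H.Normal := ⟨fun x hx y => by
      have h1 := Subgroup.mem_center_iff.1 (hHle hx) y
      rw [h1, mul_inv_cancel_right]
      exact hx⟩
    have h2 : Module.finrank (IntermediateField.fixedField H) L = q := by
      rw [IntermediateField.finrank_fixedField_eq_card, hHcard]
    have h3 : Module.finrank K (IntermediateField.fixedField H) = q ^ n := by
      have h4 := Module.finrank_mul_finrank K (IntermediateField.fixedField H) L
      rw [h2, hd, pow_succ] at h4
      exact Nat.eq_of_mul_eq_mul_right hq.pos h4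
    obtain ⟨hfM, B, hB, hBu⟩ := ih (IntermediateField.fixedField H) h3
    have hB' : B.comap (algebraMap K (IntermediateField.fixedField H)) = O := hB
    have hover : ∀ A : ValuationSubring L,
        A.comap (algebraMap K L) = O ↔ A.comap (algebraMap (IntermediateField.fixedField H) L) = B := by
      intro A
      have h5 : (A.comap (algebraMap (IntermediateField.fixedField H) L)).comap
          (algebraMap K (IntermediateField.fixedField H)) = A.comap (algebraMap K L) := by
        rw [ValuationSubring.comap_comap, ← IsScalarTower.algebraMap_eq]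
      constructor
      · intro h6
        exact hBu _ (h5.trans h6)
      · intro h6
        rw [← h5, h6, hB']
    have hBB : B.comap (algebraMap (IntermediateField.fixedField H)
        (IntermediateField.fixedField H)) = B := by
      ext x
      exact Iff.rfl
    have hfM' : Small B q (IntermediateField.fixedField H) := by
      intro b hb
      obtain ⟨k, hk⟩ := hfM b (fun A hA => by
        rw [hBu A hA]
        exact hb B hBB)
      refine ⟨k, hk.subset ?_⟩
      rintro c ⟨u, hu, hv⟩
      refine ⟨u, hu, fun A hA => ?_⟩
      rw [hBu A hA]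
      exact hv B hBB
    have hqv' : B.valuation (q : IntermediateField.fixedField H) = 1 := by
      have h5 := (val_one O B hB' (q : K)).2 hqv
      rwa [map_natCast] at h5
    have hz' : IsPrimitiveRoot (algebraMap K (IntermediateField.fixedField H) z) q :=
      hz.map_of_injective (algebraMap K (IntermediateField.fixedField H)).injective
    have hfL := cyc_small hq h2 B hqv' _ hz' hfM'
    have hfL' : Small O q L := by
      intro b hb
      obtain ⟨k, hk⟩ := hfL b (fun A hA => hb A ((hover A).2 hA))
      refine ⟨k, hk.subset ?_⟩
      rintro c ⟨u, hu, hv⟩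
      exact ⟨u, hu, fun A hA => hv A ((hover A).2 hA)⟩
    exact ⟨hfL', hloc L ⟨algebraMap K L z, hz.map_of_injective (algebraMap K L).injective⟩ hfL'⟩

end Pool.LibHC92
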