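import Pool.Agent.LibHC92.HDef
import Pool.Agent.LibHB92.VC
import Pool.Agent.LibHB92.VA

/-
PLAN (HW, SHORT). Copy of the proof of LibHB92.fin_F (VC.lean; copy the private lemmas VC_finite, VC_val, VC_r, VC_r_eq, VC_pow, VC_eq). T := the subgroup {u : Hs V | ∀ i, (V i).valuation (u - 1) ≤ (V i).valuation b} of Hs V (closed under products: a b - 1 = a (b - 1) + (a - 1), val_of_J; inverse: a⁻¹ - 1 = - a⁻¹ (a - 1)), G := its image in Fq V q
(Subgroup.map (QuotientGroup.mk' _)). Finite: as in fin_F with representatives rep x in T of the elements x of G: the class of rep x in Lˣ modulo q-th powers is in the finite set, and the q-th root z of the quotient by the fixed representative w of the class has z^q in Hs V, so only finitely many families of residues; the same class and the same residues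
give the same element of Fq V q. Last statement: x with (V i).valuation (x - 1) ≤ (V i).valuation b < 1 for all i is in Hs V (s > 0, x ≠ 0), use ph_mk (VA.lean).
-/

set_option autoImplicit false

noncomputable section

namespace Pool.LibHC92

universe u

open Pool.LibNP88 Pool.LibHB92

private theorem HW_finite {L : Type u} [Field L] (A : ValuationSubring L) {q : ℕ} (hq : 0 < q) :
    Finite {y : IsLocalRing.ResidueField A // y ^ q = 1} := by
  classical
  have h : {y : IsLocalRing.ResidueField A | y ^ q = 1} ⊆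
      ((Polynomial.nthRootsFinset q (1 : IsLocalRing.ResidueField A) : Finset _) : Set _) := by
    intro y hy
    rw [Finset.mem_coe, Polynomial.mem_nthRootsFinset hq]
    exact hy
  exact ((Finset.finite_toSet _).subset h).to_subtype

private theorem HW_val {L : Type u} [Field L] (A : ValuationSubring L) {q : ℕ} (hq : 0 < q) {z : L}
    (h : A.valuation (z ^ q - 1) < 1) : A.valuation z = 1 := by
  have h1 := val_of_J A h
  rw [map_pow] at h1
  exact (pow_eq_one_iff_of_nonneg zero_le' hq.ne').mp h1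

open Classical in
/-- the residue -/
private def HW_r {L : Type u} [Field L] (A : ValuationSubring L) (z : L) : IsLocalRing.ResidueField A :=
  if h : z ∈ A then IsLocalRing.residue A ⟨z, h⟩ else 0

private theorem HW_r_eq {L : Type u} [Field L] (A : ValuationSubring L) {z : L} (h : z ∈ A) :
    HW_r A z = IsLocalRing.residue A ⟨z, h⟩ := by
  unfold HW_r
  rw [dif_pos h]

private theorem HW_pow {L : Type u} [Field L] (A : ValuationSubring L) {q : ℕ} (hq : 0 < q) {z : L}
    (h : A.valuation (z ^ q - 1) < 1) : HW_r A z ^ q = 1 := by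
  have hz : z ∈ A := (A.valuation_le_one_iff z).mp (HW_val A hq h).le
  rw [HW_r_eq A hz, ← map_pow, ← sub_eq_zero, ← map_one (IsLocalRing.residue A), ← map_sub,
    IsLocalRing.residue_eq_zero_iff, A.valuation_lt_one_iff]
  simpa using h

private theorem HW_eq {L : Type u} [Field L] (A : ValuationSubring L) {q : ℕ} (hq : 0 < q) {z z' : L}
    (h : A.valuation (z ^ q - 1) < 1) (h' : A.valuation (z' ^ q - 1) < 1) (he : HW_r A z = HW_r A z') :
    A.valuation (z * z'⁻¹ - 1) < 1 := by
  have v1 := HW_val A hq h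
  have v1' := HW_val A hq h'
  have hz : z ∈ A := (A.valuation_le_one_iff z).mp v1.le
  have hz' : z' ∈ A := (A.valuation_le_one_iff z').mp v1'.le
  have hz0 : z' ≠ 0 := by
    rintro rfl
    rw [map_zero] at v1'
    exact zero_ne_one v1'
  rw [HW_r_eq A hz, HW_r_eq A hz', ← sub_eq_zero, ← map_sub, IsLocalRing.residue_eq_zero_iff,
    A.valuation_lt_one_iff] at he
  have h2 : A.valuation (z - z') < 1 := by simpa using he
  have h3 : z * z'⁻¹ - 1 = (z - z') * z'⁻¹ := by field_simp
  rw [h3, map_mul, map_inv₀, v1', inv_one, mul_one]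
  exact h2

/-- at the scale b only finitely many classes modulo q-th powers of one-units -/
theorem fin_b {L : Type u} [Field L] {s : ℕ} (hs : 0 < s) (V : Fin s → ValuationSubring L)
    {q : ℕ} (hq : 0 < q) (b : L) (hb : ∀ i, (V i).valuation b < 1)
    (hfin : {c : Lˣ ⧸ (powMonoidHom q : Lˣ →* Lˣ).range |
      ∃ u : Lˣ, (QuotientGroup.mk u : Lˣ ⧸ (powMonoidHom q : Lˣ →* Lˣ).range) = c ∧
        ∀ i, (V i).valuation ((u : L) - 1) ≤ (V i).valuation b}.Finite) :
    ∃ G : Subgroup (Fq V q), Finite G ∧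
      ∀ x : L, (∀ i, (V i).valuation (x - 1) ≤ (V i).valuation b) → ph V q x ∈ G := by
  classical
  -- the subgroup at scale b
  let T : Subgroup (Hs V) :=
    { carrier := {u | ∀ i, (V i).valuation (((u : Lˣ) : L) - 1) ≤ (V i).valuation b}
      mul_mem' := by
        intro u v hu hv i
        have e : (((u * v : Hs V) : Lˣ) : L) - 1 =
            ((u : Lˣ) : L) * (((v : Lˣ) : L) - 1) + (((u : Lˣ) : L) - 1) := by
          have e1 : (((u * v : Hs V) : Lˣ) : L) = ((u : Lˣ) : L) * ((v : Lˣ) : L) := rfl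
          rw [e1]
          ring
        rw [e]
        refine le_trans (Valuation.map_add _ _ _) (max_le ?_ (hu i))
        rw [map_mul, val_of_J (V i) (u.2 i), one_mul]
        exact hv i
      one_mem' := by
        intro i
        have e1 : (((1 : Hs V) : Lˣ) : L) - 1 = 0 := by
          show (1 : L) - 1 = 0
          exact sub_self 1
        rw [e1, map_zero]
        exact zero_le'
      inv_mem' := by
        intro u hu i
        have hv : (V i).valuation ((u : Lˣ) : L) = 1 := val_of_J (V i) (u.2 i)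
        have h0 : ((u : Lˣ) : L) ≠ 0 := (u : Lˣ).ne_zero
        have e1 : (((u⁻¹ : Hs V) : Lˣ) : L) = ((u : Lˣ) : L)⁻¹ := by
          show (((u : Lˣ)⁻¹ : Lˣ) : L) = ((u : Lˣ) : L)⁻¹
          exact Units.val_inv_eq_inv_val _
        have e : (((u⁻¹ : Hs V) : Lˣ) : L) - 1 = -(((u : Lˣ) : L)⁻¹ * (((u : Lˣ) : L) - 1)) := by
          rw [e1]
          field_simp
          ring
        rw [e, Valuation.map_neg, map_mul, map_inv₀, hv, inv_one, one_mul]
        exact hu i }
  let G : Subgroup (Fq V q) := T.map (QuotientGroup.mk' (powMonoidHom q : Hs V →* Hs V).range)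
  refine ⟨G, ?_, ?_⟩
  · set C : Set (Lˣ ⧸ (powMonoidHom q : Lˣ →* Lˣ).range) := {c | ∃ u : Lˣ,
      (QuotientGroup.mk u : Lˣ ⧸ (powMonoidHom q : Lˣ →* Lˣ).range) = c ∧
        ∀ i, (V i).valuation ((u : L) - 1) ≤ (V i).valuation b} with hC
    have hCf : Finite C := hfin.to_subtype
    have hTf : ∀ i, Finite {y : IsLocalRing.ResidueField (V i) // y ^ q = 1} :=
      fun i => HW_finite (V i) hq
    have hrep : ∀ x : G, ∃ u : Hs V, u ∈ T ∧ (QuotientGroup.mk u : Fq V q) = x := by
      intro x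
      obtain ⟨u, hu, hx⟩ := x.2
      exact ⟨u, hu, hx⟩
    choose rep hrepT hrep using hrep
    have hw : ∀ c : C, ∃ u : Lˣ, (QuotientGroup.mk u : Lˣ ⧸ (powMonoidHom q : Lˣ →* Lˣ).range) = c ∧
      ∀ i, (V i).valuation ((u : L) - 1) ≤ (V i).valuation b := fun c => c.2
    choose w hw1 hw2 using hw
    have hwJ : ∀ c : C, w c ∈ Hs V := fun c i => lt_of_le_of_lt (hw2 c i) (hb i)
    let cl : G → C := fun x =>
      ⟨QuotientGroup.mk ((rep x : Hs V) : Lˣ), ⟨(rep x : Hs V), rfl, hrepT x⟩⟩
    have hz : ∀ x : G, ∃ z : Lˣ, z ^ q = (w (cl x))⁻¹ * ((rep x : Hs V) : Lˣ) := by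
      intro x
      have h1 : (QuotientGroup.mk (w (cl x)) : Lˣ ⧸ (powMonoidHom q : Lˣ →* Lˣ).range) =
          QuotientGroup.mk ((rep x : Hs V) : Lˣ) := hw1 (cl x)
      rw [QuotientGroup.eq] at h1
      obtain ⟨z, hz⟩ := h1
      exact ⟨z, hz⟩
    choose z hz using hz
    have hzJ : ∀ x i, (V i).valuation (((z x : Lˣ) : L) ^ q - 1) < 1 := by
      intro x i
      have h1 : (w (cl x))⁻¹ * ((rep x : Hs V) : Lˣ) ∈ Hs V :=
        (Hs V).mul_mem ((Hs V).inv_mem (hwJ (cl x))) (rep x).2
      rw [← hz x] at h1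
      have h2 := h1 i
      simpa using h2
    let f : G → C × (∀ i, {y : IsLocalRing.ResidueField (V i) // y ^ q = 1}) := fun x =>
      (cl x, fun i => ⟨HW_r (V i) (z x : Lˣ), HW_pow (V i) hq (hzJ x i)⟩)
    refine Finite.of_injective f ?_
    intro x y hxy
    have h1 : cl x = cl y := congrArg Prod.fst hxy
    have h2 : ∀ i, HW_r (V i) ((z x : Lˣ) : L) = HW_r (V i) ((z y : Lˣ) : L) := by
      intro i
      have h3 := congrArg (fun p => (p.2 i).1) hxy
      exact h3
    have h3 : z x * (z y)⁻¹ ∈ Hs V := by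
      intro i
      have := HW_eq (V i) hq (hzJ x i) (hzJ y i) (h2 i)
      simpa using this
    apply Subtype.ext
    rw [← hrep x, ← hrep y, eq_comm, QuotientGroup.eq]
    refine ⟨⟨z x * (z y)⁻¹, h3⟩, ?_⟩
    apply Subtype.ext
    show (z x * (z y)⁻¹) ^ q = ((rep y : Hs V) : Lˣ)⁻¹ * ((rep x : Hs V) : Lˣ)
    rw [mul_pow, inv_pow, hz x, hz y, h1]
    rw [mul_inv_rev, inv_inv]
    rw [mul_comm (w (cl y))⁻¹, mul_assoc, mul_comm ((rep y : Hs V) : Lˣ)⁻¹,
      ← mul_assoc (w (cl y))⁻¹, inv_mul_cancel, one_mul]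
    rw [mul_comm]
  · intro x hx
    have hJ : J1 V x := fun i => lt_of_le_of_lt (hx i) (hb i)
    have hph : ph V q x = QuotientGroup.mk (⟨Units.mk0 x (J1.ne_zero hs hJ), hJ⟩ : Hs V) :=
      ph_mk (q := q) (⟨Units.mk0 x (J1.ne_zero hs hJ), hJ⟩ : Hs V)
    rw [hph]
    exact ⟨⟨Units.mk0 x (J1.ne_zero hs hJ), hJ⟩, hx, rfl⟩

end Pool.LibHC92
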