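import Pool.Agent.LibHC92.HDef

/-
PLAN (HV, MEDIUM, elementary). R := Rv V (LibNP88/V8.lean), places i : Fin s, v i := (V i).valuation. STEP 1 (trick): for x : L there are n ≥ 2 and z := Σ_{j<n} x^j with: for all i, if x ∈ V i then v i z = 1, and if x ∉ V i then v i z = v i x ^ (n-1) > 1 and so v i (z⁻¹) < 1; in all cases z⁻¹ ∈ V i and x z⁻¹ ∈ V i.
Choice of n: for each i with x ∈ V i let x̄ be its residue; need Σ_{j<n} x̄^j ≠ 0: if x̄ = 1 it is the number n in the residue field, if x̄ ≠ 1 it is (x̄^n - 1)/(x̄ - 1). Take n := 1 + Π_i e_i with e_i := (ringChar of the residue field if positive, else 1) * (orderOf x̄ if x̄ is nonzero and of finite order, else 1) and if the product is 1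
double it (n ≥ 2 always: n = 1 + Π with Π ≥ 1): then n = 1 in the residue field or char 0 and n ≠ 0; x̄^n = x̄ * (x̄^{e_i})^{..} = x̄ ≠ 1 if x̄ has finite order; if x̄ is a unit of infinite order x̄^n ≠ 1 as n ≥ 1; if x̄ = 0 the sum is 1. (Alternative: the condition fails only for ... choose n by any other argument.)
v i z for x ∉ V i: v i x > 1, the last term dominates (Valuation.map_sum_lt / map_add_eq_of_lt_left). STEP 2: for i ≠ j there is x ∈ V i, x ∉ V j (hV i j fails to be ≤), so r i j := z⁻¹ ∈ R with v i r = 1, v j r < 1. STEP 3: e i := Π_{j ≠ i} r i j: v i (e i) = 1, v j (e i) < 1 for j ≠ i. w := Σ e i has v i w = 1 for all i, so w is a unit of R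
(w⁻¹ ∈ V i for all i); f i := e i w⁻¹ in R: rv V i (f i) = 1 (as Σ f = 1 and the others are 0 there), rv V j (f i) = 0 for j ≠ i (LibNP88.rv_zero). STEP 4: lift b to x ∈ V i0 (IsLocalRing.residue_surjective), z as in STEP 1 for x; a := z⁻¹ f i0 + (1 - f i0) in R has valuation 1 everywhere (residue of z⁻¹ ≠ 0 at i0, 1 at j), so a⁻¹ in R;
y := (x z⁻¹) a⁻¹ in R has residue b at i0; answer: y f i0 + (1 - f i0).
-/

set_option autoImplicit false

noncomputable section

namespace Pool.LibHC92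

universe u

open Pool.LibNP88

private theorem HV_geom {k : Type*} [CommRing k] (x : k) (e : ℕ)
    (h : ∑ j ∈ Finset.range e, x ^ j = 0) (m : ℕ) :
    ∑ j ∈ Finset.range (m * e), x ^ j = 0 := by
  induction m with
  | zero => simp
  | succ m ih =>
    rw [Nat.succ_mul, Finset.sum_range_add, ih, zero_add]
    simp_rw [pow_add]
    rw [← Finset.mul_sum, h, mul_zero]

private theorem HV_geom1 {k : Type*} [CommRing k] (x : k) (e : ℕ)
    (h : ∑ j ∈ Finset.range e, x ^ j = 0) (m : ℕ) :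
    ∑ j ∈ Finset.range (m * e + 1), x ^ j = 1 := by
  rw [Finset.sum_range_succ, HV_geom x e h, zero_add]
  have h1 : x ^ e = 1 := by
    have h2 := geom_sum_mul x e
    rw [h, zero_mul] at h2
    exact sub_eq_zero.1 h2.symm
  rw [mul_comm, pow_mul, h1, one_pow]

private theorem HV_n {ι : Type*} [Fintype ι] (k : ι → Type u) [∀ i, Field (k i)] (x : ∀ i, k i) :
    ∃ n : ℕ, 1 ≤ n ∧ ∀ i, ∑ j ∈ Finset.range (n + 1), x i ^ j ≠ 0 := by
  classical
  have h : ∀ i, ∃ e : ℕ, 0 < e ∧ ((∃ e' : ℕ, 0 < e' ∧ ∑ j ∈ Finset.range e', x i ^ j = 0) →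
      ∑ j ∈ Finset.range e, x i ^ j = 0) := by
    intro i
    by_cases hi : ∃ e' : ℕ, 0 < e' ∧ ∑ j ∈ Finset.range e', x i ^ j = 0
    · obtain ⟨e', h1, h2⟩ := hi
      exact ⟨e', h1, fun _ => h2⟩
    · exact ⟨1, one_pos, fun h => absurd h hi⟩
  choose e he1 he2 using h
  refine ⟨∏ i, e i, Finset.prod_pos fun i _ => he1 i, fun i => ?_⟩
  by_cases hi : ∃ e' : ℕ, 0 < e' ∧ ∑ j ∈ Finset.range e', x i ^ j = 0
  · obtain ⟨m, hm⟩ := Finset.dvd_prod_of_mem e (Finset.mem_univ i)
    rw [hm, mul_comm, HV_geom1 _ _ (he2 i hi)]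
    exact one_ne_zero
  · intro h
    exact hi ⟨_, Nat.succ_pos _, h⟩

private theorem HV_ge {L : Type u} [Field L] {s : ℕ} (V : Fin s → ValuationSubring L) (i : Fin s)
    (x : Rv V) (h : rv V i x ≠ 0) : 1 ≤ (V i).valuation (x : L) := by
  rw [Ne, rv_zero, not_lt] at h
  exact h

private theorem HV_unit {L : Type u} [Field L] {s : ℕ} (V : Fin s → ValuationSubring L)
    (i0 : Fin s) (x : Rv V) (hx : ∀ i, rv V i x ≠ 0) : ∃ y : Rv V, x * y = 1 := by
  have h0 : (x : L) ≠ 0 := by
    intro h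
    apply hx i0
    have : x = 0 := Subtype.ext h
    rw [this, map_zero]
  refine ⟨⟨(x : L)⁻¹, (mem_Rv V _).2 fun i => ?_⟩, ?_⟩
  · rw [← ValuationSubring.valuation_le_one_iff, map_inv₀]
    exact inv_le_one_of_one_le₀ (HV_ge V i x (hx i))
  · apply Subtype.ext
    exact mul_inv_cancel₀ h0

private theorem HV_trick {L : Type u} [Field L] {s : ℕ} (V : Fin s → ValuationSubring L) (x : L) :
    ∃ u t : Rv V, (t : L) = x * u ∧
      ∀ i, (x ∈ V i → rv V i u ≠ 0) ∧ (x ∉ V i → rv V i u = 0) := by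
  classical
  obtain ⟨n, hn1, hn⟩ := HV_n (fun i => IsLocalRing.ResidueField (V i))
    (fun i => if h : x ∈ V i then IsLocalRing.residue (V i) ⟨x, h⟩ else 0)
  set z : L := ∑ j ∈ Finset.range (n + 1), x ^ j with hz
  have hin : ∀ i, x ∈ V i → (V i).valuation z = 1 := by
    intro i hi
    have h1 := hn i
    simp only [dif_pos hi] at h1
    have h2 : IsLocalRing.residue (V i) (∑ j ∈ Finset.range (n + 1), (⟨x, hi⟩ : V i) ^ j) ≠ 0 := by
      rw [map_sum]
      simp only [map_pow]
      exact h1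
    rw [Ne, IsLocalRing.residue_eq_zero_iff, (V i).valuation_lt_one_iff, not_lt] at h2
    have h3 : ((∑ j ∈ Finset.range (n + 1), (⟨x, hi⟩ : V i) ^ j : V i) : L) = z := by
      simp [hz]
    refine le_antisymm ?_ (h3 ▸ h2)
    rw [← h3]
    exact (V i).valuation_le_one _
  have hout : ∀ i, x ∉ V i → (V i).valuation z = (V i).valuation x ^ n := by
    intro i hi
    have hx1 : 1 < (V i).valuation x := by
      rw [← not_le, ValuationSubring.valuation_le_one_iff]
      exact hi
    rw [hz, Finset.sum_range_succ, ← map_pow]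
    apply Valuation.map_add_eq_of_lt_right
    apply Valuation.map_sum_lt
    · rw [map_pow]
      exact pow_ne_zero _ (zero_lt_one.trans hx1).ne'
    · intro j hj
      rw [map_pow, map_pow]
      exact pow_lt_pow_right₀ hx1 (Finset.mem_range.1 hj)
  have hu : z⁻¹ ∈ Rv V := by
    rw [mem_Rv]
    intro i
    rw [← ValuationSubring.valuation_le_one_iff, map_inv₀]
    by_cases hi : x ∈ V i
    · rw [hin i hi, inv_one]
    · have hx1 : 1 < (V i).valuation x := by
        rw [← not_le, ValuationSubring.valuation_le_one_iff]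
        exact hi
      rw [hout i hi]
      exact inv_le_one_of_one_le₀ (one_le_pow₀ hx1.le)
  have ht : x * z⁻¹ ∈ Rv V := by
    rw [mem_Rv]
    intro i
    rw [← ValuationSubring.valuation_le_one_iff, map_mul, map_inv₀]
    by_cases hi : x ∈ V i
    · rw [hin i hi, inv_one, mul_one, ValuationSubring.valuation_le_one_iff]
      exact hi
    · have hx1 : 1 < (V i).valuation x := by
        rw [← not_le, ValuationSubring.valuation_le_one_iff]
        exact hi
      rw [hout i hi, ← div_eq_mul_inv]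
      exact div_le_one_of_le₀ (le_self_pow₀ hx1.le (by omega)) zero_le
  refine ⟨⟨z⁻¹, hu⟩, ⟨x * z⁻¹, ht⟩, rfl, fun i => ⟨fun hi => ?_, fun hi => ?_⟩⟩
  · rw [Ne, rv_zero, not_lt]
    change 1 ≤ (V i).valuation z⁻¹
    rw [map_inv₀, hin i hi, inv_one]
  · rw [rv_zero]
    change (V i).valuation z⁻¹ < 1
    have hx1 : 1 < (V i).valuation x := by
      rw [← not_le, ValuationSubring.valuation_le_one_iff]
      exact hi
    rw [map_inv₀, hout i hi]
    exact inv_lt_one_of_one_lt₀ (one_lt_pow₀ hx1 (by omega))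

private theorem HV_f {L : Type u} [Field L] {s : ℕ} (V : Fin s → ValuationSubring L)
    (hV : ∀ i j, V i ≤ V j → i = j) (i0 : Fin s) :
    ∃ f : Rv V, rv V i0 f = 1 ∧ ∀ j, j ≠ i0 → rv V j f = 0 := by
  classical
  have h1 : ∀ i j : Fin s, ∃ r : Rv V, rv V i r ≠ 0 ∧ (i ≠ j → rv V j r = 0) := by
    intro i j
    by_cases hij : i = j
    · exact ⟨1, by rw [map_one]; exact one_ne_zero, fun h => absurd hij h⟩
    · have h2 : ¬ V i ≤ V j := fun h => hij (hV i j h)
      obtain ⟨x, hx1, hx2⟩ := SetLike.not_le_iff_exists.1 h2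
      obtain ⟨u, t, -, hu⟩ := HV_trick V x
      exact ⟨u, (hu i).1 hx1, fun _ => (hu j).2 hx2⟩
  choose r hr1 hr2 using h1
  let e : Fin s → Rv V := fun i => ∏ j, r i j
  have he1 : ∀ i, rv V i (e i) ≠ 0 := by
    intro i
    rw [map_prod]
    exact Finset.prod_ne_zero_iff.2 fun j _ => hr1 i j
  have he2 : ∀ i j, i ≠ j → rv V j (e i) = 0 := by
    intro i j hij
    rw [map_prod]
    exact Finset.prod_eq_zero (Finset.mem_univ j) (hr2 i j hij)
  have hw : ∀ i, rv V i (∑ k, e k) = rv V i (e i) := by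
    intro i
    rw [map_sum]
    exact Finset.sum_eq_single i (fun k _ hk => he2 k i hk) fun h => absurd (Finset.mem_univ i) h
  obtain ⟨y, hy⟩ := HV_unit V i0 (∑ k, e k) fun i => by rw [hw i]; exact he1 i
  refine ⟨e i0 * y, ?_, fun j hj => ?_⟩
  · rw [map_mul, ← hw i0, ← map_mul, hy, map_one]
  · rw [map_mul, he2 i0 j hj.symm, zero_mul]

/-- elements with a given residue at one place and residue 1 at the others -/
theorem crt2 {L : Type u} [Field L] {s : ℕ} (V : Fin s → ValuationSubring L)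
    (hV : ∀ i j, V i ≤ V j → i = j) (i0 : Fin s) (b : IsLocalRing.ResidueField (V i0)) :
    ∃ x : Rv V, rv V i0 x = b ∧ ∀ j, j ≠ i0 → rv V j x = 1 := by
  obtain ⟨f, hf1, hf2⟩ := HV_f V hV i0
  obtain ⟨x, hx⟩ := IsLocalRing.residue_surjective (R := V i0) b
  obtain ⟨u, t, htu, hu⟩ := HV_trick V (x : L)
  have hu0 : rv V i0 u ≠ 0 := (hu i0).1 x.2
  have ht : rv V i0 t = b * rv V i0 u := by
    rw [← hx]
    change IsLocalRing.residue (V i0) ⟨(t : L), (mem_Rv V t.1).1 t.2 i0⟩ =
      IsLocalRing.residue (V i0) x * IsLocalRing.residue (V i0) ⟨(u : L), (mem_Rv V u.1).1 u.2 i0⟩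
    rw [← map_mul]
    congr 1
    exact Subtype.ext htu
  have ha0 : rv V i0 (u * f + (1 - f)) = rv V i0 u := by
    rw [map_add, map_mul, map_sub, map_one, hf1, mul_one, sub_self, add_zero]
  have ha1 : ∀ j, j ≠ i0 → rv V j (u * f + (1 - f)) = 1 := by
    intro j hj
    rw [map_add, map_mul, map_sub, map_one, hf2 j hj, mul_zero, sub_zero, zero_add]
  obtain ⟨y, hy⟩ := HV_unit V i0 (u * f + (1 - f)) fun i => by
    by_cases hi : i = i0
    · subst hi
      rw [ha0]
      exact hu0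
    · rw [ha1 i hi]
      exact one_ne_zero
  refine ⟨t * y * f + (1 - f), ?_, fun j hj => ?_⟩
  · rw [map_add, map_mul, map_mul, map_sub, map_one, hf1, mul_one, sub_self, add_zero, ht, mul_assoc,
      ← ha0, ← map_mul, hy, map_one, mul_one]
  · rw [map_add, map_mul, map_sub, map_one, hf2 j hj, mul_zero, sub_zero, zero_add]

end Pool.LibHC92
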