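import Pool.Agent.LibHC92.HDef
import Pool.Agent.LibHB92.VD

/-
PLAN (HX, MEDIUM). E := (X^q - C u).SplittingField over L, with the K-algebra structure of the tower (Polynomial.SplittingField has Algebra K instances if K → L is a tower; otherwise use AlgebraicClosure L and the separable degree, or Algebra.compHom: letI := ((algebraMap L E).comp (algebraMap K L)).toAlgebra and IsScalarTower.of_algebraMap_eq), algebraic over K. A := the unique
valuation ring of E over O (h E). A.comap (algebraMap L E) lies over O, so hu: A.valuation (u - 1) < 1 (valuation of the image: LibNP88.val_lt for L → E). A.valuation q = 1 (val_one). X^q - u splits in E (SplittingField.splits) and q ≠ 0 in L, u ≠ 0, so it is separable (Polynomial.X_pow_sub_C_separable or separable_X_pow_sub_C) and IsGalois L E (IsGalois.of_separable_splitting_field).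
Value at 1: 1 - u = Π (1 - r) over the roots (Polynomial.Splits.eq_prod_roots_of_monic, monic_X_pow_sub_C), every root r has A.valuation r = 1 (r^q = u), so some root r has A.valuation (1 - r) < 1 (otherwise the product has valuation 1: A.valuation (1 - r) ≤ 1). Uniqueness of r: if r^q = r'^q and both are ≡ 1 then ξ := r'/r has ξ^q = 1 and A.valuation (ξ - 1) < 1, ξ = 1 by
LibHB92.root_one (VD.lean). For σ : E ≃ₐ[L] E: A.comap σ lies over O, so it is A; A.valuation (σ r - 1) < 1 (x with valuation < 1 is: x = 0 or x⁻¹ ∉ A), so σ r = r. So r is in the image of L (IsGalois.mem_bot_iff_fixed or InfiniteGalois / IsGalois.tfae; IntermediateField.mem_bot), r = algebraMap w, w^q = u.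
-/

set_option autoImplicit false

noncomputable section

namespace Pool.LibHC92

universe u

open Pool.LibNP88 Pool.LibHB92

private theorem HX_lt {E : Type u} [Field E] (A : ValuationSubring E) (x : E) :
    A.valuation x < 1 ↔ x = 0 ∨ x⁻¹ ∉ A := by
  rcases eq_or_ne x 0 with rfl | hx
  · simp
  · have h1 : x⁻¹ ∈ A ↔ A.valuation x⁻¹ ≤ 1 := (ValuationSubring.valuation_le_one_iff A x⁻¹).symm
    have h2 : 0 < A.valuation x := zero_lt_iff.2 ((map_ne_zero A.valuation).2 hx)
    rw [h1, map_inv₀, inv_le_one₀ h2, not_le]
    simp [hx]

/-- a valuation ring that is invariant under σ -/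
private theorem HX_sig {E : Type u} [Field E] (A : ValuationSubring E) (σ : E →+* E)
    (hσ : A.comap σ = A) (x : E) (h : A.valuation x < 1) : A.valuation (σ x) < 1 := by
  rw [HX_lt] at h ⊢
  rcases h with h | h
  · left
    rw [h, map_zero]
  · right
    intro h1
    apply h
    rw [← hσ, ValuationSubring.mem_comap, map_inv₀]
    exact h1

/-- if O has a unique extension to every algebraic extension, one-units of finite extensions are q-th powers -/
theorem pow_of_hens {K : Type u} [Field K] (O : ValuationSubring K) {q : ℕ} (hq : q.Prime)
    (hqv : O.valuation (q : K) = 1)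
    (h : ∀ (E : Type u) [Field E] [Algebra K E] [Algebra.IsAlgebraic K E],
      ∃! A : ValuationSubring E, A.comap (algebraMap K E) = O) (L : Type u) [Field L]
    [Algebra K L] [FiniteDimensional K L] (u : L)
    (hu : ∀ A : ValuationSubring L, A.comap (algebraMap K L) = O → A.valuation (u - 1) < 1) :
    ∃ w : L, w ^ q = u := by
  classical
  have hq0 : q ≠ 0 := hq.ne_zero
  have hqK : (q : K) ≠ 0 := by
    intro h0
    rw [h0, map_zero] at hqv
    exact zero_ne_one hqv
  have hqL : (q : L) ≠ 0 := by
    intro h0
    apply hqK
    apply (algebraMap K L).injective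
    rw [map_natCast, map_zero]
    exact h0
  let E := (Polynomial.X ^ q - Polynomial.C u : Polynomial L).SplittingField
  have : IsScalarTower K L E := inferInstance
  have : FiniteDimensional L E := inferInstance
  have : FiniteDimensional K E := FiniteDimensional.trans K L E
  have : Algebra.IsAlgebraic K E := inferInstance
  obtain ⟨A, hA, huniq⟩ := h E
  have hAL : (A.comap (algebraMap L E)).comap (algebraMap K L) = O := by
    rw [ValuationSubring.comap_comap, ← IsScalarTower.algebraMap_eq K L E]
    exact hA
  have hu1 : A.valuation (algebraMap L E (u - 1)) < 1 :=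
    (val_lt (A.comap (algebraMap L E)) A rfl (u - 1)).2 (hu _ hAL)
  have hu1' : A.valuation (algebraMap L E u - 1) < 1 := by
    rw [map_sub, map_one] at hu1
    exact hu1
  have hvu : A.valuation (algebraMap L E u) = 1 := val_of_J A hu1'
  have hu0 : u ≠ 0 := by
    intro h0
    have h1 : algebraMap L E u = 0 := (map_eq_zero (algebraMap L E)).2 h0
    rw [h1, map_zero] at hvu
    exact zero_ne_one hvu
  have hqE : A.valuation (q : E) = 1 := by
    have h1 := (val_one O A hA (q : K)).2 hqv
    rwa [map_natCast] at h1
  have hsplit : ((Polynomial.X ^ q - Polynomial.C u : Polynomial L).map (algebraMap L E)).Splits :=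
    Polynomial.SplittingField.splits _
  have hmap : (Polynomial.X ^ q - Polynomial.C u : Polynomial L).map (algebraMap L E) =
      Polynomial.X ^ q - Polynomial.C (algebraMap L E u) := by
    simp
  rw [hmap] at hsplit
  have hmon : (Polynomial.X ^ q - Polynomial.C (algebraMap L E u) : Polynomial E).Monic :=
    Polynomial.monic_X_pow_sub_C _ hq0
  have hprod := hsplit.eval_eq_prod_roots_of_monic hmon 1
  have hroot : ∀ r ∈ (Polynomial.X ^ q - Polynomial.C (algebraMap L E u) : Polynomial E).roots,
      r ^ q = algebraMap L E u := by
    intro r hr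
    have h1 := (Polynomial.mem_roots hmon.ne_zero).1 hr
    rw [Polynomial.IsRoot.def, Polynomial.eval_sub, Polynomial.eval_pow, Polynomial.eval_X,
      Polynomial.eval_C] at h1
    exact sub_eq_zero.1 h1
  have hvr : ∀ r : E, r ^ q = algebraMap L E u → A.valuation r = 1 := by
    intro r hr
    have h1 : A.valuation r ^ q = 1 := by rw [← map_pow, hr, hvu]
    exact (pow_eq_one_iff_of_nonneg zero_le' hq0).1 h1
  have hex : ∃ r : E, r ^ q = algebraMap L E u ∧ A.valuation (r - 1) < 1 := by
    by_contra hno
    push Not at hno
    have h1 : A.valuation (Polynomial.eval 1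
        (Polynomial.X ^ q - Polynomial.C (algebraMap L E u) : Polynomial E)) = 1 := by
      rw [hprod, map_multiset_prod]
      refine Multiset.prod_eq_one ?_
      intro x hx
      rw [Multiset.map_map] at hx
      obtain ⟨r, hr, hrx⟩ := Multiset.mem_map.1 hx
      have h2 := hroot r hr
      have h3 := hno r h2
      have h4 : A.valuation (r - 1) ≤ 1 := by
        refine (Valuation.map_sub _ _ _).trans ?_
        rw [hvr r h2, map_one, max_self]
      have h5 : A.valuation (1 - r) = 1 := by
        rw [Valuation.map_sub_swap]
        exact le_antisymm h4 h3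
      rw [← hrx]
      exact h5
    rw [Polynomial.eval_sub, Polynomial.eval_pow, Polynomial.eval_X, Polynomial.eval_C, one_pow,
      Valuation.map_sub_swap] at h1
    exact hu1'.ne h1
  obtain ⟨r, hr, hr1⟩ := hex
  have hfix : ∀ σ : E ≃ₐ[L] E, σ r = r := by
    intro σ
    have h1 : (A.comap (σ : E →+* E)).comap (algebraMap K E) = O := by
      rw [ValuationSubring.comap_comap]
      have h2 : (σ : E →+* E).comp (algebraMap K E) = algebraMap K E := by
        ext x
        rw [RingHom.comp_apply, IsScalarTower.algebraMap_apply K L E]
        exact σ.commutes _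
      rw [h2]
      exact hA
    have h3 : A.comap (σ : E →+* E) = A := huniq _ h1
    have h4 : A.valuation (σ r - 1) < 1 := by
      have h5 := HX_sig A (σ : E →+* E) h3 (r - 1) hr1
      rw [map_sub, map_one] at h5
      exact h5
    have hv : A.valuation r = 1 := hvr r hr
    have hr0 : r ≠ 0 := by
      intro h0
      rw [h0, map_zero] at hv
      exact zero_ne_one hv
    have h6 : σ r / r = 1 := by
      refine root_one A hqE ?_ ?_
      · rw [div_pow, ← map_pow, hr, σ.commutes]
        refine div_self ?_
        intro h0
        rw [h0, map_zero] at hvu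
        exact zero_ne_one hvu
      · have e : σ r / r - 1 = ((σ r - 1) - (r - 1)) / r := by
          rw [eq_div_iff hr0, sub_mul, div_mul_cancel₀ _ hr0]
          ring
        rw [e, map_div₀, hv, div_one]
        exact lt_of_le_of_lt (Valuation.map_sub _ _ _) (max_lt h4 hr1)
    rwa [div_eq_one_iff_eq hr0] at h6
  have : IsGalois L E := IsGalois.of_separable_splitting_field
    (p := (Polynomial.X ^ q - Polynomial.C u : Polynomial L)) (Polynomial.separable_X_pow_sub_C u hqL hu0)
  have hbot : r ∈ (⊥ : IntermediateField L E) := (IsGalois.mem_bot_iff_fixed r).2 hfix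
  obtain ⟨w, hw⟩ := IntermediateField.mem_bot.1 hbot
  refine ⟨w, (algebraMap L E).injective ?_⟩
  rw [map_pow, hw, hr]

end Pool.LibHC92
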