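import Pool.Agent.LibHC92.HCore
import Pool.Agent.LibHC92.HI
import Pool.Agent.LibHC92.HV
import Pool.Agent.LibHC92.HW
import Pool.Agent.LibHC92.HQ3
import Pool.Agent.LibHC92.HX
import Pool.Agent.LibHB92.X2

/-
HZ (helper92): assembly. If the residue field of one extension A of O to L contains a primitive q-th root of unity (q not
the residue characteristic) and Small O q L holds, then L contains a primitive q-th root of unity and A is the only
extension of O to L.
-/

set_option autoImplicit false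

noncomputable section

namespace Pool.LibHC92

universe u

open Pool.LibNP88 Pool.LibHB92

private theorem HZ_back {K L : Type u} [Field K] [Field L] [Algebra K L] [FiniteDimensional K L]
    (O : ValuationSubring K) (V : ValuationSubring L) (hV : V.comap (algebraMap K L) = O) (w : L)
    (c : Fin (Module.finrank K L) → K) (hc : ∀ j, O.valuation (c j) < 1)
    (hw : w ^ Module.finrank K L + ∑ j, algebraMap K L (c j) * w ^ (j : ℕ) = 0) :
    V.valuation w < 1 := by
  by_contra hcon
  rw [not_lt] at hcon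
  have h0 : 0 < V.valuation w := lt_of_lt_of_le zero_lt_one hcon
  have h1 : V.valuation (∑ j, algebraMap K L (c j) * w ^ (j : ℕ)) <
      V.valuation w ^ Module.finrank K L := by
    apply Valuation.map_sum_lt _ (pow_ne_zero _ h0.ne')
    intro j _
    rw [map_mul, map_pow]
    have h2 : V.valuation (algebraMap K L (c j)) < 1 := (val_lt O V hV (c j)).2 (hc j)
    have h3 : V.valuation w ^ (j : ℕ) ≤ V.valuation w ^ Module.finrank K L :=
      pow_le_pow_right₀ hcon j.2.le
    refine lt_of_lt_of_le ?_ h3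
    exact mul_lt_of_lt_one_left (pow_pos h0 _) h2
  have h4 : w ^ Module.finrank K L = - ∑ j, algebraMap K L (c j) * w ^ (j : ℕ) :=
    eq_neg_of_add_eq_zero_left hw
  have h5 := congrArg V.valuation h4
  rw [map_pow, Valuation.map_neg] at h5
  rw [h5] at h1
  exact lt_irrefl _ h1

/-- a unit of the intersection -/
private theorem HZ_unit {L : Type u} [Field L] {s : ℕ} (hs : 0 < s)
    (V : Fin s → ValuationSubring L) (x : Rv V) (h : ∀ i, (V i).valuation (x : L) = 1) :
    IsUnit x := by
  have hx0 : (x : L) ≠ 0 := by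
    intro h0
    have := h ⟨0, hs⟩
    rw [h0, map_zero] at this
    exact zero_ne_one this
  have hmem : ((x : L))⁻¹ ∈ Rv V := by
    rw [mem_Rv]
    intro i
    rw [← ValuationSubring.valuation_le_one_iff, map_inv₀, h i, inv_one]
  refine ⟨⟨x, ⟨(x : L)⁻¹, hmem⟩, ?_, ?_⟩, rfl⟩
  · exact Subtype.ext (mul_inv_cancel₀ hx0)
  · exact Subtype.ext (inv_mul_cancel₀ hx0)

private theorem HZ_le {L : Type u} [Field L] {s : ℕ} (V : Fin s → ValuationSubring L) (i : Fin s)
    (x : Rv V) : (V i).valuation (x : L) ≤ 1 :=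
  (ValuationSubring.valuation_le_one_iff _ _).2 ((mem_Rv V x.1).1 x.2 i)

/-- the family contains all extensions of O -/
theorem family_all {K L : Type u} [Field K] [Field L] [Algebra K L] [FiniteDimensional K L]
    (O : ValuationSubring K) {s : ℕ} (V : Fin s → ValuationSubring L)
    (hVi : Function.Injective V) (hVO : ∀ i, (V i).comap (algebraMap K L) = O)
    (hJ : ∀ w : L, (∀ i, (V i).valuation w < 1) → ∃ c : Fin (Module.finrank K L) → K,
      (∀ j, O.valuation (c j) < 1) ∧
      w ^ Module.finrank K L + ∑ j, algebraMap K L (c j) * w ^ (j : ℕ) = 0)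
    (A : ValuationSubring L) (hA : A.comap (algebraMap K L) = O) : ∃ i, V i = A := by
  by_contra hcon
  push Not at hcon
  obtain ⟨W, hW0, hW1⟩ : ∃ W : Fin (s + 1) → ValuationSubring L, W 0 = A ∧
      ∀ i : Fin s, W i.succ = V i := ⟨Fin.cons A V, rfl, fun i => rfl⟩
  have hWO : ∀ i, (W i).comap (algebraMap K L) = O := by
    intro i
    refine Fin.cases ?_ (fun j => ?_) i
    · rw [hW0]
      exact hA
    · rw [hW1]
      exact hVO j
  have hWi : Function.Injective W := by
    intro i j hij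
    induction i using Fin.cases with
    | zero =>
      induction j using Fin.cases with
      | zero => rfl
      | succ j =>
        rw [hW0, hW1] at hij
        exact absurd hij.symm (hcon j)
    | succ i =>
      induction j using Fin.cases with
      | zero =>
        rw [hW0, hW1] at hij
        exact absurd hij (hcon i)
      | succ j =>
        rw [hW1, hW1] at hij
        rw [hVi hij]
  have hWV : ∀ i j, W i ≤ W j → i = j := fun i j hij =>
    hWi (incomp O (W i) (W j) (hWO i) (hWO j) hij)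
  obtain ⟨x, hx0, hx1⟩ := crt2 W hWV 0 0
  have h1 : ∀ i : Fin s, (V i).valuation ((x : L) - 1) < 1 := by
    intro i
    have h2 : rv W i.succ (x - 1) = 0 := by
      rw [map_sub, hx1 _ (Fin.succ_ne_zero i), map_one, sub_self]
    rw [rv_zero] at h2
    rw [← hW1]
    exact h2
  obtain ⟨c, hc1, hc2⟩ := hJ _ h1
  have h2 := HZ_back O A hA _ c hc1 hc2
  have h3 := (rv_zero W 0 x).1 hx0
  rw [hW0] at h3
  have h4 : A.valuation (1 : L) < 1 := by
    have e : (1 : L) = (x : L) - ((x : L) - 1) := by ring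
    rw [e]
    exact Valuation.map_sub_lt _ h3 h2
  rw [map_one] at h4
  exact lt_irrefl _ h4

/-- the main step: the root of unity of one residue field lifts to a root of unity of L that is 1 at the other
places -/
theorem root_lift2 {K : Type u} [Field K] (O : ValuationSubring K) (hN : NIP O) {q : ℕ}
    (hq : q.Prime) (hqv : O.valuation (q : K) = 1) (L : Type u) [Field L] [Algebra K L]
    [FiniteDimensional K L] (hfin : Small O q L)
    (A B : ValuationSubring L) (hA : A.comap (algebraMap K L) = O)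
    (hB : B.comap (algebraMap K L) = O)
    (hζ : ∃ ζ : IsLocalRing.ResidueField A, IsPrimitiveRoot ζ q) :
    ∃ ξ : L, ξ ^ q = 1 ∧ ¬ A.valuation (ξ - 1) < 1 ∧ (A ≠ B → B.valuation (ξ - 1) < 1) := by
  classical
  obtain ⟨s, V, hVi, hVO, ⟨i0, hi0⟩, ⟨j0, hj0⟩, hJ⟩ := family1 O A B hA hB
  subst hi0
  have hs0 : 0 < s := i0.pos
  have hV : ∀ i j, V i ≤ V j → i = j := fun i j hij =>
    hVi (incomp O (V i) (V j) (hVO i) (hVO j) hij)
  have hq1 : ∀ i, (V i).valuation (q : L) = 1 := fun i => by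
    have h := (val_one O (V i) (hVO i) (q : K)).2 hqv
    rwa [map_natCast] at h
  obtain ⟨ζ0, hζ0⟩ := hζ
  have hζ1 : ζ0 ^ q = 1 := hζ0.pow_eq_one
  have hζ2 : ζ0 ≠ 1 := hζ0.ne_one hq.one_lt
  obtain ⟨z1, hz1, hz1j⟩ := crt2 V hV i0 ζ0
  -- the unit z0
  have hz1r : ∀ i, rv V i z1 ≠ 0 := by
    intro i
    by_cases hi : i = i0
    · subst hi
      rw [hz1]
      exact hζ0.ne_zero hq.ne_zero
    · rw [hz1j i hi]
      exact one_ne_zero
  have hz1v : ∀ i, (V i).valuation (z1 : L) = 1 := by
    intro i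
    have h := hz1r i
    rw [Ne, rv_zero, not_lt] at h
    exact le_antisymm (HZ_le V i z1) h
  obtain ⟨z0, hz0⟩ := HZ_unit hs0 V z1 hz1v
  obtain ⟨θ, hθ⟩ : ∃ θ : Rv V, (z0 : Rv V) ^ q = 1 + θ := ⟨(z0 : Rv V) ^ q - 1, by ring⟩
  have hθr : ∀ i, rv V i θ = 0 := by
    intro i
    have h : rv V i ((z0 : Rv V) ^ q) = rv V i (1 + θ) := congrArg _ hθ
    rw [map_pow, hz0, map_add, map_one] at h
    by_cases hi : i = i0
    · subst hi
      rw [hz1, hζ1] at h
      exact (left_eq_add.1 h)
    · rw [hz1j i hi, one_pow] at h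
      exact (left_eq_add.1 h)
  have hθv : ∀ i, (V i).valuation (θ : L) < 1 := fun i => (rv_zero V i θ).1 (hθr i)
  -- the scale
  have hall := family_all O V hVi hVO fun w => (hJ w).1
  obtain ⟨k, hk⟩ := hfin (θ : L) (by
    intro W hW
    obtain ⟨i, rfl⟩ := hall W hW
    exact hθv i)
  obtain ⟨η, hη⟩ : ∃ η : Rv V, η = θ ^ (k + 1) := ⟨_, rfl⟩
  have hηv : ∀ i, (V i).valuation (η : L) < 1 := by
    intro i
    rw [hη]
    push_cast
    rw [map_pow]
    exact pow_lt_one₀ zero_le (hθv i) (Nat.succ_ne_zero k)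
  obtain ⟨G, hG, hGx⟩ := fin_b hs0 V hq.pos (η : L) hηv (hk.subset (by
    rintro c ⟨u, hu, hu'⟩
    refine ⟨u, hu, fun W hW => ?_⟩
    obtain ⟨i, rfl⟩ := hall W hW
    refine (hu' i).trans ?_
    rw [hη]
    push_cast
    rw [map_pow, map_pow]
    exact pow_le_pow_of_le_one zero_le (hθv i).le (Nat.le_succ k)))
  let _ : Fintype G := Fintype.ofFinite G
  obtain ⟨N, h1, h2⟩ := bounds O hN V hJ q
  have hD := dat_of hs0 h1 h2 η hηv
  obtain ⟨φ', hD', hφ'⟩ := dat_sub hD G (fun x => hGx _ fun i => by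
    have e : ((1 + η * x : Rv V) : L) - 1 = (η : L) * (x : L) := by
      push_cast
      ring
    rw [e, map_mul]
    exact mul_le_of_le_one_right zero_le (HZ_le V i x))
  obtain ⟨n0, hn0⟩ := core2.{u} N (Fintype.card G) q hq.pos
  -- Newton
  have hqm : (q : L) ∈ Rv V := by
    rw [mem_Rv]
    intro i
    rw [← ValuationSubring.valuation_le_one_iff, hq1 i]
  obtain ⟨qi, hqi⟩ : ∃ qi : Rv V, ((q : ℕ) : Rv V) * qi = 1 := by
    have h := HZ_unit hs0 V ((q : ℕ) : Rv V) (fun i => by
      have e : (((q : ℕ) : Rv V) : L) = (q : L) := by norm_cast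
      rw [e]
      exact hq1 i)
    exact h.exists_right_inv
  have hunθ : ∀ x : Rv V, IsUnit (1 + θ * x) := by
    intro x
    refine HZ_unit hs0 V _ fun i => ?_
    have h : rv V i (1 + θ * x) ≠ 0 := by
      rw [map_add, map_mul, hθr i, zero_mul, add_zero, map_one]
      exact one_ne_zero
    rw [Ne, rv_zero, not_lt] at h
    exact le_antisymm (HZ_le V i _) h
  obtain ⟨z, ⟨v, hzv⟩, x, hzx⟩ := newton hunθ q qi hqi z0 hθ ((k + 1) * (n0 + 1))
  have hzx1 : (z : Rv V) ^ q = 1 + η ^ n0 * (η * x) := by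
    rw [hzx, hη]
    ring
  have hexp : ∀ s : G, s ^ q = 1 := by
    intro s
    apply Subtype.ext
    rw [Subgroup.coe_pow, fq_pow]
    rfl
  have h3 := hn0 (Rv V) G le_rfl hexp η φ' hD' z (η * x) hzx1
  have hzx2 : (z : Rv V) ^ q = 1 + η * (η ^ n0 * x) := by
    rw [hzx1]
    ring
  have h4 : ph V q (((z : Rv V) ^ q : Rv V) : L) = 1 := by
    have h5 := hφ' (η ^ n0 * x)
    rw [← hzx2, h3] at h5
    exact h5.symm
  -- residues of z
  have hzr : ∀ i, rv V i (z : Rv V) = rv V i z1 := by
    intro i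
    rw [hzv, map_mul, map_add, map_mul, hθr i, zero_mul, add_zero, map_one, mul_one, hz0]
  have hJ2 : J1 V (((z : Rv V) : L) ^ q) := by
    intro i
    have h5 : rv V i ((z : Rv V) ^ q - 1) = 0 := by
      rw [hzx2, add_sub_cancel_left, map_mul]
      have h6 : rv V i η = 0 := (rv_zero V i η).2 (hηv i)
      rw [h6, zero_mul]
    rw [rv_zero] at h5
    push_cast at h5
    exact h5
  have h3' : ph V q (((z : Rv V) : L) ^ q) = QuotientGroup.mk (1 : Hs V) := by
    have e : (((z : Rv V) ^ q : Rv V) : L) = ((z : Rv V) : L) ^ q := by push_cast; rfl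
    rw [← e]
    exact h4
  obtain ⟨w, hw1, hw2⟩ := (ph_eq_iff hs0 hJ2 1).1 h3'
  rw [OneMemClass.coe_one, Units.val_one, one_mul] at hw2
  have hw0 : w ≠ 0 := J1.ne_zero hs0 hw1
  have hvw : ∀ i, (V i).valuation w = 1 := fun i => val_of_J _ (hw1 i)
  have key : ∀ i, (V i).valuation (((z : Rv V) : L) / w - 1) < 1 ↔
      (V i).valuation (((z : Rv V) : L) - 1) < 1 := by
    intro i
    have e1 : ((z : Rv V) : L) / w - 1 = ((((z : Rv V) : L) - 1) - (w - 1)) * w⁻¹ := by
      field_simp
      ring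
    have e2 : (V i).valuation (((z : Rv V) : L) / w - 1) =
        (V i).valuation ((((z : Rv V) : L) - 1) - (w - 1)) := by
      rw [e1, map_mul, map_inv₀, hvw i, inv_one, mul_one]
    rw [e2]
    constructor
    · intro h
      have e3 : ((z : Rv V) : L) - 1 = ((((z : Rv V) : L) - 1) - (w - 1)) + (w - 1) := by ring
      rw [e3]
      exact Valuation.map_add_lt _ h (hw1 i)
    · intro h
      exact Valuation.map_sub_lt _ h (hw1 i)
  refine ⟨((z : Rv V) : L) / w, ?_, ?_, ?_⟩
  · rw [div_pow, hw2, div_self (pow_ne_zero q hw0)]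
  · rw [key i0]
    intro h5
    have h6 : rv V i0 ((z : Rv V) - 1) = 0 := by
      rw [rv_zero]
      exact h5
    rw [map_sub, hzr i0, hz1, map_one, sub_eq_zero] at h6
    exact hζ2 h6
  · intro hAB
    subst hj0
    rw [key j0]
    have h6 : rv V j0 ((z : Rv V) - 1) = 0 := by
      rw [map_sub, hzr j0, hz1j j0 fun h => hAB (by rw [h]), map_one, sub_self]
    rw [rv_zero] at h6
    exact h6

/-- the root of unity lifts and the extension is unique -/
theorem root_unique2 {K : Type u} [Field K] (O : ValuationSubring K) (hN : NIP O) {q : ℕ}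
    (hq : q.Prime) (hqv : O.valuation (q : K) = 1) (L : Type u) [Field L] [Algebra K L]
    [FiniteDimensional K L]
    (hζ : ∃ A : ValuationSubring L, A.comap (algebraMap K L) = O ∧
      ∃ ζ : IsLocalRing.ResidueField A, IsPrimitiveRoot ζ q)
    (hfin : Small O q L) :
    (∃ z : L, IsPrimitiveRoot z q) ∧
    ∃! A : ValuationSubring L, A.comap (algebraMap K L) = O := by
  obtain ⟨A, hA, hζ⟩ := hζ
  have h1 := root_lift2 O hN hq hqv L hfin A
  refine ⟨?_, A, hA, fun B hB => ?_⟩
  · obtain ⟨ξ, hξ1, hξ2, -⟩ := h1 A hA hA hζ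
    refine ⟨ξ, ?_⟩
    have hξ3 : ξ ≠ 1 := by
      rintro rfl
      exact hξ2 (by simp)
    have _ : Fact q.Prime := ⟨hq⟩
    have h2 : orderOf ξ = q := orderOf_eq_prime hξ1 hξ3
    rw [← h2]
    exact IsPrimitiveRoot.orderOf ξ
  · by_contra hne'
    obtain ⟨ξ, hξ1, hξ2, hξ3⟩ := h1 B hA hB hζ
    have hqB : B.valuation (q : L) = 1 := by
      have h := (val_one O B hB (q : K)).2 hqv
      rwa [map_natCast] at h
    have h2 := root_one B hqB hξ1 (hξ3 fun h => hne' h.symm)
    rw [h2] at hξ2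
    exact hξ2 (by simp)

end Pool.LibHC92
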