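import Pool.Agent.LibHC92.HQ1
import Pool.Agent.LibHC92.HW
import Pool.Agent.LibHC92.HZ

/-
PLAN (HR1, MEDIUM, near copy of the proved HQ1.lean cyc_c). Semilocal version: O is a valuation ring of K, M is finite over K (several valuation rings of M over O), M'/M Galois of degree q. Read HQ1.lean first and replace: OC x := ∀ A : ValuationSubring M', A.comap (algebraMap K M') = O → A.valuation (x - 1) ≤ A.valuation (algebraMap M M' c); base version: ∀ B : ValuationSubring M,
B.comap (algebraMap K M) = O → B.valuation (x - 1) ≤ B.valuation c. Transfer: A over O gives B := A.comap (algebraMap M M') over O (comap_comap, IsScalarTower.algebraMap_eq), every B over O is of this form (ext_exists B M'); A.valuation (algebraMap x) ≤ A.valuation (algebraMap y) iff B.valuation x ≤ B.valuation y. OC is closed under mul, inv, products, σ (A.comap σ lies over O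
because σ fixes M hence K), norm. h90 at the scale c: the same y = q⁻¹ Σ P i. Only difference: the finiteness of G ⧸ G^q, G := {g : Mˣ | base version}. Take a family V : Fin s → ValuationSubring M with all B over O: LibHB92.family1 (O, any B0, B0) and LibHC92.family_all (HZ.lean; if the import makes trouble copy it: every A over O is some V i; it uses crt2). HW.fin_b gives a finite
subgroup of Fq V q containing the classes ph V q g, g ∈ G. Injectivity of G ⧸ G^q → Fq V q: if g, g' ∈ G have the same class then g / g' = w^q with w ≡ 1 at all V i (ph_eq_iff in LibHB92/VA.lean or QuotientGroup.eq), and then w ∈ G: w^q - 1 = (w - 1) Σ_{i<q} w^i and the sum is ≡ q, of valuation 1 (val_one for q), so (V i).valuation (w - 1) = (V i).valuation (w^q - 1)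
≤ (V i).valuation c. The end (core lemma HQ1 / QD2_core with π, D) is the same.
-/

set_option autoImplicit false

noncomputable section

namespace Pool.LibHC92

universe u

open Pool.LibNP88 Pool.LibHB92

private theorem HR1_core {G G' A : Type u} [CommGroup G] [CommGroup G'] [CommGroup A] {q : ℕ}
    (hq : q.Prime) (s : G' →* G') (hsq : ∀ x, s^[q] x = x) (ι : G →* G') (N : G' →* G)
    (hN : ∀ c, N (ι c) = c ^ q) (h90 : ∀ b : G', N b = 1 → ∃ y, b * s y = y)
    (hfin : Finite (G ⧸ (powMonoidHom q : G →* G).range))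
    (π : G' →* A) (hπ : Function.Surjective π) (hk : ∀ x, π x = 1 ↔ ∃ y, y ^ q = x) :
    Finite A := by
  classical
  have hs : π.ker ≤ (π.comp s).ker := by
    intro x hx
    rw [MonoidHom.mem_ker] at hx ⊢
    obtain ⟨y, rfl⟩ := (hk x).1 hx
    rw [MonoidHom.comp_apply, map_pow]
    exact (hk _).2 ⟨s y, rfl⟩
  let sA : A →* A := π.liftOfSurjective hπ ⟨π.comp s, hs⟩
  have hsA : ∀ x : G', sA (π x) = π (s x) := fun x =>
    MonoidHom.liftOfRightInverse_comp_apply π _ _ ⟨π.comp s, hs⟩ x
  have hA : ∀ a : A, a ^ q = 1 := by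
    intro a
    obtain ⟨x, rfl⟩ := hπ a
    rw [← map_pow]
    exact (hk _).2 ⟨x, rfl⟩
  have hitA : ∀ (n : ℕ) (x : G'), sA^[n] (π x) = π (s^[n] x) := by
    intro n
    induction n with
    | zero => intro x; rfl
    | succ n ih =>
      intro x
      rw [Function.iterate_succ_apply', ih, Function.iterate_succ_apply', hsA]
  have hσA : ∀ a, sA^[q] a = a := by
    intro a
    obtain ⟨x, rfl⟩ := hπ a
    rw [hitA, hsq]
  let D : A →* A := sA / MonoidHom.id A
  have hD : ∀ a, D a = sA a / a := fun a => rfl
  refine fin_of_unip hq hA sA hσA D hD ?_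
  let PK : Subgroup G := (powMonoidHom q : G →* G).range
  let C : Subgroup A := (π.comp ι).range
  have hC : Finite C := by
    have hk' : PK ≤ (π.comp ι).ker := by
      rintro x ⟨y, rfl⟩
      rw [MonoidHom.mem_ker, MonoidHom.comp_apply]
      have : ι (powMonoidHom q y) = (ι y) ^ q := by
        rw [powMonoidHom_apply, map_pow]
      rw [this]
      exact (hk _).2 ⟨ι y, rfl⟩
    have : Finite (G ⧸ PK) := hfin
    let f : (G ⧸ PK) → C := fun a => ⟨QuotientGroup.lift PK (π.comp ι) hk' a, by
      obtain ⟨x, rfl⟩ := QuotientGroup.mk_surjective a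
      exact ⟨x, rfl⟩⟩
    apply Finite.of_surjective f
    rintro ⟨y, x, rfl⟩
    exact ⟨QuotientGroup.mk x, rfl⟩
  have hPK : PK.index ≠ 0 := by
    have : Finite (G ⧸ PK) := hfin
    exact Subgroup.index_ne_zero_of_finite
  have hB : (PK.comap N).index ≠ 0 := by
    rw [Subgroup.index_comap]
    intro h0
    exact hPK (Nat.eq_zero_of_zero_dvd (h0 ▸ Subgroup.relIndex_dvd_index_of_normal PK N.range))
  have hle : PK.comap N ≤ (C ⊔ D.range).comap π := by
    intro x hx
    rw [Subgroup.mem_comap] at hx ⊢
    obtain ⟨c, hc⟩ := hx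
    have h1 : N (x / ι c) = 1 := by
      rw [map_div, hN, ← hc, powMonoidHom_apply, div_self']
    obtain ⟨y, h2⟩ := h90 _ h1
    have h3 : π x = π (ι c) * D ((π y)⁻¹) := by
      have h4 : x = ι c * ((s y)⁻¹ * y) := by
        have h5 : y * (s y)⁻¹ = x / ι c := by
          rw [mul_inv_eq_iff_eq_mul]
          exact h2.symm
        rw [mul_comm (s y)⁻¹, h5, mul_div_cancel]
      rw [hD, map_inv, hsA, div_inv_eq_mul]
      conv_lhs => rw [h4, map_mul, map_mul, map_inv]
    rw [h3]
    exact Subgroup.mul_mem_sup ⟨c, rfl⟩ ⟨_, rfl⟩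
  have hsup : (C ⊔ D.range).index ≠ 0 := by
    rw [← Subgroup.index_comap_of_surjective (C ⊔ D.range) hπ]
    intro h0
    exact hB (Nat.eq_zero_of_zero_dvd (h0 ▸ Subgroup.index_dvd_of_le hle))
  have hrel : D.range.relIndex (C ⊔ D.range) ≠ 0 := by
    rw [Subgroup.relIndex_sup_right]
    exact Subgroup.index_ne_zero_of_finite
  rw [← Subgroup.relIndex_mul_index (le_sup_right : D.range ≤ C ⊔ D.range)]
  exact Nat.mul_ne_zero hrel hsup


private theorem HR1_comap {L : Type u} {M : Type u} [Field L] [Field M] (A : ValuationSubring M)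
    (f : L →+* M) (x y : L) : (A.comap f).valuation x ≤ (A.comap f).valuation y ↔
      A.valuation (f x) ≤ A.valuation (f y) := by
  by_cases hy : y = 0
  · subst hy
    rw [map_zero, map_zero, map_zero, le_zero_iff, le_zero_iff, map_eq_zero, map_eq_zero,
      map_eq_zero]
  · have hfy : f y ≠ 0 := by
      rwa [Ne, map_eq_zero]
    have h1 : 0 < (A.comap f).valuation y := zero_lt_iff.2 ((Valuation.ne_zero_iff _).2 hy)
    have h2 : 0 < A.valuation (f y) := zero_lt_iff.2 ((Valuation.ne_zero_iff _).2 hfy)
    rw [← div_le_one₀ h1, ← div_le_one₀ h2, ← map_div₀, ← map_div₀,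
      ValuationSubring.valuation_le_one_iff, ValuationSubring.valuation_le_one_iff,
      ValuationSubring.mem_comap, map_div₀]

private theorem HR1_one {L : Type u} [Field L] (A : ValuationSubring L) {x d : L}
    (hd : A.valuation d < 1) (hx : A.valuation (x - 1) ≤ A.valuation d) : A.valuation x = 1 := by
  have h1 : A.valuation (1 + (x - 1)) = 1 := Valuation.map_one_add_of_lt _ (lt_of_le_of_lt hx hd)
  rwa [add_sub_cancel] at h1

private theorem HR1_mul {L : Type u} [Field L] (A : ValuationSubring L) {x y d : L}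
    (hd : A.valuation d < 1)
    (hx : A.valuation (x - 1) ≤ A.valuation d) (hy : A.valuation (y - 1) ≤ A.valuation d) :
    A.valuation (x * y - 1) ≤ A.valuation d := by
  have h : x * y - 1 = (x - 1) * y + (y - 1) := by ring
  rw [h]
  refine Valuation.map_add_le _ ?_ hy
  rw [map_mul, HR1_one A hd hy, mul_one]
  exact hx

private theorem HR1_inv {L : Type u} [Field L] (A : ValuationSubring L) {x d : L}
    (hd : A.valuation d < 1)
    (hx : A.valuation (x - 1) ≤ A.valuation d) : A.valuation (x⁻¹ - 1) ≤ A.valuation d := by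
  have h1 := HR1_one A hd hx
  have hx0 : x ≠ 0 := by
    rintro rfl
    rw [map_zero] at h1
    exact zero_ne_one h1
  have h : x⁻¹ - 1 = -((x - 1) * x⁻¹) := by
    rw [sub_mul, mul_inv_cancel₀ hx0]
    ring
  rw [h, Valuation.map_neg, map_mul, map_inv₀, h1, inv_one, mul_one]
  exact hx

private theorem HR1_prod {L : Type u} [Field L] (A : ValuationSubring L) {ι : Type*}
    {d : L} (hd : A.valuation d < 1)
    (s : Finset ι) (f : ι → L) (hf : ∀ i ∈ s, A.valuation (f i - 1) ≤ A.valuation d) :
    A.valuation (∏ i ∈ s, f i - 1) ≤ A.valuation d := by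
  classical
  induction s using Finset.induction_on with
  | empty => simp
  | insert a s ha ih =>
    rw [Finset.prod_insert ha]
    exact HR1_mul A hd (hf a (Finset.mem_insert_self a s))
      (ih fun i hi => hf i (Finset.mem_insert_of_mem hi))

/-- x is congruent to 1 modulo c at all valuation rings of M' over O -/
private def HR1_OC {K M M' : Type u} [Field K] [Field M] [Field M'] [Algebra K M'] [Algebra M M']
    (O : ValuationSubring K) (c : M) (x : M') : Prop :=
  ∀ A : ValuationSubring M', A.comap (algebraMap K M') = O →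
    A.valuation (x - 1) ≤ A.valuation (algebraMap M M' c)

private theorem HR1_powval {M : Type u} [Field M] (B : ValuationSubring M) {q : ℕ}
    (hqv : B.valuation (q : M) = 1) (w : M) (h1 : B.valuation (w - 1) < 1) :
    B.valuation (w ^ q - 1) = B.valuation (w - 1) := by
  have h3 : B.valuation w = 1 := by
    have h4 : B.valuation (1 + (w - 1)) = 1 := Valuation.map_one_add_of_lt _ h1
    rwa [add_sub_cancel] at h4
  have hpow : ∀ i : ℕ, B.valuation (w ^ i - 1) < 1 := by
    intro i
    induction i with
    | zero => simp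
    | succ i ih =>
      have h5 : w ^ (i + 1) - 1 = (w ^ i - 1) * w + (w - 1) := by ring
      rw [h5]
      refine Valuation.map_add_lt _ ?_ h1
      rw [map_mul, h3, mul_one]
      exact ih
  have hsum : B.valuation (∑ i ∈ Finset.range q, w ^ i) = 1 := by
    have h6 : (∑ i ∈ Finset.range q, w ^ i) = (q : M) + ∑ i ∈ Finset.range q, (w ^ i - 1) := by
      rw [Finset.sum_sub_distrib, Finset.sum_const, Finset.card_range, nsmul_eq_mul, mul_one]
      ring
    have h7 : B.valuation (∑ i ∈ Finset.range q, (w ^ i - 1)) < B.valuation (q : M) := by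
      rw [hqv]
      exact Valuation.map_sum_lt _ one_ne_zero fun i _ => hpow i
    rw [h6, Valuation.map_add_eq_of_lt_left _ h7, hqv]
  have h8 : w ^ q - 1 = (w - 1) * ∑ i ∈ Finset.range q, w ^ i := by
    rw [mul_comm, geom_sum_mul]
  rw [h8, map_mul, hsum, mul_one]

section

variable {K M M' : Type u} [Field K] [Field M] [Field M'] [Algebra K M] [Algebra K M']
  [Algebra M M'] [IsScalarTower K M M'] {O : ValuationSubring K} {c : M}

private theorem HR1_down (A : ValuationSubring M') (hA : A.comap (algebraMap K M') = O) :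
    (A.comap (algebraMap M M')).comap (algebraMap K M) = O := by
  rw [← hA, ValuationSubring.comap_comap, ← IsScalarTower.algebraMap_eq]

omit [Algebra K M] [IsScalarTower K M M'] in
private theorem HR1_lt' (A : ValuationSubring M')
    (h : (A.comap (algebraMap M M')).valuation c < 1) : A.valuation (algebraMap M M' c) < 1 :=
  (val_lt (A.comap (algebraMap M M')) A rfl _).2 h

private theorem HR1_lt
    (hc : ∀ B : ValuationSubring M, B.comap (algebraMap K M) = O → B.valuation c < 1)
    (A : ValuationSubring M')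
    (hA : A.comap (algebraMap K M') = O) : A.valuation (algebraMap M M' c) < 1 :=
  HR1_lt' A (hc _ (HR1_down A hA))

private theorem HR1_oc_mul
    (hc : ∀ B : ValuationSubring M, B.comap (algebraMap K M) = O → B.valuation c < 1)
    {x y : M'} (hx : HR1_OC O c x)
    (hy : HR1_OC O c y) : HR1_OC O c (x * y) := by
  intro A hA
  exact HR1_mul A (HR1_lt hc A hA) (hx A hA) (hy A hA)

private theorem HR1_oc_inv
    (hc : ∀ B : ValuationSubring M, B.comap (algebraMap K M) = O → B.valuation c < 1)
    {x : M'} (hx : HR1_OC O c x) :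
    HR1_OC O c x⁻¹ := by
  intro A hA
  exact HR1_inv A (HR1_lt hc A hA) (hx A hA)

private theorem HR1_oc_ne
    (hc : ∀ B : ValuationSubring M, B.comap (algebraMap K M) = O → B.valuation c < 1)
    {x : M'} (hx : HR1_OC O c x) : x ≠ 0 := by
  obtain ⟨A, hA⟩ := ext_exists O M'
  have h1 := HR1_one A (HR1_lt hc A hA) (hx A hA)
  rintro rfl
  rw [map_zero] at h1
  exact zero_ne_one h1

private theorem HR1_oc_base {x : M} :
    HR1_OC O c (algebraMap M M' x) ↔ ∀ B : ValuationSubring M, B.comap (algebraMap K M) = O →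
      B.valuation (x - 1) ≤ B.valuation c := by
  constructor
  · intro h B hB
    obtain ⟨A, hA⟩ := ext_exists B M'
    have hAO : A.comap (algebraMap K M') = O := by
      rw [IsScalarTower.algebraMap_eq K M M', ← ValuationSubring.comap_comap, hA, hB]
    have h1 := h A hAO
    rw [← map_one (algebraMap M M'), ← map_sub] at h1
    subst hA
    exact (HR1_comap A _ _ _).2 h1
  · intro h A hA
    rw [← map_one (algebraMap M M'), ← map_sub]
    exact (HR1_comap A _ _ _).1 (h _ (HR1_down A hA))

private theorem HR1_oc_sig (σ : M' ≃ₐ[M] M') {x : M'} (hx : HR1_OC O c x) :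
    HR1_OC O c (σ x) := by
  intro A hA
  have hc : (A.comap (σ : M' →+* M')).comap (algebraMap K M') = O := by
    rw [← hA]
    ext z
    rw [ValuationSubring.mem_comap, ValuationSubring.mem_comap, ValuationSubring.mem_comap]
    have h1 : (σ : M' →+* M') (algebraMap K M' z) = algebraMap K M' z := by
      rw [IsScalarTower.algebraMap_apply K M M']
      exact σ.commutes _
    rw [h1]
  have h2 := (HR1_comap A (σ : M' →+* M') (x - 1) (algebraMap M M' c)).1 (hx _ hc)
  have h3 : (σ : M' →+* M') (x - 1) = σ x - 1 := by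
    change σ (x - 1) = σ x - 1
    rw [map_sub, map_one]
  have h4 : (σ : M' →+* M') (algebraMap M M' c) = algebraMap M M' c := σ.commutes c
  rwa [h3, h4] at h2

private theorem HR1_oc_norm [FiniteDimensional M M'] [IsGalois M M']
    (hc : ∀ B : ValuationSubring M, B.comap (algebraMap K M) = O → B.valuation c < 1)
    {x : M'} (hx : HR1_OC O c x) :
    ∀ B : ValuationSubring M, B.comap (algebraMap K M) = O →
      B.valuation (Algebra.norm M x - 1) ≤ B.valuation c := by
  rw [← HR1_oc_base (M' := M'), Algebra.norm_eq_prod_automorphisms]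
  intro A hA
  exact HR1_prod A (HR1_lt hc A hA) _ _ fun σ _ => HR1_oc_sig σ hx A hA

private theorem HR1_h90 [FiniteDimensional M M'] [IsGalois M M'] {q : ℕ} (hq : q.Prime)
    (hd : Module.finrank M M' = q) (hqv : O.valuation (q : K) = 1)
    (hc : ∀ B : ValuationSubring M, B.comap (algebraMap K M) = O → B.valuation c < 1)
    (σ : M' ≃ₐ[M] M')
    (hσ : ∀ τ : M' ≃ₐ[M] M', τ ∈ Subgroup.zpowers σ) {x : M'} (hx : HR1_OC O c x)
    (hN : Algebra.norm M x = 1) : ∃ y : M', HR1_OC O c y ∧ x * σ y = y := by
  have hcard : orderOf σ = q := by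
    rw [orderOf_eq_card_of_forall_mem_zpowers hσ, IsGalois.card_aut_eq_finrank, hd]
  set P : ℕ → M' := fun i => ∏ j ∈ Finset.range i, (σ ^ j) x with hP
  have hPou : ∀ i, HR1_OC O c (P i) := fun i A hA =>
    HR1_prod A (HR1_lt hc A hA) _ _ fun j _ => HR1_oc_sig (σ ^ j) hx A hA
  have hstep : ∀ i, x * σ (P i) = P (i + 1) := by
    intro i
    simp only [hP]
    rw [Finset.prod_range_succ', map_prod, mul_comm, pow_zero]
    congr 1
    refine Finset.prod_congr rfl fun j _ => ?_
    rw [pow_succ', AlgEquiv.mul_apply]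
  have hPq : P q = 1 := by
    classical
    have h1 := Algebra.norm_eq_prod_automorphisms (K := M) (L := M') x
    rw [hN, map_one] at h1
    rw [h1]
    simp only [hP]
    have h2 := IsCyclic.image_range_orderOf hσ
    rw [hcard] at h2
    rw [← h2, Finset.prod_image]
    intro a ha b hb hab
    rw [Finset.mem_coe, Finset.mem_range, ← hcard] at ha hb
    exact pow_injOn_Iio_orderOf ha hb hab
  have hq0 : (q : M') ≠ 0 := by
    intro h0
    have h1 : algebraMap K M' (q : K) = 0 := by
      rw [map_natCast, h0]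
    rw [map_eq_zero] at h1
    rw [h1, map_zero] at hqv
    exact zero_ne_one hqv
  refine ⟨(q : M')⁻¹ * ∑ i ∈ Finset.range q, P i, ?_, ?_⟩
  · intro A hA
    have h1 : (q : M')⁻¹ * ∑ i ∈ Finset.range q, P i - 1 =
        (q : M')⁻¹ * ∑ i ∈ Finset.range q, (P i - 1) := by
      rw [Finset.sum_sub_distrib, Finset.sum_const, Finset.card_range, nsmul_eq_mul, mul_one,
        mul_sub, inv_mul_cancel₀ hq0]
    have h2 : A.valuation (q : M') = 1 := by
      rw [← map_natCast (algebraMap K M')]
      exact (val_one O A hA _).2 hqv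
    rw [h1, map_mul, map_inv₀, h2, inv_one, one_mul]
    exact Valuation.map_sum_le _ fun i _ => hPou i A hA
  · rw [map_mul, map_inv₀, map_natCast, map_sum, mul_left_comm, Finset.mul_sum]
    congr 1
    rw [Finset.sum_congr rfl fun i _ => hstep i]
    have h3 := Finset.sum_range_succ P q
    have h4 := Finset.sum_range_succ' P q
    have h5 : P 0 = 1 := by simp [hP]
    rw [h3, hPq, h5] at h4
    exact (add_right_cancel h4).symm

end

/-- finitely many classes at the scale c go up in cyclic extensions of degree q, semilocal version -/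
theorem cyc_s {K M M' : Type u} [Field K] [Field M] [Field M'] [Algebra K M] [Algebra K M']
    [Algebra M M'] [IsScalarTower K M M'] [FiniteDimensional K M] [FiniteDimensional M M']
    [IsGalois M M'] {q : ℕ} (hq : q.Prime) (hd : Module.finrank M M' = q)
    (O : ValuationSubring K) (hqv : O.valuation (q : K) = 1) (z : M) (hz : IsPrimitiveRoot z q)
    (c : M) (hc : ∀ B : ValuationSubring M, B.comap (algebraMap K M) = O → B.valuation c < 1)
    (hfin : (CB O q M c).Finite) : (CB O q M' (algebraMap M M' c)).Finite := by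
  classical
  have hcard : Nat.card (M' ≃ₐ[M] M') = q := by rw [IsGalois.card_aut_eq_finrank, hd]
  have : Fact q.Prime := ⟨hq⟩
  have hcyc : IsCyclic (M' ≃ₐ[M] M') := isCyclic_of_prime_card hcard
  obtain ⟨σ, hσ⟩ := hcyc.exists_generator
  have hσq : σ ^ q = 1 := by
    rw [← hcard]
    exact pow_card_eq_one'
  -- the groups of one-units
  let H' : Subgroup M'ˣ := {
    carrier := {u | HR1_OC O c (u : M')}
    one_mem' := by
      intro A _
      simp
    mul_mem' := fun {a b} ha hb => by
      show HR1_OC O c (((a * b : M'ˣ)) : M')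
      rw [Units.val_mul]
      exact HR1_oc_mul hc ha hb
    inv_mem' := fun {a} ha => by
      show HR1_OC O c (((a⁻¹ : M'ˣ)) : M')
      rw [Units.val_inv_eq_inv_val]
      exact HR1_oc_inv hc ha }
  let j : Mˣ →* M'ˣ := Units.map (algebraMap M M' : M →* M')
  let H : Subgroup Mˣ := H'.comap j
  have hH : ∀ u : Mˣ, u ∈ H ↔ ∀ B : ValuationSubring M, B.comap (algebraMap K M) = O →
      B.valuation ((u : M) - 1) ≤ B.valuation c :=
    fun u => HR1_oc_base
  let s : H' →* H' := {
    toFun := fun u => ⟨Units.map (σ : M' →* M') u, HR1_oc_sig σ u.2⟩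
    map_one' := by
      apply Subtype.ext
      exact map_one _
    map_mul' := fun a b => by
      apply Subtype.ext
      exact map_mul _ _ _ }
  have hsit : ∀ (n : ℕ) (x : H'), (((s^[n] x : H') : M'ˣ) : M') = (σ ^ n) ((x : M'ˣ) : M') := by
    intro n
    induction n with
    | zero => intro x; simp
    | succ n ih =>
      intro x
      rw [Function.iterate_succ_apply', pow_succ']
      show σ (((s^[n] x : H') : M'ˣ) : M') = σ ((σ ^ n) ((x : M'ˣ) : M'))
      rw [ih]
  have hsq : ∀ x, s^[q] x = x := by
    intro x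
    apply Subtype.ext
    apply Units.ext
    rw [hsit, hσq]
    rfl
  let ι : H →* H' := {
    toFun := fun u => ⟨j u, u.2⟩
    map_one' := by
      apply Subtype.ext
      exact map_one _
    map_mul' := fun a b => by
      apply Subtype.ext
      exact map_mul _ _ _ }
  let N : H' →* H := {
    toFun := fun u => ⟨Units.map (Algebra.norm M : M' →* M) u, (hH _).2 (HR1_oc_norm hc u.2)⟩
    map_one' := by
      apply Subtype.ext
      exact map_one _
    map_mul' := fun a b => by
      apply Subtype.ext
      exact map_mul _ _ _ }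
  have hN : ∀ e, N (ι e) = e ^ q := by
    intro e
    apply Subtype.ext
    apply Units.ext
    show Algebra.norm M (algebraMap M M' ((e : Mˣ) : M)) = (((e ^ q : H) : Mˣ) : M)
    rw [Algebra.norm_algebraMap, hd]
    push_cast
    rfl
  have h90 : ∀ b : H', N b = 1 → ∃ y, b * s y = y := by
    intro b hb
    have hb' : Algebra.norm M ((b : M'ˣ) : M') = 1 :=
      congrArg (fun u : H => ((u : Mˣ) : M)) hb
    obtain ⟨y, hy, hy2⟩ := HR1_h90 hq hd hqv hc σ hσ b.2 hb'
    refine ⟨⟨Units.mk0 y (HR1_oc_ne hc hy), hy⟩, ?_⟩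
    apply Subtype.ext
    apply Units.ext
    exact hy2
  have hfinH : Finite (H ⧸ (powMonoidHom q : H →* H).range) := by
    obtain ⟨B0, hB0⟩ := ext_exists O M
    obtain ⟨s', V, hVi, hVO, ⟨i0, -⟩, -, hfam⟩ := family1 O B0 B0 hB0 hB0
    have hs' : 0 < s' := Fin.pos i0
    have hall : ∀ B : ValuationSubring M, B.comap (algebraMap K M) = O → ∃ i, V i = B :=
      fun B hB => family_all O V hVi hVO (fun w hw => (hfam w).1 hw) B hB
    have hbV : ∀ i, (V i).valuation c < 1 := fun i => hc _ (hVO i)
    have hqV : ∀ i, (V i).valuation (q : M) = 1 := by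
      intro i
      rw [← map_natCast (algebraMap K M)]
      exact (val_one O (V i) (hVO i) _).2 hqv
    obtain ⟨G, hGf, hG⟩ := fin_b hs' V hq.pos c hbV (hfin.subset (by
      rintro x ⟨u, hu, h⟩
      refine ⟨u, hu, fun B hB => ?_⟩
      obtain ⟨i, rfl⟩ := hall B hB
      exact h i))
    have hHs : H ≤ Hs V := fun u hu i => lt_of_le_of_lt ((hH u).1 hu _ (hVO i)) (hbV i)
    let g : H →* Fq V q :=
      (QuotientGroup.mk' (powMonoidHom q : Hs V →* Hs V).range).comp (Subgroup.inclusion hHs)
    have hk : (powMonoidHom q : H →* H).range ≤ g.ker := by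
      rintro x ⟨y, rfl⟩
      rw [MonoidHom.mem_ker]
      exact (QuotientGroup.eq_one_iff _).2 ⟨Subgroup.inclusion hHs y, rfl⟩
    let f : (H ⧸ (powMonoidHom q : H →* H).range) → G := fun a =>
      ⟨QuotientGroup.lift _ g hk a, by
        obtain ⟨x, rfl⟩ := QuotientGroup.mk_surjective a
        have h1 : QuotientGroup.lift _ g hk (QuotientGroup.mk x) =
            ph V q (((Subgroup.inclusion hHs x : Hs V) : Mˣ) : M) :=
          (ph_mk (q := q) (Subgroup.inclusion hHs x)).symm
        rw [h1]
        exact hG _ fun i => (hH _).1 x.2 _ (hVO i)⟩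
    apply Finite.of_injective f
    intro a b hab
    obtain ⟨x, rfl⟩ := QuotientGroup.mk_surjective a
    obtain ⟨y, rfl⟩ := QuotientGroup.mk_surjective b
    have h1 : (QuotientGroup.mk (Subgroup.inclusion hHs x) : Fq V q) =
        QuotientGroup.mk (Subgroup.inclusion hHs y) := congrArg Subtype.val hab
    rw [QuotientGroup.eq] at h1 ⊢
    obtain ⟨e, he⟩ := h1
    rw [powMonoidHom_apply] at he
    have h2 : ((x⁻¹ * y : H) : Mˣ) = (e : Mˣ) ^ q := by
      have h3 := congrArg (fun u : Hs V => (u : Mˣ)) he
      exact h3.symm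
    have h4 : (e : Mˣ) ∈ H := by
      rw [hH]
      intro B hB
      obtain ⟨i, rfl⟩ := hall B hB
      rw [← HR1_powval (V i) (hqV i) _ (e.2 i)]
      have h5 := (hH _).1 (x⁻¹ * y : H).2 _ (hVO i)
      rw [h2] at h5
      push_cast at h5
      exact h5
    refine ⟨⟨(e : Mˣ), h4⟩, ?_⟩
    apply Subtype.ext
    rw [h2]
    rfl
  have hA0 : Finite (H' ⧸ (powMonoidHom q : H' →* H').range) := by
    refine HR1_core hq s hsq ι N hN h90 hfinH
      (QuotientGroup.mk' (powMonoidHom q : H' →* H').range) (QuotientGroup.mk'_surjective _)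
      fun x => ?_
    exact (QuotientGroup.eq_one_iff x).trans ⟨fun ⟨y, hy⟩ => ⟨y, hy⟩, fun ⟨y, hy⟩ => ⟨y, hy⟩⟩
  let P' : Subgroup M'ˣ := (powMonoidHom q : M'ˣ →* M'ˣ).range
  have hk' : (powMonoidHom q : H' →* H').range ≤
      ((QuotientGroup.mk' P').comp H'.subtype).ker := by
    rintro x ⟨y, rfl⟩
    rw [MonoidHom.mem_ker, MonoidHom.comp_apply]
    exact (QuotientGroup.eq_one_iff _).2 ⟨(y : M'ˣ), rfl⟩
  apply (Set.finite_range (QuotientGroup.lift (powMonoidHom q : H' →* H').range
    ((QuotientGroup.mk' P').comp H'.subtype) hk')).subset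
  rintro e ⟨u, rfl, hu⟩
  exact ⟨QuotientGroup.mk (⟨u, hu⟩ : H'), rfl⟩


end Pool.LibHC92
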