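import Pool.Agent.LibHC92.Defs2

/-
PLAN (HT, MEDIUM; near copy of the proved LibHB92/S1.lean). units_diff: w i := the unit 1 + θ^(i+1) = 1 + θ * θ^i; for i < j: w i - w j = θ^(i+1) (1 - θ^(j-i)) and 1 - θ^(j-i) = 1 + θ * (..) is a unit v, so
c := θ^(n-i-1) v⁻¹ works ((i+1) + (n-i-1) = n); for j < i change the sign. trans: B := the number n below (NOT the covering number). C := the covering number of coverF N f (ε/8), n := (C+1)^C + 1, B := n, w from units_diff n, q i j := c_ij * r * w_j (0 for i = j): (w_i - w_j) q_ij = θ^n r w_j.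
The functions f_(u, ρ) y := φ (1 - θ σ (u⁻¹ y + ρ)) = φ (1 - θ (y + u ρ) (σ u⁻¹)) (u a unit, ρ in R) are members of the family (b1, b2) = (u ρ, σ u⁻¹) of hD.V1. Then word by word S1.lean (s1_core, step1) with g η φ z (u⁻¹ y + ρ) replaced by f_(u, ρ), s1A θ φ (u ρ, σ u⁻¹), and r replaced by θ^n r: the result is
M.pr (φ (1 - θ σ (y + θ^n r)) ≠ φ (1 - θ σ y)) ≤ 8 (ε/8) = ε, and this is DD .. (1 - θ σ (θ^n r)) 1 (pr_congr, ring). coverF is monotone in the bound f: use the hypothesis card F ≤ f directly.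
-/

set_option autoImplicit false

noncomputable section

namespace Pool.LibHC92

open Pool.LibHB92

universe u

private theorem ht_c {R : Type u} [CommRing R] {θ : R} (hun : ∀ x : R, IsUnit (1 + θ * x)) (n a b : ℕ)
    (hab : a < b) (han : a < n) : ∃ c : R, ((1 + θ * θ ^ a) - (1 + θ * θ ^ b)) * c = θ ^ n := by
  obtain ⟨v, hv⟩ := hun (-(θ ^ (b - a - 1)))
  refine ⟨θ ^ (n - a - 1) * ((v⁻¹ : Rˣ) : R), ?_⟩
  have h1 : (v : R) * ((v⁻¹ : Rˣ) : R) = 1 := Units.mul_inv v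
  have h2 : θ ^ b = θ ^ a * (θ * θ ^ (b - a - 1)) := by
    rw [← pow_succ', ← pow_add]
    congr 1
    omega
  have h3 : θ ^ n = θ * θ ^ a * θ ^ (n - a - 1) := by
    rw [← pow_succ', ← pow_add]
    congr 1
    omega
  rw [h2, h3]
  linear_combination (-(θ * θ ^ a * θ ^ (n - a - 1) * ((v⁻¹ : Rˣ) : R))) * hv +
    (θ * θ ^ a * θ ^ (n - a - 1)) * h1

/-- units with differences that divide θ^n -/
theorem units_diff {R : Type u} [CommRing R] {θ : R} (hun : ∀ x : R, IsUnit (1 + θ * x)) (n : ℕ) :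
    ∃ w : Fin n → Rˣ, ∀ i j, i ≠ j → ∃ c : R, ((w i : R) - (w j : R)) * c = θ ^ n := by
  refine ⟨fun i => (hun (θ ^ (i : ℕ))).unit, ?_⟩
  intro i j hij
  simp only [IsUnit.unit_spec]
  rcases lt_or_gt_of_ne (fun h => hij (Fin.ext h) : (i : ℕ) ≠ (j : ℕ)) with h | h
  · exact ht_c hun n i j h i.2
  · obtain ⟨c, hc⟩ := ht_c hun n j i h j.2
    refine ⟨-c, ?_⟩
    rw [← hc]
    ring

/-- the member of the family with index b -/
private def htA {R : Type u} [CommRing R] {F : Type u} (θ : R) (φ : R → F) (b : R × R) (y : R) : F :=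
  φ (1 - θ * (y + b.1) * b.2)

/-- the function with scale σ -/
private def htg {R : Type u} [CommRing R] {F : Type u} (θ : R) (φ : R → F) (σ : R) (y : R) : F :=
  φ (1 - θ * σ * y)

private theorem ht_A {R : Type u} [CommRing R] {F : Type u} (θ : R) (φ : R → F) (σ : R) (u : Rˣ) (ρ y : R) :
    htA θ φ (u * ρ, σ * ((u⁻¹ : Rˣ) : R)) y = htg θ φ σ (((u⁻¹ : Rˣ) : R) * y + ρ) := by
  unfold htA htg
  congr 1
  have hu : (u : R) * ((u⁻¹ : Rˣ) : R) = 1 := Units.mul_inv u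
  linear_combination (-(θ * ρ * σ)) * hu

private theorem ht_A1 {R : Type u} [CommRing R] {F : Type u} (θ : R) (φ : R → F) (σ : R) (ρ y : R) :
    htA θ φ (ρ, σ) y = htg θ φ σ (y + ρ) := by
  unfold htA htg
  congr 1
  ring

private theorem ht_core {R : Type u} [CommRing R] {F : Type u} [CommGroup F] [Fintype F] {θ : R}
    {φ : R → F} {N : ℕ} (hD : Dat θ φ N) (M : Mean R) (hM : AffInv M) (σ : R) (r : R)
    {ε : ℝ} (B n : ℕ) (hn : (B + 1) ^ B < n)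
    (C : ∀ I1 : Finset (R × R), ∃ I0 : Finset (R × R), I0 ⊆ I1 ∧ I0.card ≤ B ∧ ∀ i ∈ I1, ∃ j ∈ I0,
      M.pr (fun y => htA θ φ i y ≠ htA θ φ j y) ≤ ε) :
    ∃ (u v : Rˣ) (ρ : R), ((u : R) - v) * ρ = (θ ^ n * r) * v ∧
      M.pr (fun y => htg θ φ σ (((u⁻¹ : Rˣ) : R) * y + ρ) ≠ htg θ φ σ (((v⁻¹ : Rˣ) : R) * y + ρ)) ≤ 4 * ε ∧
      M.pr (fun y => htg θ φ σ (((u⁻¹ : Rˣ) : R) * y + 0) ≠ htg θ φ σ (((v⁻¹ : Rˣ) : R) * y + 0)) ≤
        4 * ε := by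
  classical
  obtain ⟨w, hw⟩ := units_diff hD.un n
  have hq0 : ∀ i j, ∃ q : R, i ≠ j → ((w i : R) - (w j : R)) * q = (θ ^ n * r) * w j := by
    intro i j
    by_cases hij : i = j
    · exact ⟨0, fun h => absurd hij h⟩
    · obtain ⟨c, hc⟩ := hw i j hij
      refine ⟨c * r * w j, fun _ => ?_⟩
      rw [← hc]
      ring
  choose q hq using hq0
  let R1 : Finset R := insert 0 (Finset.univ.image fun p : Fin n × Fin n => q p.1 p.2)
  obtain ⟨I0, hI0, hI0c, hI0e⟩ := C (R1.image fun ρ => (ρ, σ))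
  let R2 : Finset R := I0.image Prod.fst
  have hR2c : R2.card ≤ B := Finset.card_image_le.trans hI0c
  have hR2 : ∀ ρ ∈ R1, ∃ ρ' ∈ R2, M.pr (fun y => htg θ φ σ (y + ρ) ≠ htg θ φ σ (y + ρ')) ≤ ε := by
    intro ρ hρ
    obtain ⟨j, hj, hje⟩ := hI0e (ρ, σ) (Finset.mem_image_of_mem _ hρ)
    obtain ⟨ρ', -, rfl⟩ := Finset.mem_image.1 (hI0 hj)
    simp only [ht_A1] at hje
    exact ⟨ρ', Finset.mem_image.2 ⟨_, hj, rfl⟩, hje⟩
  choose J hJ hJc hJe using fun ρ' : R =>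
    C (Finset.univ.image fun i : Fin n => ((w i : R) * ρ', σ * (((w i)⁻¹ : Rˣ) : R)))
  have hJe' : ∀ (ρ' : R) (i : Fin n), ∃ j ∈ J ρ',
      M.pr (fun y => htg θ φ σ ((((w i)⁻¹ : Rˣ) : R) * y + ρ') ≠ htA θ φ j y) ≤ ε := by
    intro ρ' i
    obtain ⟨j, hj, hje⟩ := hJe ρ' _ (Finset.mem_image_of_mem _ (Finset.mem_univ i))
    refine ⟨j, hj, ?_⟩
    simp only [ht_A] at hje
    exact hje
  choose c hc hce using hJe'
  -- pigeonhole
  let T : Fin n → (∀ x : R2, J x) := fun i x => ⟨c x i, hc x i⟩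
  have hcard : Fintype.card (∀ x : R2, J x) < Fintype.card (Fin n) := by
    rw [Fintype.card_pi, Fintype.card_fin]
    have h1 : ∏ x : R2, Fintype.card (J x) ≤ ∏ _x : R2, (B + 1) := by
      refine Finset.prod_le_prod' fun x _ => ?_
      rw [Fintype.card_coe]
      exact (hJc x).trans (Nat.le_succ B)
    rw [Finset.prod_const, Finset.card_univ, Fintype.card_coe] at h1
    have h2 : (B + 1) ^ R2.card ≤ (B + 1) ^ B := Nat.pow_le_pow_right (Nat.succ_pos B) hR2c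
    omega
  obtain ⟨i, j, hij, hT⟩ := Fintype.exists_ne_map_eq_of_card_lt T hcard
  have h2e : ∀ ρ' ∈ R2, M.pr (fun y => htg θ φ σ ((((w i)⁻¹ : Rˣ) : R) * y + ρ') ≠
      htg θ φ σ ((((w j)⁻¹ : Rˣ) : R) * y + ρ')) ≤ 2 * ε := by
    intro ρ' hρ'
    have h1 : c ρ' i = c ρ' j := congrArg Subtype.val (congrFun hT ⟨ρ', hρ'⟩)
    have h2 := hce ρ' i
    have h3 := hce ρ' j
    rw [← h1, M.pr_ne_symm] at h3
    have h4 := M.pr_ne_tri (fun y => htg θ φ σ ((((w i)⁻¹ : Rˣ) : R) * y + ρ')) (htA θ φ (c ρ' i))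
      (fun y => htg θ φ σ ((((w j)⁻¹ : Rˣ) : R) * y + ρ'))
    linarith
  have h4e : ∀ ρ ∈ R1, M.pr (fun y => htg θ φ σ ((((w i)⁻¹ : Rˣ) : R) * y + ρ) ≠
      htg θ φ σ ((((w j)⁻¹ : Rˣ) : R) * y + ρ)) ≤ 4 * ε := by
    intro ρ hρ
    obtain ⟨ρ', hρ', he⟩ := hR2 ρ hρ
    have h1 := h2e ρ' hρ'
    have h2 := pr_sc hM (w i)⁻¹ (fun y => htg θ φ σ (y + ρ) ≠ htg θ φ σ (y + ρ'))
    have h3 := pr_sc hM (w j)⁻¹ (fun y => htg θ φ σ (y + ρ') ≠ htg θ φ σ (y + ρ))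
    have h3' := M.pr_ne_symm (fun y => htg θ φ σ (y + ρ')) (fun y => htg θ φ σ (y + ρ))
    have h4 := M.pr_ne_tri (fun y => htg θ φ σ ((((w i)⁻¹ : Rˣ) : R) * y + ρ))
      (fun y => htg θ φ σ ((((w i)⁻¹ : Rˣ) : R) * y + ρ'))
      (fun y => htg θ φ σ ((((w j)⁻¹ : Rˣ) : R) * y + ρ))
    have h5 := M.pr_ne_tri (fun y => htg θ φ σ ((((w i)⁻¹ : Rˣ) : R) * y + ρ'))
      (fun y => htg θ φ σ ((((w j)⁻¹ : Rˣ) : R) * y + ρ'))
      (fun y => htg θ φ σ ((((w j)⁻¹ : Rˣ) : R) * y + ρ))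
    linarith
  refine ⟨w i, w j, q i j, hq i j hij, h4e _ ?_, h4e _ (Finset.mem_insert_self _ _)⟩
  exact Finset.mem_insert_of_mem (Finset.mem_image.2 ⟨(i, j), Finset.mem_univ _, rfl⟩)

private theorem ht_step {R : Type u} [CommRing R] {F : Type u} {θ : R} {φ : R → F}
    (M : Mean R) (hM : AffInv M) (σ : R) (r : R) {ε : ℝ} (u v : Rˣ) (ρ : R)
    (hρ : ((u : R) - v) * ρ = r * v)
    (h1 : M.pr (fun y => htg θ φ σ (((u⁻¹ : Rˣ) : R) * y + ρ) ≠ htg θ φ σ (((v⁻¹ : Rˣ) : R) * y + ρ)) ≤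
      4 * ε)
    (h0 : M.pr (fun y => htg θ φ σ (((u⁻¹ : Rˣ) : R) * y + 0) ≠ htg θ φ σ (((v⁻¹ : Rˣ) : R) * y + 0)) ≤
      4 * ε) :
    M.pr (fun y => htg θ φ σ (y + r) ≠ htg θ φ σ y) ≤ 8 * ε := by
  have hv : (v : R) * ((v⁻¹ : Rˣ) : R) = 1 := Units.mul_inv v
  have hu : ((u⁻¹ : Rˣ) : R) * (u : R) = 1 := Units.inv_mul u
  have e1 : M.pr (fun y => htg θ φ σ (y + ρ) ≠ htg θ φ σ (((v⁻¹ * u : Rˣ) : R) * y + ρ)) ≤ 4 * ε := by
    refine le_trans (le_of_eq ?_) h1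
    rw [← pr_sc hM u (fun y => htg θ φ σ (((u⁻¹ : Rˣ) : R) * y + ρ) ≠
      htg θ φ σ (((v⁻¹ : Rˣ) : R) * y + ρ))]
    refine M.pr_congr fun y => ?_
    rw [← mul_assoc, hu, one_mul, ← mul_assoc, Units.val_mul]
  have e0 : M.pr (fun y => htg θ φ σ y ≠ htg θ φ σ (((v⁻¹ * u : Rˣ) : R) * y)) ≤ 4 * ε := by
    refine le_trans (le_of_eq ?_) h0
    rw [← pr_sc hM u (fun y => htg θ φ σ (((u⁻¹ : Rˣ) : R) * y + 0) ≠
      htg θ φ σ (((v⁻¹ : Rˣ) : R) * y + 0))]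
    refine M.pr_congr fun y => ?_
    rw [← mul_assoc, hu, one_mul, ← mul_assoc, Units.val_mul, add_zero, add_zero]
  rw [← pr_tr hM ρ (fun y => htg θ φ σ y ≠ htg θ φ σ (((v⁻¹ * u : Rˣ) : R) * y))] at e0
  have e2 := M.pr_ne_tri (fun y => htg θ φ σ (((v⁻¹ * u : Rˣ) : R) * y + ρ)) (fun y => htg θ φ σ (y + ρ))
    (fun y => htg θ φ σ (((v⁻¹ * u : Rˣ) : R) * (y + ρ)))
  rw [M.pr_ne_symm (fun y => htg θ φ σ (((v⁻¹ * u : Rˣ) : R) * y + ρ)) (fun y => htg θ φ σ (y + ρ))] at e2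
  have e3 : M.pr (fun y => htg θ φ σ (((v⁻¹ * u : Rˣ) : R) * y + ρ) ≠
      htg θ φ σ (((v⁻¹ * u : Rˣ) : R) * (y + ρ))) =
      M.pr (fun y => htg θ φ σ (y + ρ) ≠ htg θ φ σ (y + ((v⁻¹ * u : Rˣ) : R) * ρ)) := by
    rw [← pr_sc hM (v⁻¹ * u) (fun y => htg θ φ σ (y + ρ) ≠ htg θ φ σ (y + ((v⁻¹ * u : Rˣ) : R) * ρ))]
    refine M.pr_congr fun y => ?_
    rw [mul_add]
  have e4 : M.pr (fun y => htg θ φ σ (y + ρ) ≠ htg θ φ σ (y + ((v⁻¹ * u : Rˣ) : R) * ρ)) =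
      M.pr (fun y => htg θ φ σ (y + r) ≠ htg θ φ σ y) := by
    rw [← pr_tr hM (-ρ) (fun y => htg θ φ σ (y + ρ) ≠ htg θ φ σ (y + ((v⁻¹ * u : Rˣ) : R) * ρ))]
    refine M.pr_congr fun y => ?_
    have k1 : y + -ρ + ρ = y := by ring
    have k2 : y + -ρ + ((v⁻¹ * u : Rˣ) : R) * ρ = y + r := by
      rw [Units.val_mul]
      linear_combination (ρ + r) * hv + ((v⁻¹ : Rˣ) : R) * hρ
    rw [k1, k2]
    exact ne_comm
  rw [← e4, ← e3]
  linarith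

/-- almost invariance under translations -/
theorem trans (N f : ℕ) {ε : ℝ} (hε : 0 < ε) : ∃ B : ℕ, ∀ (R : Type u) [CommRing R]
    (F : Type u) [CommGroup F] [Fintype F], Fintype.card F ≤ f → ∀ (θ : R) (φ : R → F),
    Dat θ φ N → Tr θ φ B ε := by
  obtain ⟨C, hC⟩ := coverF.{u, u, u} N f (ε := ε / 8) (by linarith)
  refine ⟨(C + 1) ^ C + 1, ?_⟩
  intro R _ F _ _ hF θ φ hD M hM σ r
  obtain ⟨u, v, ρ, hρ, h1, h0⟩ := ht_core hD M hM σ r C ((C + 1) ^ C + 1) (Nat.lt_succ_self _)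
    (hC R M F hF (R × R) (htA θ φ) hD.V1)
  have h2 := ht_step M hM σ (θ ^ ((C + 1) ^ C + 1) * r) u v ρ hρ h1 h0
  have h3 : DD θ φ M σ (1 - θ * σ * (θ ^ ((C + 1) ^ C + 1) * r)) 1 =
      M.pr (fun y => htg θ φ σ (y + θ ^ ((C + 1) ^ C + 1) * r) ≠ htg θ φ σ y) := by
    unfold DD htg
    refine M.pr_congr fun y => ?_
    have e : 1 - θ * σ * (θ ^ ((C + 1) ^ C + 1) * r) - θ * σ * y =
        1 - θ * σ * (y + θ ^ ((C + 1) ^ C + 1) * r) := by ring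
    rw [e]
  rw [h3]
  linarith

end Pool.LibHC92
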