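import Pool.Agent.LibHC92.HZ2
import Pool.Agent.LibHC92.HQ1
import Pool.Agent.LibHB92.QF

/-
HU (helper92; the zero-infinity law is due to helper88). unit_pow: if 1 + θ R meets only finitely many classes modulo
q-th powers and z0 ^ q = 1 + θ, then z0 is congruent to a root of unity of L at all places. zero_inf: if 1 + d O meets
only finitely many classes modulo q-th powers, it consists of q-th powers.
-/

set_option autoImplicit false

noncomputable section

open Polynomial

namespace Pool.LibHC92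

universe u

open Pool.LibNP88 Pool.LibHB92

private theorem HU_unit {L : Type u} [Field L] {s : ℕ} (hs : 0 < s)
    (V : Fin s → ValuationSubring L) (x : Rv V) (h : ∀ i, (V i).valuation (x : L) = 1) :
    IsUnit x := by
  have hx0 : (x : L) ≠ 0 := by
    intro h0
    have := h ⟨0, hs⟩
    rw [h0, map_zero] at this
    exact zero_ne_one this
  have hmem : ((x : L))⁻¹ ∈ Rv V := by
    rw [mem_Rv]
    intro i
    rw [← ValuationSubring.valuation_le_one_iff, map_inv₀, h i, inv_one]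
  refine ⟨⟨x, ⟨(x : L)⁻¹, hmem⟩, ?_, ?_⟩, rfl⟩
  · exact Subtype.ext (mul_inv_cancel₀ hx0)
  · exact Subtype.ext (inv_mul_cancel₀ hx0)

private theorem HU_le {L : Type u} [Field L] {s : ℕ} (V : Fin s → ValuationSubring L) (i : Fin s)
    (x : Rv V) : (V i).valuation (x : L) ≤ 1 :=
  (ValuationSubring.valuation_le_one_iff _ _).2 ((mem_Rv V x.1).1 x.2 i)

/-- if 1 + θ R meets finitely many classes and z0 ^ q = 1 + θ, then z0 is a root of unity modulo the radical -/
theorem unit_pow {K : Type u} [Field K] (O : ValuationSubring K) (hN : NIP O) {q : ℕ}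
    (hq : q.Prime) (hqv : O.valuation (q : K) = 1) (L : Type u) [Field L] [Algebra K L]
    [FiniteDimensional K L] (θ1 z1 : L)
    (hθ1 : ∀ A : ValuationSubring L, A.comap (algebraMap K L) = O → A.valuation θ1 < 1)
    (hz1 : z1 ^ q = 1 + θ1) (hfin : (CB O q L θ1).Finite) :
    ∃ ξ : L, ξ ^ q = 1 ∧
      ∀ A : ValuationSubring L, A.comap (algebraMap K L) = O → A.valuation (ξ - z1) < 1 := by
  classical
  obtain ⟨A0, hA0⟩ := ext_exists O L
  obtain ⟨s, V, hVi, hVO, ⟨i0, hi0⟩, -, hJ⟩ := family1 O A0 A0 hA0 hA0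
  have hs0 : 0 < s := i0.pos
  have hq1 : ∀ i, (V i).valuation (q : L) = 1 := fun i => by
    have h := (val_one O (V i) (hVO i) (q : K)).2 hqv
    rwa [map_natCast] at h
  have hall := family_all O V hVi hVO fun w => (hJ w).1
  have hθv1 : ∀ i, (V i).valuation θ1 < 1 := fun i => hθ1 _ (hVO i)
  obtain ⟨θ, hθ⟩ : ∃ θ : Rv V, (θ : L) = θ1 := ⟨⟨θ1, (mem_Rv V θ1).2 fun i =>
    (ValuationSubring.valuation_le_one_iff _ _).1 (hθv1 i).le⟩, rfl⟩
  have hθv : ∀ i, (V i).valuation (θ : L) < 1 := fun i => by rw [hθ]; exact hθv1 i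
  have hz1v : ∀ i, (V i).valuation z1 = 1 := by
    intro i
    have h : (V i).valuation z1 ^ q = 1 := by
      rw [← map_pow, hz1]
      refine val_of_J _ ?_
      rw [add_sub_cancel_left]
      exact hθv1 i
    exact (pow_eq_one_iff_of_nonneg zero_le hq.ne_zero).1 h
  obtain ⟨z0, hz0⟩ : ∃ z0 : (Rv V)ˣ, ((z0 : Rv V) : L) = z1 := by
    obtain ⟨z0, hz0⟩ := HU_unit hs0 V ⟨z1, (mem_Rv V z1).2 fun i =>
      (ValuationSubring.valuation_le_one_iff _ _).1 (hz1v i).le⟩ hz1v
    exact ⟨z0, by rw [hz0]⟩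
  have hθ0 : (z0 : Rv V) ^ q = 1 + θ := by
    apply Subtype.ext
    push_cast
    rw [hz0, hθ]
    exact hz1
  obtain ⟨G, hG, hGx⟩ := fin_b hs0 V hq.pos (θ : L) hθv (hfin.subset (by
    rintro c ⟨u, hu, hu'⟩
    refine ⟨u, hu, fun W hW => ?_⟩
    obtain ⟨i, rfl⟩ := hall W hW
    have h := hu' i
    rw [hθ] at h
    exact h))
  let _ : Fintype G := Fintype.ofFinite G
  obtain ⟨N, h1, h2⟩ := bounds O hN V hJ q
  have hD := dat_of hs0 h1 h2 θ hθv
  obtain ⟨φ', hD', hφ'⟩ := dat_sub hD G (fun x => hGx _ fun i => by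
    have e : ((1 + θ * x : Rv V) : L) - 1 = (θ : L) * (x : L) := by
      push_cast
      ring
    rw [e, map_mul]
    exact mul_le_of_le_one_right zero_le (HU_le V i x))
  obtain ⟨n0, hn0⟩ := core2.{u} N (Fintype.card G) q hq.pos
  obtain ⟨qi, hqi⟩ : ∃ qi : Rv V, ((q : ℕ) : Rv V) * qi = 1 := by
    have h := HU_unit hs0 V ((q : ℕ) : Rv V) (fun i => by
      have e : (((q : ℕ) : Rv V) : L) = (q : L) := by norm_cast
      rw [e]
      exact hq1 i)
    exact h.exists_right_inv
  have hunθ : ∀ x : Rv V, IsUnit (1 + θ * x) := hD.un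
  obtain ⟨z, ⟨v, hzv⟩, x, hzx⟩ := newton hunθ q qi hqi z0 hθ0 (n0 + 1)
  have hzx1 : (z : Rv V) ^ q = 1 + θ ^ n0 * (θ * x) := by
    rw [hzx]
    ring
  have hexp : ∀ s : G, s ^ q = 1 := by
    intro s
    apply Subtype.ext
    rw [Subgroup.coe_pow, fq_pow]
    rfl
  have h3 := hn0 (Rv V) G le_rfl hexp θ φ' hD' z (θ * x) hzx1
  have hzx2 : (z : Rv V) ^ q = 1 + θ * (θ ^ n0 * x) := by
    rw [hzx1]
    ring
  have h4 : ph V q (((z : Rv V) ^ q : Rv V) : L) = 1 := by
    have h5 := hφ' (θ ^ n0 * x)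
    rw [← hzx2, h3] at h5
    exact h5.symm
  have hJ2 : J1 V (((z : Rv V) : L) ^ q) := by
    intro i
    have h5 : rv V i ((z : Rv V) ^ q - 1) = 0 := by
      rw [hzx2, add_sub_cancel_left, map_mul]
      have h6 : rv V i θ = 0 := (rv_zero V i θ).2 (hθv i)
      rw [h6, zero_mul]
    rw [rv_zero] at h5
    push_cast at h5
    exact h5
  have h3' : ph V q (((z : Rv V) : L) ^ q) = QuotientGroup.mk (1 : Hs V) := by
    have e : (((z : Rv V) ^ q : Rv V) : L) = ((z : Rv V) : L) ^ q := by push_cast; rfl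
    rw [← e]
    exact h4
  obtain ⟨w, hw1, hw2⟩ := (ph_eq_iff hs0 hJ2 1).1 h3'
  rw [OneMemClass.coe_one, Units.val_one, one_mul] at hw2
  have hw0 : w ≠ 0 := J1.ne_zero hs0 hw1
  have hvw : ∀ i, (V i).valuation w = 1 := fun i => val_of_J _ (hw1 i)
  refine ⟨((z : Rv V) : L) / w, ?_, fun W hW => ?_⟩
  · rw [div_pow, hw2, div_self (pow_ne_zero q hw0)]
  · obtain ⟨i, rfl⟩ := hall W hW
    have e1 : ((z : Rv V) : L) / w - z1 = (z1 * ((θ : L) * (v : L)) - z1 * (w - 1)) * w⁻¹ := by
      have e2 : ((z : Rv V) : L) = z1 * (1 + (θ : L) * (v : L)) := by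
        rw [hzv]
        push_cast
        rw [hz0]
      rw [e2]
      field_simp
      ring
    rw [e1, map_mul, map_inv₀, hvw i, inv_one, mul_one]
    refine Valuation.map_sub_lt _ ?_ ?_
    · rw [map_mul, hz1v i, one_mul, map_mul]
      exact mul_lt_one_of_lt_of_le (hθv i) (HU_le V i v)
    · rw [map_mul, hz1v i, one_mul]
      exact hw1 i

/-- the zero-infinity law -/
theorem zero_inf {K : Type u} [Field K] (O : ValuationSubring K) (hN : NIP O) {q : ℕ}
    (hq : q.Prime) (hqv : O.valuation (q : K) = 1) (z : K) (hz : IsPrimitiveRoot z q) (d : K)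
    (hd : O.valuation d < 1) (hfin : (CB O q K d).Finite) (u : K)
    (hu : O.valuation (u - 1) ≤ O.valuation d) : ∃ w : K, w ^ q = u := by
  by_contra hcon
  have h1 : ∀ b : K, b ^ q ≠ u := fun b hb => hcon ⟨b, hb⟩
  have hu1 : O.valuation (u - 1) < 1 := lt_of_le_of_lt hu hd
  have H := X_pow_sub_C_irreducible_of_prime hq h1
  have hζ : (primitiveRoots q K).Nonempty := ⟨z, (mem_primitiveRoots hq.pos).2 hz⟩
  have hne : NeZero q := ⟨hq.ne_zero⟩
  let L := (X ^ q - C u).SplittingField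
  have hf : FiniteDimensional K L := Polynomial.IsSplittingField.finiteDimensional L (X ^ q - C u)
  have hg : IsGalois K L := isGalois_of_isSplittingField_X_pow_sub_C hζ H L
  have hdeg : Module.finrank K L = q := finrank_of_isSplittingField_X_pow_sub_C hζ H L
  have hα : (rootOfSplitsXPowSubC hq.pos u L) ^ q = algebraMap K L u := rootOfSplitsXPowSubC_pow u L
  have hz' : IsPrimitiveRoot (algebraMap K L z) q := hz.map_of_injective (algebraMap K L).injective
  have hfin1 : (CB O q K (u - 1)).Finite := hfin.subset (CB_mono O q K (by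
    intro A hA
    have hA' : A = O := by
      rw [← hA]
      ext x
      simp
    rw [hA']
    exact hu))
  have hfin2 := cyc_c hq hdeg O hqv z hz (u - 1) hu1 hfin1
  obtain ⟨ξ, hξ1, hξ2⟩ := unit_pow O hN hq hqv L (algebraMap K L (u - 1))
    (rootOfSplitsXPowSubC hq.pos u L) (fun A hA => (val_lt O A hA _).2 hu1)
    (by rw [hα, map_sub, map_one]; ring) hfin2
  obtain ⟨i, -, hi⟩ := hz'.eq_pow_of_pow_eq_one hξ1
  have hξ0 : ξ ≠ 0 := by
    rintro rfl
    rw [zero_pow hq.ne_zero] at hξ1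
    exact zero_ne_one hξ1
  have hξv : ∀ A : ValuationSubring L, A.valuation ξ = 1 := by
    intro A
    have h6 : A.valuation ξ ^ q = 1 := by
      rw [← map_pow, hξ1, map_one]
    exact (pow_eq_one_iff_of_nonneg zero_le hq.ne_zero).1 h6
  have hOU : OU O (rootOfSplitsXPowSubC hq.pos u L * ξ⁻¹) := by
    intro A hA
    have e : rootOfSplitsXPowSubC hq.pos u L * ξ⁻¹ - 1 =
        -((ξ - rootOfSplitsXPowSubC hq.pos u L) * ξ⁻¹) := by
      rw [sub_mul, mul_inv_cancel₀ hξ0]
      ring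
    rw [e, Valuation.map_neg, map_mul, map_inv₀, hξv A, inv_one, mul_one]
    exact hξ2 A hA
  obtain ⟨A, hA⟩ := ext_exists O L
  have h2 := autEquivZmod_symm_apply_natCast H L hα hz 1
  rw [pow_one, Algebra.smul_def] at h2
  have h3 := ou_sig ((autEquivZmod H L hz).symm (Multiplicative.ofAdd ((1 : ℕ) : ZMod q))) hOU A hA
  have h3b : ((autEquivZmod H L hz).symm (Multiplicative.ofAdd ((1 : ℕ) : ZMod q))) ξ = ξ := by
    rw [← hi, map_pow, AlgEquiv.commutes]
  rw [map_mul, h2, map_inv₀, h3b] at h3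
  have hOA := hOU A hA
  have hzA : A.valuation (algebraMap K L z) = 1 := by
    have h6 : A.valuation (algebraMap K L z) ^ q = 1 := by
      rw [← map_pow, hz'.pow_eq_one, map_one]
    exact (pow_eq_one_iff_of_nonneg zero_le hq.ne_zero).1 h6
  have h4 : A.valuation (algebraMap K L z - 1) < 1 := by
    have e : algebraMap K L z - 1 =
        (algebraMap K L z * rootOfSplitsXPowSubC hq.pos u L * ξ⁻¹ - 1) -
          algebraMap K L z * (rootOfSplitsXPowSubC hq.pos u L * ξ⁻¹ - 1) := by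
      ring
    rw [e]
    refine Valuation.map_sub_lt _ h3 ?_
    rw [map_mul, hzA, one_mul]
    exact hOA
  have h5 : A.valuation ((q : ℕ) : L) = 1 := by
    rw [← map_natCast (algebraMap K L) q]
    exact (val_one O A hA _).2 hqv
  have h6 := root_one A h5 hz'.pow_eq_one h4
  have h7 := hz'.eq_orderOf
  rw [h6, orderOf_one] at h7
  exact hq.one_lt.ne' h7

end Pool.LibHC92
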