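import Pool.Agent.LibHC92.HU
import Pool.Agent.LibHC92.HR1
import Pool.Agent.LibHC92.HN2
import Pool.Agent.LibHC92.HO

/-
HU2 (helper92; the zero-infinity law is due to helper88). The law for all finite extensions (semilocal form) and the
q-henselian coarsening.
-/

set_option autoImplicit false

noncomputable section

open Polynomial

namespace Pool.LibHC92

universe u

open Pool.LibNP88 Pool.LibHB92

private theorem HU2_one {L : Type u} [Field L] (A : ValuationSubring L) {q : ℕ} (hq : q.Prime)
    {ξ : L} (h : ξ ^ q = 1) : A.valuation ξ = 1 := by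
  have h6 : A.valuation ξ ^ q = 1 := by
    rw [← map_pow, h, map_one]
  exact (pow_eq_one_iff_of_nonneg zero_le hq.ne_zero).1 h6

/-- the zero-infinity law for a finite extension L -/
theorem zero_inf_L {K : Type u} [Field K] (O : ValuationSubring K) (hN : NIP O) {q : ℕ}
    (hq : q.Prime) (hqv : O.valuation (q : K) = 1) (L : Type u) [Field L] [Algebra K L]
    [FiniteDimensional K L] (z : L) (hz : IsPrimitiveRoot z q) (b : L)
    (hb : ∀ A : ValuationSubring L, A.comap (algebraMap K L) = O → A.valuation b < 1)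
    (hfin : (CB O q L b).Finite) (u : L)
    (hu : ∀ A : ValuationSubring L, A.comap (algebraMap K L) = O →
      A.valuation (u - 1) ≤ A.valuation b) : ∃ w : L, w ^ q = u := by
  by_contra hcon
  have h1 : ∀ c : L, c ^ q ≠ u := fun c hc => hcon ⟨c, hc⟩
  have hu1 : ∀ A : ValuationSubring L, A.comap (algebraMap K L) = O → A.valuation (u - 1) < 1 :=
    fun A hA => lt_of_le_of_lt (hu A hA) (hb A hA)
  have H := X_pow_sub_C_irreducible_of_prime hq h1
  have hζ : (primitiveRoots q L).Nonempty := ⟨z, (mem_primitiveRoots hq.pos).2 hz⟩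
  have hne : NeZero q := ⟨hq.ne_zero⟩
  let M := (X ^ q - C u).SplittingField
  have hf : FiniteDimensional L M := Polynomial.IsSplittingField.finiteDimensional M (X ^ q - C u)
  have hg : IsGalois L M := isGalois_of_isSplittingField_X_pow_sub_C hζ H M
  have hdeg : Module.finrank L M = q := finrank_of_isSplittingField_X_pow_sub_C hζ H M
  have hα : (rootOfSplitsXPowSubC hq.pos u M) ^ q = algebraMap L M u := rootOfSplitsXPowSubC_pow u M
  have hz' : IsPrimitiveRoot (algebraMap L M z) q := hz.map_of_injective (algebraMap L M).injective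
  have iT : IsScalarTower K L M := inferInstance
  have iF : FiniteDimensional K M := FiniteDimensional.trans K L M
  have hover : ∀ A : ValuationSubring M, A.comap (algebraMap K M) = O →
      (A.comap (algebraMap L M)).comap (algebraMap K L) = O := by
    intro A hA
    rw [ValuationSubring.comap_comap, ← IsScalarTower.algebraMap_eq]
    exact hA
  have hfin1 : (CB O q L (u - 1)).Finite := hfin.subset (CB_mono O q L hu)
  have hfin2 := cyc_s hq hdeg O hqv z hz (u - 1) hu1 hfin1
  obtain ⟨ξ, hξ1, hξ2⟩ := unit_pow O hN hq hqv M (algebraMap L M (u - 1))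
    (rootOfSplitsXPowSubC hq.pos u M)
    (fun A hA => (val_lt (A.comap (algebraMap L M)) A rfl _).2 (hu1 _ (hover A hA)))
    (by rw [hα, map_sub, map_one]; ring) hfin2
  obtain ⟨i, -, hi⟩ := hz'.eq_pow_of_pow_eq_one hξ1
  have hξ0 : ξ ≠ 0 := by
    rintro rfl
    rw [zero_pow hq.ne_zero] at hξ1
    exact zero_ne_one hξ1
  obtain ⟨A, hA⟩ := ext_exists O M
  have hOU : OU (A.comap (algebraMap L M)) (rootOfSplitsXPowSubC hq.pos u M * ξ⁻¹) := by
    intro A' hA'
    have hA'' : A'.comap (algebraMap K M) = O := by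
      rw [IsScalarTower.algebraMap_eq K L M, ← ValuationSubring.comap_comap, hA']
      exact hover A hA
    have e : rootOfSplitsXPowSubC hq.pos u M * ξ⁻¹ - 1 =
        -((ξ - rootOfSplitsXPowSubC hq.pos u M) * ξ⁻¹) := by
      rw [sub_mul, mul_inv_cancel₀ hξ0]
      ring
    rw [e, Valuation.map_neg, map_mul, map_inv₀, HU2_one A' hq hξ1, inv_one, mul_one]
    exact hξ2 A' hA''
  have h2 := autEquivZmod_symm_apply_natCast H M hα hz 1
  rw [pow_one, Algebra.smul_def] at h2
  have h3 := ou_sig ((autEquivZmod H M hz).symm (Multiplicative.ofAdd ((1 : ℕ) : ZMod q))) hOU A rfl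
  have h3b : ((autEquivZmod H M hz).symm (Multiplicative.ofAdd ((1 : ℕ) : ZMod q))) ξ = ξ := by
    rw [← hi, map_pow, AlgEquiv.commutes]
  rw [map_mul, h2, map_inv₀, h3b] at h3
  have hOA := hOU A rfl
  have h4 : A.valuation (algebraMap L M z - 1) < 1 := by
    have e : algebraMap L M z - 1 =
        (algebraMap L M z * rootOfSplitsXPowSubC hq.pos u M * ξ⁻¹ - 1) -
          algebraMap L M z * (rootOfSplitsXPowSubC hq.pos u M * ξ⁻¹ - 1) := by
      ring
    rw [e]
    refine Valuation.map_sub_lt _ h3 ?_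
    rw [map_mul, HU2_one A hq hz'.pow_eq_one, one_mul]
    exact hOA
  have h5 : A.valuation ((q : ℕ) : M) = 1 := by
    have h := (val_one O A hA (q : K)).2 hqv
    rwa [map_natCast] at h
  have h6 := root_one A h5 hz'.pow_eq_one h4
  have h7 := hz'.eq_orderOf
  rw [h6, orderOf_one] at h7
  exact hq.one_lt.ne' h7

/-- Newton approximation: 1 + d O is contained in (1 + d O)^q (1 + d^2 O) -/
theorem newton1 {K : Type u} [Field K] (O : ValuationSubring K) {q : ℕ}
    (hqv : O.valuation (q : K) = 1) (d : K) (hd : O.valuation d < 1) (u : K)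
    (hu : O.valuation (u - 1) ≤ O.valuation d) :
    ∃ w : K, w ≠ 0 ∧ O.valuation (u / w ^ q - 1) ≤ O.valuation (d ^ 2) := by
  have hq0 : (q : K) ≠ 0 := by
    intro h
    rw [h, map_zero] at hqv
    exact zero_ne_one hqv
  obtain ⟨x, hx⟩ : ∃ x : K, x = u - 1 := ⟨_, rfl⟩
  have hxv : O.valuation x ≤ O.valuation d := by rw [hx]; exact hu
  have hxl : O.valuation x < 1 := lt_of_le_of_lt hxv hd
  have hle : ∀ n : ℕ, O.valuation (n : K) ≤ 1 := by
    intro n
    rw [ValuationSubring.valuation_le_one_iff]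
    exact natCast_mem O n
  -- binomial expansion
  have key : ∀ n : ℕ, ∀ a : K, O.valuation a ≤ 1 → ∃ r : K, O.valuation r ≤ 1 ∧
      (1 + a) ^ n = 1 + n * a + a ^ 2 * r := by
    intro n a ha
    induction n with
    | zero => exact ⟨0, by simp, by simp⟩
    | succ n ih =>
      obtain ⟨r, hr, hr'⟩ := ih
      refine ⟨n + r + a * r, ?_, ?_⟩
      · refine Valuation.map_add_le _ (Valuation.map_add_le _ (hle n) hr) ?_
        rw [map_mul]
        exact mul_le_one' ha hr
      · rw [pow_succ, hr']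
        push_cast
        ring
  obtain ⟨a, ha⟩ : ∃ a : K, a = x / q := ⟨_, rfl⟩
  have hav : O.valuation a = O.valuation x := by
    rw [ha, map_div₀, hqv, div_one]
  obtain ⟨r, hr, hr'⟩ := key q a (by rw [hav]; exact hxl.le)
  have hwv : O.valuation (1 + a) = 1 := by
    have h := Valuation.map_one_add_of_lt O.valuation (x := a) (by rw [hav]; exact hxl)
    exact h
  have hw0 : (1 + a : K) ≠ 0 := by
    intro h
    rw [h, map_zero] at hwv
    exact zero_ne_one hwv
  refine ⟨1 + a, hw0, ?_⟩
  have hqa : (q : K) * a = x := by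
    rw [ha]
    field_simp
  have e : u / (1 + a) ^ q - 1 = -(a ^ 2 * r) / (1 + a) ^ q := by
    have h3 : u = 1 + x := by rw [hx]; ring
    rw [div_sub_one (pow_ne_zero q hw0)]
    congr 1
    rw [hr', hqa, h3]
    ring
  rw [e, map_div₀, Valuation.map_neg, map_pow, hwv, one_pow, div_one, map_mul, map_pow, map_pow, hav]
  calc O.valuation x ^ 2 * O.valuation r ≤ O.valuation x ^ 2 * 1 := mul_le_mul' le_rfl hr
    _ = O.valuation x ^ 2 := mul_one _
    _ ≤ O.valuation d ^ 2 := pow_le_pow_left₀ zero_le hxv 2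

/-- the q-henselian coarsening -/
theorem coarse_hens {K : Type u} [Field K] (O : ValuationSubring K) (hN : NIP O) {q : ℕ}
    (hq : q.Prime) (hqv : O.valuation (q : K) = 1) (z : K) (hz : IsPrimitiveRoot z q) :
    ∃ O' : ValuationSubring K, O ≤ O' ∧
      (∀ u : K, O'.valuation (u - 1) < 1 → ∃ w : K, O'.valuation (w - 1) < 1 ∧ w ^ q = u) ∧
      (∀ (n : ℕ) (L : Type u) [Field L] [Algebra K L] [FiniteDimensional K L] [IsGalois K L],
        Module.finrank K L = q ^ n →
          ∃! A : ValuationSubring L, A.comap (algebraMap K L) = O') ∧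
      ∀ d : K, O.valuation d < 1 → O'.valuation d = 1 → (CB O q K d).Infinite := by
  obtain ⟨P, hP⟩ : ∃ P : Set K, P = {d | O.valuation d < 1 ∧
      ∀ u : K, O.valuation (u - 1) ≤ O.valuation d → ∃ w : K, w ^ q = u} := ⟨_, rfl⟩
  obtain ⟨O', hO', hO'P⟩ := coarsen O P (by
      rw [hP]
      refine ⟨by simp, fun u hu => ⟨1, ?_⟩⟩
      rw [map_zero, le_zero_iff, Valuation.zero_iff, sub_eq_zero] at hu
      rw [hu, one_pow])
    (fun d hd => by
      rw [hP] at hd
      exact hd.1)
    (fun d hd e he => by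
      rw [hP] at hd ⊢
      exact ⟨lt_of_le_of_lt he hd.1, fun u hu => hd.2 u (hu.trans he)⟩)
    (fun d hd hd2 => by
      rw [hP] at hd2 ⊢
      refine ⟨hd, fun u hu => ?_⟩
      obtain ⟨w, hw0, hw⟩ := newton1 O hqv d hd u hu
      obtain ⟨w', hw'⟩ := hd2.2 _ hw
      refine ⟨w' * w, ?_⟩
      rw [mul_pow, hw', div_mul_cancel₀ _ (pow_ne_zero q hw0)])
  have hqv' : O'.valuation (q : K) = 1 := by
    refine le_antisymm ?_ (not_lt.1 ?_)
    · rw [ValuationSubring.valuation_le_one_iff]
      exact natCast_mem O' q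
    · intro h
      have h1 := (hO'P _).1 h
      rw [hP] at h1
      exact absurd hqv h1.1.ne
  have hpow : ∀ u : K, O'.valuation (u - 1) < 1 → ∃ w : K, w ^ q = u := by
    intro u hu
    have h1 := (hO'P _).1 hu
    rw [hP] at h1
    exact h1.2 u le_rfl
  refine ⟨O', hO', fun u hu => ?_, fun n L _ _ _ _ hd =>
    hens_tower O' hq hqv' z hz hpow n L hd, fun d hd hd' => ?_⟩
  · obtain ⟨w, hw⟩ := hpow u hu
    obtain ⟨c', hc1, hc2⟩ := root_norm O' hq z hz w (by rw [hw]; exact hu)
    exact ⟨c', hc1, hc2.trans hw⟩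
  · intro hf
    have h1 : d ∈ P := by
      rw [hP]
      exact ⟨hd, fun u hu => zero_inf O hN hq hqv z hz d hd hf u hu⟩
    exact absurd hd' ((hO'P d).2 h1).ne

end Pool.LibHC92
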