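import Pool.Agent.LibHC92.HZ2
import Pool.Agent.LibHC92.HM
import Pool.Agent.LibHB92.X9

/-
HY (helper92): almost all primes; strongly NIP valued fields.
-/

set_option autoImplicit false

noncomputable section

namespace Pool.LibHC92

universe u

open Pool.LibNP88 Pool.LibHB92

/-- the residue field of some valuation ring of L over O contains a primitive q-th root of unity -/
def RR {K : Type u} [Field K] (O : ValuationSubring K) (q : ℕ) (L : Type u) [Field L]
    [Algebra K L] : Prop :=
  ∃ A : ValuationSubring L, A.comap (algebraMap K L) = O ∧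
    ∃ ζ : IsLocalRing.ResidueField A, IsPrimitiveRoot ζ q

/-- then q is not the residue characteristic -/
theorem RR.val {K : Type u} [Field K] {O : ValuationSubring K} {q : ℕ} (hq : q.Prime)
    {L : Type u} [Field L] [Algebra K L] (h : RR O q L) : O.valuation (q : K) = 1 := by
  obtain ⟨A, hA, ζ, hζ⟩ := h
  have _ : NeZero q := ⟨hq.ne_zero⟩
  have h1 : NeZero ((q : ℕ) : IsLocalRing.ResidueField A) := hζ.neZero'
  have h2 : IsUnit ((q : ℕ) : A) := by
    by_contra h
    apply h1.out
    have h2 := (IsLocalRing.residue_eq_zero_iff ((q : ℕ) : A)).2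
      ((IsLocalRing.mem_maximalIdeal _).2 h)
    rwa [map_natCast] at h2
  rw [ValuationSubring.valuation_eq_one_iff] at h2
  have h3 : A.valuation (q : L) = 1 := by
    have e : (((q : ℕ) : A) : L) = (q : L) := by norm_cast
    rw [← e]
    exact h2
  rw [← val_one O A hA, map_natCast]
  exact h3

/-- going up -/
theorem RR.up {K : Type u} [Field K] {O : ValuationSubring K} {q : ℕ} {L L' : Type u}
    [Field L] [Algebra K L] [Field L'] [Algebra K L'] [Algebra L L'] [IsScalarTower K L L']
    (h : RR O q L) : RR O q L' := by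
  obtain ⟨A, hA, hζ⟩ := h
  obtain ⟨A', hA'⟩ := ext_exists A L'
  refine ⟨A', ?_, res_up A A' hA' hζ⟩
  rw [IsScalarTower.algebraMap_eq K L L', ← ValuationSubring.comap_comap, hA', hA]

/-- smallness for almost all primes -/
theorem almost_all2 {K : Type u} [Field K] (O : ValuationSubring K) (hN : NIP O)
    (L0 : Type u) [Field L0] [Algebra K L0] [FiniteDimensional K L0]
    (hR : {q : ℕ | q.Prime ∧ RR O q L0}.Infinite)
    (hfin : ∀ (L : Type u) [Field L] [Algebra K L] [FiniteDimensional K L],
      {q : ℕ | q.Prime ∧ ¬ Small O q L}.Finite)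
    (E : Type u) [Field E] [Algebra K E] [Algebra.IsAlgebraic K E] :
    ∃! A : ValuationSubring E, A.comap (algebraMap K E) = O := by
  refine of_cofinal O (fun L _ _ _ => ?_) E
  obtain ⟨L', _, _, _, _, _, _, _⟩ := compos (K := K) (L := L) (L0 := L0)
  obtain ⟨q, ⟨hq, hqR⟩, hqS⟩ := (hR.diff (hfin L')).nonempty
  have hS : Small O q L' := by
    by_contra hcon
    exact hqS ⟨hq, hcon⟩
  have hqR' : RR O q L' := hqR.up
  exact ⟨L', inferInstance, inferInstance, inferInstance, inferInstance, fun A B hA hB =>
    (root_unique2 O hN hq (RR.val hq hqR') L' hqR' hS).2.unique hA hB⟩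

/-- finitely many classes give smallness -/
theorem small_of_finite {K : Type u} [Field K] (O : ValuationSubring K) (q : ℕ) (L : Type u)
    [Field L] [Algebra K L] (h : Finite (Lˣ ⧸ (powMonoidHom q : Lˣ →* Lˣ).range)) :
    Small O q L := fun _ _ => ⟨0, Set.toFinite _⟩

/-- infinite residue fields of positive characteristic have enough roots of unity -/
theorem inf_RR {K : Type u} [Field K] (O : ValuationSubring K) (hN : NIP O) {p : ℕ}
    (hp : p.Prime) [CharP (IsLocalRing.ResidueField O) p] [Infinite (IsLocalRing.ResidueField O)] :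
    {q : ℕ | q.Prime ∧ RR O q K}.Infinite := by
  have _ : Fact p.Prime := ⟨hp⟩
  let _ : Algebra (ZMod p) (IsLocalRing.ResidueField O) := ZMod.algebra _ p
  obtain ⟨N', hN'⟩ := nip_as O hN p
  have has : ∀ t : IsLocalRing.ResidueField O, ∃ x, x ^ p - x = t := fun t => as_surj p hN' t
  intro hf
  obtain ⟨q, hq, hqS, hne, hz⟩ := inf_roots p has hf.toFinset
  refine hqS (hf.mem_toFinset.2 ⟨hq, O, ?_, hz⟩)
  ext x
  simp

/-- NIP with strongly NIP field -/
theorem strong_hens2 {K : Type u} [Field K] (O : ValuationSubring K) (hN : NIP O)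
    (O' : ValuationSubring K) (hS : StrNIP O')
    (L0 : Type u) [Field L0] [Algebra K L0] [FiniteDimensional K L0]
    (hR : {q : ℕ | q.Prime ∧ RR O q L0}.Infinite)
    (E : Type u) [Field E] [Algebra K E] [Algebra.IsAlgebraic K E] :
    ∃! A : ValuationSubring E, A.comap (algebraMap K E) = O := by
  refine almost_all2 O hN L0 hR (fun L _ _ _ => (pow_classes (L := L) O' hS).subset ?_) E
  rintro q ⟨hq, hq'⟩
  exact ⟨hq, fun hf => hq' (small_of_finite O q L hf)⟩

end Pool.LibHC92
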