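import Pool.Agent.LibHC92.HZ

/-
HZ2 (helper92): assembly, second part: the q-henselian form, the main theorem and its converse.
-/

set_option autoImplicit false

noncomputable section

namespace Pool.LibHC92

universe u

open Pool.LibNP88 Pool.LibHB92

/-- a primitive root of unity of L gives one in the residue field -/
theorem res_of_root {L : Type u} [Field L] (A : ValuationSubring L) {q : ℕ} (hq : q.Prime)
    (hqA : A.valuation (q : L) = 1) (z : L) (hz : IsPrimitiveRoot z q) :
    ∃ ζ : IsLocalRing.ResidueField A, IsPrimitiveRoot ζ q := by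
  have hzq : z ^ q = 1 := hz.pow_eq_one
  have hzv : A.valuation z = 1 := by
    have h3 : A.valuation z ^ q = 1 := by rw [← map_pow, hzq, map_one]
    exact (pow_eq_one_iff_of_nonneg zero_le hq.ne_zero).1 h3
  have hzm : z ∈ A := (ValuationSubring.valuation_le_one_iff _ _).1 hzv.le
  have h1 : (IsLocalRing.residue A ⟨z, hzm⟩) ^ q = 1 := by
    rw [← map_pow]
    have h3 : (⟨z, hzm⟩ : A) ^ q = 1 := Subtype.ext hzq
    rw [h3, map_one]
  have h2 : IsLocalRing.residue A ⟨z, hzm⟩ ≠ 1 := by
    intro h
    rw [← sub_eq_zero, ← map_one (IsLocalRing.residue A), ← map_sub,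
      IsLocalRing.residue_eq_zero_iff, A.valuation_lt_one_iff] at h
    have h4 : A.valuation (z - 1) < 1 := by simpa using h
    exact hz.ne_one hq.one_lt (root_one A hqA hzq h4)
  have _ : Fact q.Prime := ⟨hq⟩
  refine ⟨IsLocalRing.residue A ⟨z, hzm⟩, ?_⟩
  have h3 : orderOf (IsLocalRing.residue A ⟨z, hzm⟩) = q := orderOf_eq_prime h1 h2
  rw [← h3]
  exact IsPrimitiveRoot.orderOf _

private theorem HZ2_q {K L : Type u} [Field K] [Field L] [Algebra K L] (O : ValuationSubring K)
    {q : ℕ} (hqv : O.valuation (q : K) = 1) (A : ValuationSubring L)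
    (hA : A.comap (algebraMap K L) = O) : A.valuation (q : L) = 1 := by
  have h := (val_one O A hA (q : K)).2 hqv
  rwa [map_natCast] at h

/-- local form: exactly one extension to L -/
theorem local_unique2 {K : Type u} [Field K] (O : ValuationSubring K) (hN : NIP O) {q : ℕ}
    (hq : q.Prime) (hqv : O.valuation (q : K) = 1) (L : Type u) [Field L] [Algebra K L]
    [FiniteDimensional K L] (hz : ∃ z : L, IsPrimitiveRoot z q) (hfin : Small O q L) :
    ∃! A : ValuationSubring L, A.comap (algebraMap K L) = O := by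
  obtain ⟨z, hz⟩ := hz
  obtain ⟨A, hA⟩ := ext_exists O L
  exact (root_unique2 O hN hq hqv L ⟨A, hA, res_of_root A hq (HZ2_q O hqv A hA) z hz⟩ hfin).2

/-- the one-units are q-th powers of one-units, exactly one extension to every Galois extension of q-power degree -/
theorem q_hens2 {K : Type u} [Field K] (O : ValuationSubring K) (hN : NIP O) {q : ℕ}
    (hq : q.Prime) (hqv : O.valuation (q : K) = 1)
    (hζ : ∃ ζ : IsLocalRing.ResidueField O, IsPrimitiveRoot ζ q) (hfin : Small O q K) :
    (∃ z : K, IsPrimitiveRoot z q) ∧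
    (∀ u : K, O.valuation (u - 1) < 1 → ∃ w : K, O.valuation (w - 1) < 1 ∧ w ^ q = u) ∧
    ∀ (n : ℕ) (L : Type u) [Field L] [Algebra K L] [FiniteDimensional K L] [IsGalois K L],
      Module.finrank K L = q ^ n → ∃! A : ValuationSubring L, A.comap (algebraMap K L) = O := by
  have hO : O.comap (algebraMap K K) = O := by
    ext x
    simp
  obtain ⟨⟨z, hz⟩, -⟩ := root_unique2 O hN hq hqv K ⟨O, hO, hζ⟩ hfin
  have h1 : ∀ (n : ℕ) (L : Type u) [Field L] [Algebra K L] [FiniteDimensional K L]
      [IsGalois K L], Module.finrank K L = q ^ n →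
      ∃! A : ValuationSubring L, A.comap (algebraMap K L) = O := fun n L _ _ _ _ hd =>
    (q_tower2 O hq hqv z hz hfin
      (fun L _ _ _ hzL hL => local_unique2 O hN hq hqv L hzL hL) n L hd).2
  exact ⟨⟨z, hz⟩, fun u hu => one_units_pow O hq hqv z hz
    (fun L _ _ _ _ hd => h1 1 L (by rw [hd, pow_one])) u hu, h1⟩

/-- main theorem -/
theorem main2 {K : Type u} [Field K] (O : ValuationSubring K) (hN : NIP O) {q : ℕ}
    (hq : q.Prime) (hqv : O.valuation (q : K) = 1)
    (hfin : ∀ (L : Type u) [Field L] [Algebra K L] [FiniteDimensional K L], Small O q L)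
    (E : Type u) [Field E] [Algebra K E] [Algebra.IsAlgebraic K E] :
    ∃! A : ValuationSubring E, A.comap (algebraMap K E) = O := by
  obtain ⟨A, hA⟩ := ext_exists O E
  refine ⟨A, hA, fun B hB => ?_⟩
  by_contra hne'
  have hqK : (q : K) ≠ 0 := by
    intro h0
    rw [h0] at hqv
    simp at hqv
  obtain ⟨L, _, _, _, hz, A', B', hA', hB', hne''⟩ := choose_L' O hq hqK E B A hB hA hne'
  exact hne'' ((local_unique2 O hN hq hqv L hz (hfin L)).unique hA' hB')

/-- the converse -/
theorem small_of_hens {K : Type u} [Field K] (O : ValuationSubring K) {q : ℕ} (hq : q.Prime)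
    (hqv : O.valuation (q : K) = 1)
    (h : ∀ (E : Type u) [Field E] [Algebra K E] [Algebra.IsAlgebraic K E],
      ∃! A : ValuationSubring E, A.comap (algebraMap K E) = O) (L : Type u) [Field L]
    [Algebra K L] [FiniteDimensional K L] : Small O q L := by
  intro b hb
  refine ⟨1, (Set.finite_singleton (1 : Lˣ ⧸ (powMonoidHom q : Lˣ →* Lˣ).range)).subset ?_⟩
  rintro c ⟨u, rfl, hu⟩
  obtain ⟨w, hw⟩ := pow_of_hens O hq hqv h L (u : L) fun A hA => by
    refine lt_of_le_of_lt (hu A hA) ?_
    rw [pow_one]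
    exact hb A hA
  have hw0 : w ≠ 0 := by
    rintro rfl
    rw [zero_pow hq.ne_zero] at hw
    exact u.ne_zero hw.symm
  rw [Set.mem_singleton_iff, QuotientGroup.eq_one_iff]
  refine ⟨Units.mk0 w hw0, ?_⟩
  apply Units.ext
  rw [powMonoidHom_apply]
  push_cast
  exact hw

end Pool.LibHC92
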